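import Mathlib

/-!
# Hausdorff approximation on `[-1,1]`: definitions
-/

set_option autoImplicit false

open Set

namespace Pool.Agent.H293.HA

/-- `h([-1,1],α;f,g) = max_x min_y max (|x-y|/α, |f(x)-g(y)|)`. -/
noncomputable def hdev (α : ℝ) (f g : ℝ → ℝ) : ℝ :=
  sSup ((fun x => sInf ((fun y => max (|x - y| / α) |f x - g y|) '' Icc (-1) 1)) '' Icc (-1) 1)

/-- The Hausdorff distance `r([-1,1],α;f,g)` with parameter `α`. -/
noncomputable def hdist (α : ℝ) (f g : ℝ → ℝ) : ℝ := max (hdev α f g) (hdev α g f)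

/-- The best Hausdorff approximation `E(H_n,[-1,1],α;f)` by polynomials of degree `≤ n`. -/
noncomputable def bestE (n : ℕ) (α : ℝ) (f : ℝ → ℝ) : ℝ :=
  sInf ((fun P : Polynomial ℝ => hdist α f (fun x => P.eval x)) '' {P | P.natDegree ≤ n})

/-- closeness within `δ` -/
def Close (α δ : ℝ) (f g : ℝ → ℝ) : Prop :=
  (∀ x ∈ Icc (-1:ℝ) 1, ∃ y ∈ Icc (-1:ℝ) 1, |x - y| ≤ α * δ ∧ |f x - g y| ≤ δ) ∧
  (∀ x ∈ Icc (-1:ℝ) 1, ∃ y ∈ Icc (-1:ℝ) 1, |x - y| ≤ α * δ ∧ |f y - g x| ≤ δ)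

lemma hdev_le {α δ : ℝ} (hα : 0 < α) {f g : ℝ → ℝ}
    (h : ∀ x ∈ Icc (-1:ℝ) 1, ∃ y ∈ Icc (-1:ℝ) 1, |x - y| ≤ α * δ ∧ |f x - g y| ≤ δ) :
    hdev α f g ≤ δ := by
  unfold hdev
  apply csSup_le
  · exact ⟨_, 0, by norm_num, rfl⟩
  · rintro _ ⟨x, hx, rfl⟩
    obtain ⟨y, hy, h1, h2⟩ := h x hx
    refine csInf_le_of_le ⟨0, ?_⟩ ⟨y, hy, rfl⟩ ?_
    · rintro _ ⟨z, _, rfl⟩
      exact le_max_of_le_right (abs_nonneg _)
    · refine max_le ?_ h2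
      rw [div_le_iff₀ hα]
      linarith

lemma exists_of_hdev_lt {α δ : ℝ} (hα : 0 < α) {f g : ℝ → ℝ}
    (hf : ContinuousOn f (Icc (-1) 1)) (hg : ContinuousOn g (Icc (-1) 1))
    (h : hdev α f g < δ) :
    ∀ x ∈ Icc (-1:ℝ) 1, ∃ y ∈ Icc (-1:ℝ) 1, |x - y| ≤ α * δ ∧ |f x - g y| ≤ δ := by
  intro x hx
  obtain ⟨M, hM⟩ := (isCompact_Icc.image_of_continuousOn (hf.sub hg).abs).bddAbove
  have hbdd : BddAbove ((fun x => sInf ((fun y => max (|x - y| / α) |f x - g y|) '' Icc (-1) 1)) ''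
      Icc (-1) 1) := by
    refine ⟨max 0 M, ?_⟩
    rintro _ ⟨z, hz, rfl⟩
    refine csInf_le_of_le ⟨0, ?_⟩ ⟨z, hz, rfl⟩ ?_
    · rintro _ ⟨w, _, rfl⟩
      exact le_max_of_le_right (abs_nonneg _)
    · simp only [sub_self, abs_zero, zero_div]
      exact max_le_max le_rfl (hM ⟨z, hz, rfl⟩)
  have h1 : sInf ((fun y => max (|x - y| / α) |f x - g y|) '' Icc (-1) 1) < δ :=
    lt_of_le_of_lt (le_csSup hbdd ⟨x, hx, rfl⟩) h
  obtain ⟨_, ⟨y, hy, rfl⟩, h2⟩ := exists_lt_of_csInf_lt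
    ((show (Icc (-1:ℝ) 1).Nonempty from ⟨0, by norm_num⟩).image _) h1
  rw [max_lt_iff] at h2
  refine ⟨y, hy, ?_, h2.2.le⟩
  have := h2.1
  rw [div_lt_iff₀ hα] at this
  linarith

lemma bestE_le {α δ : ℝ} (hα : 0 < α) {f : ℝ → ℝ} {n : ℕ} {P : Polynomial ℝ}
    (hP : P.natDegree ≤ n) (h : Close α δ f (fun x => P.eval x)) : bestE n α f ≤ δ := by
  unfold bestE
  refine csInf_le_of_le ⟨0, ?_⟩ ⟨P, hP, rfl⟩ ?_
  · rintro _ ⟨R, _, rfl⟩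
    refine le_max_of_le_left ?_
    unfold hdev
    apply Real.sSup_nonneg
    rintro _ ⟨x, _, rfl⟩
    apply Real.sInf_nonneg
    rintro _ ⟨y, _, rfl⟩
    exact le_max_of_le_right (abs_nonneg _)
  · refine max_le (hdev_le hα h.1) (hdev_le hα ?_)
    intro x hx
    obtain ⟨y, hy, h1, h2⟩ := h.2 x hx
    exact ⟨y, hy, h1, by rw [abs_sub_comm]; exact h2⟩

lemma bestE_nonneg (n : ℕ) (α : ℝ) (f : ℝ → ℝ) : 0 ≤ bestE n α f := by
  unfold bestE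
  apply Real.sInf_nonneg
  rintro _ ⟨R, _, rfl⟩
  refine le_max_of_le_left ?_
  unfold hdev
  apply Real.sSup_nonneg
  rintro _ ⟨x, _, rfl⟩
  apply Real.sInf_nonneg
  rintro _ ⟨y, _, rfl⟩
  exact le_max_of_le_right (abs_nonneg _)

lemma exists_close {α δ : ℝ} (hα : 0 < α) {f : ℝ → ℝ} (hf : ContinuousOn f (Icc (-1) 1)) {n : ℕ}
    (h : bestE n α f < δ) :
    ∃ P : Polynomial ℝ, P.natDegree ≤ n ∧ Close α δ f (fun x => P.eval x) := by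
  obtain ⟨_, ⟨P, hP, rfl⟩, h1⟩ := exists_lt_of_csInf_lt
    ((show ({P : Polynomial ℝ | P.natDegree ≤ n}).Nonempty from
      ⟨0, show (0 : Polynomial ℝ).natDegree ≤ n by simp⟩).image _) h
  refine ⟨P, hP, ?_⟩
  have hPc : ContinuousOn (fun x => P.eval x) (Icc (-1) 1) := P.continuous.continuousOn
  have h2 : max (hdev α f (fun x => P.eval x)) (hdev α (fun x => P.eval x) f) < δ := h1
  rw [max_lt_iff] at h2
  refine ⟨exists_of_hdev_lt hα hf hPc h2.1, ?_⟩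
  intro x hx
  obtain ⟨y, hy, h3, h4⟩ := exists_of_hdev_lt hα hPc hf h2.2 x hx
  exact ⟨y, hy, h3, by rw [abs_sub_comm]; exact h4⟩

end Pool.Agent.H293.HA
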