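import Pool.Agent.H293.HA.Lim
import Pool.Agent.H293.HA.Defs

/-!
# Lower bound: from polynomials to entire functions of exponential type
-/

set_option autoImplicit false

open Filter Asymptotics Topology Set

namespace Pool.Agent.H293.HA

/-- the complex extension of a real polynomial -/
noncomputable def Pc (P : Polynomial ℝ) (z : ℂ) : ℂ := (P.map Complex.ofRealHom).eval z

lemma Pc_real (P : Polynomial ℝ) (x : ℝ) : Pc P x = ((P.eval x : ℝ) : ℂ) := by
  unfold Pc
  rw [Polynomial.eval_map]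
  exact Polynomial.eval₂_at_apply Complex.ofRealHom x

lemma norm_exp_I_le (z : ℂ) : ‖Complex.exp (z * Complex.I)‖ ≤ Real.exp |z.im| := by
  rw [Complex.norm_exp]
  apply Real.exp_le_exp.mpr
  simp
  exact neg_le_abs _

lemma norm_sin_le (z : ℂ) : ‖Complex.sin z‖ ≤ Real.exp |z.im| := by
  unfold Complex.sin
  rw [norm_div, norm_mul, Complex.norm_I, mul_one]
  have h1 := norm_exp_I_le z
  have h2 := norm_exp_I_le (-z)
  rw [Complex.neg_im, abs_neg] at h2
  have h3 : ‖(2:ℂ)‖ = 2 := by simp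
  rw [h3, div_le_iff₀ (by norm_num)]
  calc ‖Complex.exp (-z * Complex.I) - Complex.exp (z * Complex.I)‖
      ≤ ‖Complex.exp (-z * Complex.I)‖ + ‖Complex.exp (z * Complex.I)‖ := norm_sub_le _ _
    _ ≤ Real.exp |z.im| * 2 := by linarith

lemma norm_cos_le (z : ℂ) : ‖Complex.cos z‖ ≤ Real.exp |z.im| := by
  unfold Complex.cos
  rw [norm_div]
  have h1 := norm_exp_I_le z
  have h2 := norm_exp_I_le (-z)
  rw [Complex.neg_im, abs_neg] at h2
  have h3 : ‖(2:ℂ)‖ = 2 := by simp
  rw [h3, div_le_iff₀ (by norm_num)]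
  calc ‖Complex.exp (z * Complex.I) + Complex.exp (-z * Complex.I)‖
      ≤ ‖Complex.exp (z * Complex.I)‖ + ‖Complex.exp (-z * Complex.I)‖ := norm_add_le _ _
    _ ≤ Real.exp |z.im| * 2 := by linarith

/-- the rescaled polynomial `c P(W(z/n))` is of exponential type at most one -/
lemma expType_scaled {W : ℂ → ℂ} (hW : Differentiable ℂ W) (hWb : ∀ z, ‖W z‖ ≤ Real.exp |z.im|)
    {P : Polynomial ℝ} {n : ℕ} (hn : 1 ≤ n) (hP : P.natDegree ≤ n) (c : ℂ) :
    ExpType 1 (fun z => c * Pc P (W (z / n))) := by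
  have hn0 : (0:ℝ) < n := by exact_mod_cast hn
  refine ⟨?_, fun ε hε => ?_⟩
  · unfold Pc
    intro z
    apply DifferentiableAt.const_mul
    have h1 : Differentiable ℂ (fun z => (P.map Complex.ofRealHom).eval z) :=
      Polynomial.differentiable _
    have h2 : Differentiable ℂ (fun z : ℂ => W (z / n)) :=
      hW.comp (differentiable_id.div_const _)
    exact (h1.comp h2) z
  · refine ⟨‖c‖ * ∑ i ∈ Finset.range (n + 1), ‖(P.map Complex.ofRealHom).coeff i‖, fun z => ?_⟩
    have hdeg : (P.map Complex.ofRealHom).natDegree < n + 1 :=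
      lt_of_le_of_lt Polynomial.natDegree_map_le (by omega)
    have h1 : Pc P (W (z / n)) = ∑ i ∈ Finset.range (n + 1),
        (P.map Complex.ofRealHom).coeff i * (W (z / n)) ^ i := by
      unfold Pc
      exact Polynomial.eval_eq_sum_range' hdeg _
    have hw : ‖W (z / n)‖ ≤ Real.exp (‖z‖ / n) := by
      refine (hWb _).trans (Real.exp_le_exp.mpr ?_)
      calc |(z / n).im| ≤ ‖z / n‖ := Complex.abs_im_le_norm _
        _ = ‖z‖ / n := by rw [norm_div, Complex.norm_natCast]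
    have hb : ∀ i ∈ Finset.range (n + 1), ‖W (z / n)‖ ^ i ≤ Real.exp ((1 + ε) * ‖z‖) := by
      intro i hi
      have hi' : i ≤ n := by
        rw [Finset.mem_range] at hi; omega
      calc ‖W (z / n)‖ ^ i ≤ (Real.exp (‖z‖ / n)) ^ i := pow_le_pow_left₀ (norm_nonneg _) hw i
        _ ≤ (Real.exp (‖z‖ / n)) ^ n := by
            apply pow_le_pow_right₀ _ hi'
            rw [← Real.exp_zero]
            exact Real.exp_le_exp.mpr (by positivity)
        _ = Real.exp ‖z‖ := by
            rw [← Real.exp_nat_mul]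
            congr 1
            field_simp
        _ ≤ Real.exp ((1 + ε) * ‖z‖) := by
            apply Real.exp_le_exp.mpr
            have := norm_nonneg z
            nlinarith
    rw [norm_mul, h1]
    rw [mul_assoc]
    apply mul_le_mul_of_nonneg_left _ (norm_nonneg _)
    rw [Finset.sum_mul]
    refine (norm_sum_le _ _).trans (Finset.sum_le_sum fun i hi => ?_)
    rw [norm_mul, norm_pow]
    exact mul_le_mul_of_nonneg_left (hb i hi) (norm_nonneg _)

lemma abs_arcsin_le (y : ℝ) (hy : y ∈ Icc (-1:ℝ) 1) : |Real.arcsin y| ≤ 2 * |y| := by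
  have key : ∀ y : ℝ, 0 ≤ y → y ≤ 1 → Real.arcsin y ≤ 2 * y := by
    intro y h0 h1
    have h2 := Real.mul_le_sin (Real.arcsin_nonneg.2 h0) (Real.arcsin_le_pi_div_two y)
    rw [Real.sin_arcsin (by linarith) h1] at h2
    have h3 := Real.pi_pos
    have h4 := Real.pi_le_four
    have h5 := Real.arcsin_nonneg.2 h0
    have h6 : Real.arcsin y = (Real.pi / 2) * (2 / Real.pi * Real.arcsin y) := by
      field_simp
    rw [h6]
    nlinarith
  rcases le_total 0 y with h | h
  · rw [abs_of_nonneg (Real.arcsin_nonneg.2 h), abs_of_nonneg h]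
    exact key y h hy.2
  · have := key (-y) (by linarith) (by linarith [hy.1])
    rw [Real.arcsin_neg] at this
    rw [abs_of_nonpos (Real.arcsin_nonpos.2 h), abs_of_nonpos h]
    exact this

lemma tendsto_n_sin {U : Filter ℕ} (hU : U ≤ atTop) {s : ℕ → ℝ} {s₀ : ℝ}
    (hs : Tendsto s U (𝓝 s₀)) :
    Tendsto (fun n : ℕ => (n:ℝ) * Real.sin (s n / n)) U (𝓝 s₀) := by
  have h1 : Tendsto (fun n : ℕ => s n / (n:ℝ)) U (𝓝 0) :=
    hs.div_atTop (tendsto_natCast_atTop_atTop.mono_left hU)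
  have h2 : Tendsto (fun n : ℕ => s n * Real.sinc (s n / (n:ℝ))) U (𝓝 (s₀ * Real.sinc 0)) :=
    hs.mul ((Real.continuous_sinc.tendsto 0).comp h1)
  rw [Real.sinc_zero, mul_one] at h2
  refine h2.congr' ?_
  filter_upwards [hU (eventually_ge_atTop 1)] with n hn
  have hn0 : (n:ℝ) ≠ 0 := by
    have : 0 < n := hn
    positivity
  by_cases h : s n = 0
  · simp [h]
  · rw [Real.sinc_of_ne_zero (div_ne_zero h hn0)]
    field_simp

/-- horizontal distance at most `h` and vertical distance at most `v` between `F` and the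
restriction to `ℝ` of an entire function of exponential type `≤ 1`, real on `ℝ` -/
def Feas (F : ℝ → ℝ) (h v : ℝ) (Q : ℂ → ℂ) : Prop :=
  ExpType 1 Q ∧ (∀ x : ℝ, (Q x).im = 0) ∧
  (∀ s : ℝ, ∃ t : ℝ, |s - t| ≤ h ∧ |F t - (Q s).re| ≤ v) ∧
  (∀ t : ℝ, ∃ s : ℝ, |s - t| ≤ h ∧ |F t - (Q s).re| ≤ v)

lemma expType_of_bound {L : ℂ → ℂ} {K : ℝ} (hd : Differentiable ℂ L)
    (hb : ∀ z, ‖L z‖ ≤ K * (1 + ‖z‖) ^ 2 * Real.exp |z.im|) : ExpType 1 L := by
  refine ⟨hd, fun ε hε => ?_⟩
  have hK : 0 ≤ K := by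
    have := hb 0
    simp at this
    exact le_trans (norm_nonneg _) this
  refine ⟨K * (Real.exp ε * (2 / ε ^ 2)), fun z => ?_⟩
  have h1 : (1 + ‖z‖) ^ 2 ≤ (2 / ε ^ 2) * Real.exp (ε * (1 + ‖z‖)) := by
    have h2 := Real.quadratic_le_exp_of_nonneg (x := ε * (1 + ‖z‖)) (by positivity)
    have h3 : (ε * (1 + ‖z‖)) ^ 2 / 2 ≤ Real.exp (ε * (1 + ‖z‖)) := by
      have : 0 ≤ ε * (1 + ‖z‖) := by positivity
      linarith
    have h4 : (1 + ‖z‖) ^ 2 = (2 / ε ^ 2) * ((ε * (1 + ‖z‖)) ^ 2 / 2) := by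
      field_simp
    rw [h4]
    exact mul_le_mul_of_nonneg_left h3 (by positivity)
  have h5 : Real.exp |z.im| ≤ Real.exp ‖z‖ := Real.exp_le_exp.mpr (Complex.abs_im_le_norm z)
  calc ‖L z‖ ≤ K * (1 + ‖z‖) ^ 2 * Real.exp |z.im| := hb z
    _ ≤ K * ((2 / ε ^ 2) * Real.exp (ε * (1 + ‖z‖))) * Real.exp ‖z‖ := by gcongr
    _ = K * (Real.exp ε * (2 / ε ^ 2)) * Real.exp ((1 + ε) * ‖z‖) := by
        rw [show (1 + ε) * ‖z‖ = ‖z‖ + ε * ‖z‖ by ring, show ε * (1 + ‖z‖) = ε + ε * ‖z‖ by ring,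
          Real.exp_add, Real.exp_add]
        ring

theorem lowerA (U : Ultrafilter ℕ) (hU : (U : Filter ℕ) ≤ atTop) {F : ℝ → ℝ} {lam α b v : ℝ}
    (hF : Continuous F) (hhom : ∀ a t : ℝ, 0 < a → F (a * t) = a ^ lam * F t)
    (hFb : ∀ t, |F t| ≤ |t| ^ lam) (hl : 0 < lam) (hl1 : lam ≤ 1) (hb : 0 < b)
    (hα : 0 < α)
    (hv : Tendsto (fun n : ℕ => (n:ℝ) ^ lam * (b / (n * α))) U (𝓝 v))
    (hP : ∀ᶠ n : ℕ in (U : Filter ℕ), ∃ P : Polynomial ℝ, P.natDegree ≤ n ∧
      Close α (b / (n * α)) F (fun x => P.eval x)) :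
    ∃ Q, Feas F b v Q := by
  classical
  set P : ℕ → Polynomial ℝ := fun n => if h : ∃ P : Polynomial ℝ, P.natDegree ≤ n ∧
      Close α (b / (n * α)) F (fun x => P.eval x) then h.choose else 0 with hPdef
  have hP' : ∀ᶠ n : ℕ in (U : Filter ℕ), 1 ≤ n ∧ (P n).natDegree ≤ n ∧
      Close α (b / (n * α)) F (fun x => (P n).eval x) := by
    filter_upwards [hP, hU (eventually_ge_atTop 1)] with n hn hn1
    refine ⟨hn1, ?_⟩
    have : P n = hn.choose := by rw [hPdef]; simp only [dif_pos hn]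
    rw [this]
    exact hn.choose_spec
  set Q : ℕ → ℂ → ℂ := fun n z => (((n:ℝ) ^ lam : ℝ) : ℂ) * Pc (P n) (Complex.sin (z / n)) with hQ
  have hQreal : ∀ (n : ℕ) (s : ℝ), Q n s = (((n:ℝ) ^ lam * (P n).eval (Real.sin (s / n)) : ℝ) : ℂ) := by
    intro n s
    rw [hQ]
    simp only
    rw [show (s:ℂ) / (n:ℂ) = ((s / n : ℝ) : ℂ) by push_cast; rfl, ← Complex.ofReal_sin, Pc_real]
    push_cast
    rfl
  -- the uniform bound
  set A : ℝ := 1 + b + b / α with hA
  have hgrow : ∀ᶠ n : ℕ in (U : Filter ℕ), ∀ s : ℝ, ‖Q n s‖ ≤ A * (1 + |s|) ^ 2 := by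
    filter_upwards [hP'] with n hn s
    obtain ⟨hn1, _, _, hc⟩ := hn
    have hn0 : (0:ℝ) < n := by exact_mod_cast hn1
    obtain ⟨x, hx, h1, h2⟩ := hc (Real.sin (s / n)) (Real.sin_mem_Icc _)
    have hαδ : α * (b / (n * α)) = b / n := by field_simp
    rw [hαδ] at h1
    rw [hQreal, Complex.norm_real, Real.norm_eq_abs, abs_mul, abs_of_nonneg (by positivity)]
    have h3 : |(P n).eval (Real.sin (s / n))| ≤ |x| ^ lam + b / (n * α) := by
      have h4 : |(P n).eval (Real.sin (s / n))| ≤ |F x| + |F x - (P n).eval (Real.sin (s / n))| := by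
        have := abs_sub_abs_le_abs_sub ((P n).eval (Real.sin (s / n))) (F x)
        rw [abs_sub_comm ((P n).eval (Real.sin (s / n))) (F x)] at this
        linarith
      linarith [hFb x]
    have h5 : |n * x| ≤ |s| + b := by
      have h6 : |(n:ℝ) * Real.sin (s / n)| ≤ |s| := by
        rw [abs_mul, abs_of_pos hn0]
        have h7 := Real.abs_sin_le_abs (x := s / n)
        rw [abs_div, abs_of_pos hn0] at h7
        calc (n:ℝ) * |Real.sin (s / n)| ≤ n * (|s| / n) := mul_le_mul_of_nonneg_left h7 hn0.le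
          _ = |s| := by field_simp
      have h8 : |(n:ℝ) * Real.sin (s / n) - n * x| ≤ b := by
        rw [← mul_sub, abs_mul, abs_of_pos hn0]
        calc (n:ℝ) * |Real.sin (s / n) - x| ≤ n * (b / n) := mul_le_mul_of_nonneg_left h1 hn0.le
          _ = b := by field_simp
      have h9 := abs_sub_abs_le_abs_sub ((n:ℝ) * x) ((n:ℝ) * Real.sin (s / n))
      rw [abs_sub_comm] at h9
      linarith
    have h10 : (n:ℝ) ^ lam * |x| ^ lam ≤ 1 + |s| + b := by
      rw [← Real.mul_rpow hn0.le (abs_nonneg _)]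
      have h11 : (n:ℝ) * |x| = |n * x| := by rw [abs_mul, abs_of_pos hn0]
      rw [h11]
      calc |n * x| ^ lam ≤ (1 + |s| + b) ^ lam := by
            apply Real.rpow_le_rpow (abs_nonneg _) _ hl.le
            linarith
        _ ≤ (1 + |s| + b) ^ (1:ℝ) := by
            apply Real.rpow_le_rpow_of_exponent_le _ hl1
            have := abs_nonneg s
            linarith
        _ = _ := Real.rpow_one _
    have h12 : (n:ℝ) ^ lam * (b / (n * α)) ≤ b / α := by
      have h13 : (n:ℝ) ^ lam ≤ n := by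
        calc (n:ℝ) ^ lam ≤ (n:ℝ) ^ (1:ℝ) := Real.rpow_le_rpow_of_exponent_le
              (by exact_mod_cast hn1) hl1
          _ = n := Real.rpow_one _
      calc (n:ℝ) ^ lam * (b / (n * α)) ≤ n * (b / (n * α)) :=
            mul_le_mul_of_nonneg_right h13 (by positivity)
        _ = b / α := by field_simp
    have h14 : (n:ℝ) ^ lam * |(P n).eval (Real.sin (s / n))| ≤
        (n:ℝ) ^ lam * (|x| ^ lam + b / (n * α)) :=
      mul_le_mul_of_nonneg_left h3 (by positivity)
    have h15 : 0 ≤ |s| := abs_nonneg s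
    have h16 : 0 < b / α := by positivity
    have h17 : (1:ℝ) ≤ (1 + |s|) ^ 2 := by nlinarith
    have h18 : 1 + |s| ≤ (1 + |s|) ^ 2 := by nlinarith
    rw [hA]
    nlinarith
  have hQall : ∀ᶠ n : ℕ in (U : Filter ℕ), Differentiable ℂ (Q n) ∧
      ∀ z, ‖Q n z‖ ≤ 2 * A * (1 + ‖z‖) ^ 2 * Real.exp |z.im| := by
    filter_upwards [hP', hgrow] with n hn hg
    have hE : ExpType 1 (Q n) := expType_scaled Complex.differentiable_sin norm_sin_le hn.1 hn.2.1 _
    refine ⟨hE.1, fun z => ?_⟩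
    have := pl_bound zero_le_one hE hg z
    rwa [one_mul] at this
  obtain ⟨L, hLd, hLb, hLc⟩ := exists_limit U Q (2 * A) hQall
  have hLre : ∀ x : ℝ, (L x).im = 0 := by
    intro x
    have h1 : Tendsto (fun n => (Q n x).im) U (𝓝 (L x).im) :=
      (Complex.continuous_im.tendsto _).comp (hLc (fun _ => (x:ℂ)) x tendsto_const_nhds)
    have h2 : (fun n => (Q n x).im) = fun _ => 0 := by
      funext n
      rw [hQreal]
      exact Complex.ofReal_im _
    rw [h2] at h1
    exact (tendsto_nhds_unique h1 tendsto_const_nhds)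
  refine ⟨L, expType_of_bound hLd hLb, hLre, ?_, ?_⟩
  · -- (i)
    intro s
    have hex : ∀ᶠ n : ℕ in (U : Filter ℕ), ∃ x : ℝ, |(n:ℝ) * Real.sin (s / n) - n * x| ≤ b ∧
        |F (n * x) - (Q n s).re| ≤ (n:ℝ) ^ lam * (b / (n * α)) := by
      filter_upwards [hP'] with n hn
      obtain ⟨hn1, _, _, hc⟩ := hn
      have hn0 : (0:ℝ) < n := by exact_mod_cast hn1
      obtain ⟨x, hx, h1, h2⟩ := hc (Real.sin (s / n)) (Real.sin_mem_Icc _)
      have hαδ : α * (b / (n * α)) = b / n := by field_simp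
      rw [hαδ] at h1
      refine ⟨x, ?_, ?_⟩
      · rw [← mul_sub, abs_mul, abs_of_pos hn0]
        calc (n:ℝ) * |Real.sin (s / n) - x| ≤ n * (b / n) := mul_le_mul_of_nonneg_left h1 hn0.le
          _ = b := by field_simp
      · rw [hhom _ _ hn0, hQreal, Complex.ofReal_re, ← mul_sub, abs_mul,
          abs_of_nonneg (by positivity : (0:ℝ) ≤ (n:ℝ) ^ lam)]
        exact mul_le_mul_of_nonneg_left h2 (by positivity)
    set x : ℕ → ℝ := fun n => if h : ∃ x : ℝ, |(n:ℝ) * Real.sin (s / n) - n * x| ≤ b ∧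
        |F (n * x) - (Q n s).re| ≤ (n:ℝ) ^ lam * (b / (n * α)) then h.choose else 0 with hxdef
    have hx : ∀ᶠ n : ℕ in (U : Filter ℕ), |(n:ℝ) * Real.sin (s / n) - n * x n| ≤ b ∧
        |F (n * x n) - (Q n s).re| ≤ (n:ℝ) ^ lam * (b / (n * α)) := by
      filter_upwards [hex] with n hn
      have : x n = hn.choose := by rw [hxdef]; simp only [dif_pos hn]
      rw [this]
      exact hn.choose_spec
    have hns := tendsto_n_sin hU (s := fun _ => s) tendsto_const_nhds
    have hbd : ∀ᶠ n : ℕ in (U : Filter ℕ), |(n:ℝ) * x n| ≤ |s| + 1 + b := by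
      have h3 : ∀ᶠ n : ℕ in (U : Filter ℕ), |(n:ℝ) * Real.sin (s / n)| < |s| + 1 :=
        hns.abs.eventually (gt_mem_nhds (by linarith))
      filter_upwards [hx, h3] with n hn h4
      have h9 := abs_sub_abs_le_abs_sub ((n:ℝ) * x n) ((n:ℝ) * Real.sin (s / n))
      rw [abs_sub_comm] at h9
      linarith [hn.1]
    obtain ⟨t, ht⟩ := exists_ultralim_real hbd
    refine ⟨t, ?_, ?_⟩
    · refine le_of_tendsto (hns.sub ht).abs ?_
      filter_upwards [hx] with n hn
      exact hn.1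
    · have h5 : Tendsto (fun n => |F (n * x n) - (Q n s).re|) U (𝓝 |F t - (L s).re|) :=
        (((hF.tendsto t).comp ht).sub ((Complex.continuous_re.tendsto _).comp
          (hLc (fun _ => (s:ℂ)) s tendsto_const_nhds))).abs
      refine le_of_tendsto_of_tendsto h5 hv ?_
      filter_upwards [hx] with n hn
      exact hn.2
  · -- (ii)
    intro t
    have hex : ∀ᶠ n : ℕ in (U : Filter ℕ), ∃ s : ℝ, |s| ≤ 2 * (|t| + b) ∧
        |(n:ℝ) * Real.sin (s / n) - t| ≤ b ∧
        |F t - (Q n s).re| ≤ (n:ℝ) ^ lam * (b / (n * α)) := by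
      filter_upwards [hP', hU (tendsto_natCast_atTop_atTop.eventually (eventually_ge_atTop |t|))]
        with n hn hnt
      obtain ⟨hn1, _, hc, _⟩ := hn
      have hn0 : (0:ℝ) < n := by exact_mod_cast hn1
      have hmem : t / n ∈ Icc (-1:ℝ) 1 := by
        rw [mem_Icc, ← abs_le, abs_div, abs_of_pos hn0, div_le_one hn0]
        exact hnt
      obtain ⟨y, hy, h1, h2⟩ := hc (t / n) hmem
      have hαδ : α * (b / (n * α)) = b / n := by field_simp
      rw [hαδ] at h1
      have hsin : Real.sin ((n:ℝ) * Real.arcsin y / n) = y := by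
        rw [mul_div_cancel_left₀ _ hn0.ne', Real.sin_arcsin hy.1 hy.2]
      have h3 : |(n:ℝ) * y - t| ≤ b := by
        have h4 : (n:ℝ) * y - t = n * (y - t / n) := by field_simp
        rw [h4, abs_mul, abs_of_pos hn0, abs_sub_comm]
        calc (n:ℝ) * |t / n - y| ≤ n * (b / n) := mul_le_mul_of_nonneg_left h1 hn0.le
          _ = b := by field_simp
      refine ⟨n * Real.arcsin y, ?_, ?_, ?_⟩
      · rw [abs_mul, abs_of_pos hn0]
        have h5 := abs_arcsin_le y hy
        have h6 : (n:ℝ) * |y| ≤ |t| + b := by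
          have h9 := abs_sub_abs_le_abs_sub ((n:ℝ) * y) t
          rw [abs_mul, abs_of_pos hn0] at h9
          linarith
        nlinarith
      · rw [hsin]; exact h3
      · have h7 : F t = (n:ℝ) ^ lam * F (t / n) := by
          rw [← hhom _ _ hn0]
          congr 1
          field_simp
        rw [hQreal, Complex.ofReal_re, hsin, h7, ← mul_sub, abs_mul,
          abs_of_nonneg (by positivity : (0:ℝ) ≤ (n:ℝ) ^ lam)]
        exact mul_le_mul_of_nonneg_left h2 (by positivity)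
    set s : ℕ → ℝ := fun n => if h : ∃ s : ℝ, |s| ≤ 2 * (|t| + b) ∧
        |(n:ℝ) * Real.sin (s / n) - t| ≤ b ∧
        |F t - (Q n s).re| ≤ (n:ℝ) ^ lam * (b / (n * α)) then h.choose else 0 with hsdef
    have hs : ∀ᶠ n : ℕ in (U : Filter ℕ), |s n| ≤ 2 * (|t| + b) ∧
        |(n:ℝ) * Real.sin (s n / n) - t| ≤ b ∧
        |F t - (Q n (s n)).re| ≤ (n:ℝ) ^ lam * (b / (n * α)) := by
      filter_upwards [hex] with n hn
      have : s n = hn.choose := by rw [hsdef]; simp only [dif_pos hn]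
      rw [this]
      exact hn.choose_spec
    obtain ⟨s₀, hs₀⟩ := exists_ultralim_real (hs.mono fun n hn => hn.1)
    have hns := tendsto_n_sin hU hs₀
    refine ⟨s₀, ?_, ?_⟩
    · refine le_of_tendsto (hns.sub_const t).abs ?_
      filter_upwards [hs] with n hn
      exact hn.2.1
    · have h5 : Tendsto (fun n => |F t - (Q n (s n)).re|) U (𝓝 |F t - (L s₀).re|) :=
        (tendsto_const_nhds.sub ((Complex.continuous_re.tendsto _).comp
          (hLc (fun n => (s n : ℂ)) s₀ ((Complex.continuous_ofReal.tendsto _).comp hs₀)))).abs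
      refine le_of_tendsto_of_tendsto h5 hv ?_
      filter_upwards [hs] with n hn
      exact hn.2.2

end Pool.Agent.H293.HA
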