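import Pool.Agent.H293.HA.Four
import Pool.Agent.H293.HA.Low

/-!
# Polynomial approximation of `R(n x)` for `R` entire of exponential type less than one
-/

set_option autoImplicit false

open Filter Asymptotics Topology Set

namespace Pool.Agent.H293.HA

lemma sinh_le_mul_exp (η : ℝ) : Real.sinh η ≤ η * Real.exp η := by
  rw [Real.sinh_eq]
  have h1 := Real.add_one_le_exp (-(2 * η))
  have h2 : Real.exp (-η) = Real.exp η * Real.exp (-(2 * η)) := by
    rw [← Real.exp_add]; congr 1; ring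
  have h3 := Real.exp_pos η
  rw [h2]
  nlinarith

lemma abs_im_cos_le (z : ℂ) : |(Complex.cos z).im| ≤ Real.sinh |z.im| := by
  rw [Complex.cos_eq]
  have h1 : ((Complex.cos (z.re:ℂ)) * Complex.cosh (z.im:ℂ) -
      Complex.sin (z.re:ℂ) * Complex.sinh (z.im:ℂ) * Complex.I).im =
      -(Real.sin z.re * Real.sinh z.im) := by
    simp [Complex.sub_im, Complex.mul_im, Complex.mul_re]
    rw [Complex.sin_ofReal_re, Complex.sinh_ofReal_re]
  rw [h1, abs_neg, abs_mul, ← Real.abs_sinh]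
  calc |Real.sin z.re| * |Real.sinh z.im| ≤ 1 * |Real.sinh z.im| :=
        mul_le_mul_of_nonneg_right (Real.abs_sin_le_one _) (abs_nonneg _)
    _ = _ := one_mul _

lemma abs_im_sin_le (z : ℂ) : |(Complex.sin z).im| ≤ Real.sinh |z.im| := by
  have h := abs_im_cos_le (z - (Real.pi / 2 : ℝ))
  have h1 : Complex.cos (z - (Real.pi / 2 : ℝ)) = Complex.sin z := by
    push_cast
    exact Complex.cos_sub_pi_div_two z
  rw [h1] at h
  simpa using h

/-- common estimate: `R ∘ (n W)` in a strip. -/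
lemma strip_bound {R W : ℂ → ℂ} {K σ : ℝ} (hσ0 : 0 < σ)
    (hR : ∀ z, ‖R z‖ ≤ K * (1 + ‖z‖) ^ 2 * Real.exp (σ * |z.im|))
    (hW1 : ∀ z, ‖W z‖ ≤ Real.exp |z.im|) (hW2 : ∀ z, |(W z).im| ≤ Real.sinh |z.im|)
    {n : ℕ} (hn : 1 ≤ n) {η : ℝ} (hη : 0 < η) {z : ℂ} (hz : |z.im| ≤ η) :
    ‖R (n * W z)‖ ≤ 4 * K * n ^ 2 * Real.exp (2 * η) * Real.exp (σ * Real.exp η * η * n) := by
  have hn0 : (1:ℝ) ≤ n := by exact_mod_cast hn
  have hK : 0 ≤ K := by
    have := hR 0
    simp at this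
    exact le_trans (norm_nonneg _) this
  have h1 : ‖(n:ℂ) * W z‖ ≤ n * Real.exp η := by
    rw [norm_mul, Complex.norm_natCast]
    exact mul_le_mul_of_nonneg_left ((hW1 z).trans (Real.exp_le_exp.mpr hz)) (by positivity)
  have h2 : |((n:ℂ) * W z).im| ≤ n * (η * Real.exp η) := by
    have : ((n:ℂ) * W z).im = n * (W z).im := by simp
    rw [this, abs_mul, abs_of_pos (by positivity : (0:ℝ) < n)]
    apply mul_le_mul_of_nonneg_left _ (by positivity)
    refine (hW2 z).trans ((Real.sinh_le_sinh.mpr hz).trans (sinh_le_mul_exp η))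
  have he : 1 ≤ Real.exp η := by
    rw [← Real.exp_zero]; exact Real.exp_le_exp.mpr hη.le
  have h3 : (1 + ‖(n:ℂ) * W z‖) ^ 2 ≤ 4 * n ^ 2 * Real.exp (2 * η) := by
    have h4 : 1 + ‖(n:ℂ) * W z‖ ≤ 2 * (n * Real.exp η) := by nlinarith
    calc (1 + ‖(n:ℂ) * W z‖) ^ 2 ≤ (2 * (n * Real.exp η)) ^ 2 :=
          pow_le_pow_left₀ (by positivity) h4 2
      _ = 4 * n ^ 2 * (Real.exp η * Real.exp η) := by ring
      _ = _ := by rw [← Real.exp_add]; ring_nf
  calc ‖R (n * W z)‖ ≤ K * (1 + ‖(n:ℂ) * W z‖) ^ 2 * Real.exp (σ * |((n:ℂ) * W z).im|) := hR _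
    _ ≤ K * (4 * n ^ 2 * Real.exp (2 * η)) * Real.exp (σ * (n * (η * Real.exp η))) := by
        apply mul_le_mul
        · exact mul_le_mul_of_nonneg_left h3 hK
        · apply Real.exp_le_exp.mpr
          exact mul_le_mul_of_nonneg_left h2 hσ0.le
        · positivity
        · positivity
    _ = _ := by ring_nf

lemma sq_le_exp {κ : ℝ} (hκ : 0 < κ) (n : ℕ) : (n:ℝ) ^ 2 ≤ 2 / κ ^ 2 * Real.exp (κ * n) := by
  have h2 := Real.quadratic_le_exp_of_nonneg (x := κ * n) (by positivity)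
  have h3 : (κ * n) ^ 2 / 2 ≤ Real.exp (κ * n) := by
    have : 0 ≤ κ * n := by positivity
    linarith
  have h4 : (n:ℝ) ^ 2 = 2 / κ ^ 2 * ((κ * n) ^ 2 / 2) := by field_simp
  rw [h4]
  exact mul_le_mul_of_nonneg_left h3 (by positivity)

theorem approx_poly {σ : ℝ} (hσ0 : 0 < σ) (hσ1 : σ < 1) :
    ∃ C κ : ℝ, 0 < C ∧ 0 < κ ∧ ∀ (K : ℝ) (R : ℂ → ℂ), Differentiable ℂ R →
      (∀ z, ‖R z‖ ≤ K * (1 + ‖z‖) ^ 2 * Real.exp (σ * |z.im|)) → ∀ n : ℕ, 1 ≤ n →
      (∃ P : Polynomial ℝ, P.natDegree ≤ n ∧ ∀ x ∈ Icc (-1:ℝ) 1,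
        |P.eval x - (R ((n * x : ℝ) : ℂ)).re| ≤ K * C * Real.exp (-(κ * n))) ∧
      ((∀ z, R (-z) = R z) → ∃ P : Polynomial ℝ, P.natDegree ≤ n ∧ ∀ x ∈ Icc (-1:ℝ) 1,
        |P.eval x - (R ((n * Real.sqrt (1 - x ^ 2) : ℝ) : ℂ)).re| ≤
          K * C * Real.exp (-(κ * n))) := by
  set q : ℝ := (1 + σ) / 2 with hq
  set η : ℝ := Real.log (q / σ) with hη
  have hqσ : 1 < q / σ := by rw [lt_div_iff₀ hσ0]; rw [hq]; linarith
  have hη0 : 0 < η := Real.log_pos hqσ
  have hexp : σ * Real.exp η = q := by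
    rw [hη, Real.exp_log (by linarith)]
    field_simp
  have hq1 : q < 1 := by rw [hq]; linarith
  have hq0 : 0 < q := by rw [hq]; linarith
  set η' : ℝ := (q + 1) / 2 * η with hη'
  have hη'0 : 0 ≤ η' := by positivity
  have hη'1 : η' < η := by rw [hη']; nlinarith
  set κ : ℝ := (1 - q) * η / 4 with hκ
  have hκ0 : 0 < κ := by rw [hκ]; have : 0 < 1 - q := by linarith
                         positivity
  have hcst : 0 ≤ cst (η - η') := tsum_nonneg fun k => (Real.exp_pos _).le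
  set C : ℝ := 4 * Real.exp (2 * η) * (cst (η - η') + 1) * (2 / κ ^ 2) with hC
  have hC0 : 0 < C := by rw [hC]; positivity
  refine ⟨C, κ, hC0, hκ0, ?_⟩
  intro K R hRd hRb n hn
  have hn0 : (1:ℝ) ≤ n := by exact_mod_cast hn
  have hK : 0 ≤ K := by
    have := hRb 0
    simp at this
    exact le_trans (norm_nonneg _) this
  set M : ℝ := 4 * K * n ^ 2 * Real.exp (2 * η) * Real.exp (σ * Real.exp η * η * n) with hM
  have hfin : M * cst (η - η') * Real.exp (-(η' * n)) ≤ K * C * Real.exp (-(κ * n)) := by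
    rw [hM, hexp]
    have h1 : Real.exp (q * η * n) * Real.exp (-(η' * n)) = Real.exp (-(κ * n)) * Real.exp (-(κ * n)) := by
      rw [← Real.exp_add, ← Real.exp_add]
      congr 1
      rw [hη', hκ]; ring
    have h2 := sq_le_exp hκ0 n
    have h3 : (n:ℝ) ^ 2 * Real.exp (-(κ * n)) ≤ 2 / κ ^ 2 := by
      calc (n:ℝ) ^ 2 * Real.exp (-(κ * n)) ≤ 2 / κ ^ 2 * Real.exp (κ * n) * Real.exp (-(κ * n)) :=
            mul_le_mul_of_nonneg_right h2 (Real.exp_pos _).le
        _ = 2 / κ ^ 2 * (Real.exp (κ * n) * Real.exp (-(κ * n))) := by ring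
        _ = 2 / κ ^ 2 := by rw [← Real.exp_add]; simp
    calc 4 * K * n ^ 2 * Real.exp (2 * η) * Real.exp (q * η * n) * cst (η - η') *
          Real.exp (-(η' * n))
        = (4 * K * Real.exp (2 * η) * cst (η - η')) * n ^ 2 *
          (Real.exp (q * η * n) * Real.exp (-(η' * n))) := by ring
      _ = (4 * K * Real.exp (2 * η) * cst (η - η')) * (n ^ 2 * Real.exp (-(κ * n))) *
          Real.exp (-(κ * n)) := by rw [h1]; ring
      _ ≤ (4 * K * Real.exp (2 * η) * (cst (η - η') + 1)) * (2 / κ ^ 2) *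
          Real.exp (-(κ * n)) := by
            gcongr
            linarith
      _ = K * C * Real.exp (-(κ * n)) := by rw [hC]; ring
  constructor
  · obtain ⟨P, hP, hPe⟩ := fourier_approx (G := fun z => R (n * Complex.cos z))
      (hRd.comp (Complex.differentiable_cos.const_mul _))
      (fun z => by
        show R (n * Complex.cos (z + 2 * Real.pi)) = R (n * Complex.cos z)
        rw [Complex.cos_add_two_pi])
      (fun z => by
        show R (n * Complex.cos (-z)) = R (n * Complex.cos z)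
        rw [Complex.cos_neg]) hη0 hη'1 hη'0
      (M := M) (fun z hz => strip_bound hσ0 hRb norm_cos_le abs_im_cos_le hn hη0 hz) n
    refine ⟨P, hP, fun x hx => ?_⟩
    have h := hPe (Real.arccos x)
    rw [Real.cos_arccos hx.1 hx.2] at h
    refine le_trans ?_ (h.trans hfin)
    rw [← Complex.ofReal_cos, Real.cos_arccos hx.1 hx.2]
    push_cast
    exact le_rfl
  · intro heven
    obtain ⟨P, hP, hPe⟩ := fourier_approx (G := fun z => R (n * Complex.sin z))
      (hRd.comp (Complex.differentiable_sin.const_mul _))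
      (fun z => by
        show R (n * Complex.sin (z + 2 * Real.pi)) = R (n * Complex.sin z)
        rw [Complex.sin_add_two_pi])
      (fun z => by
        show R (n * Complex.sin (-z)) = R (n * Complex.sin z)
        rw [Complex.sin_neg, mul_neg, heven]) hη0 hη'1 hη'0
      (M := M) (fun z hz => strip_bound hσ0 hRb norm_sin_le abs_im_sin_le hn hη0 hz) n
    refine ⟨P, hP, fun x hx => ?_⟩
    have h := hPe (Real.arccos x)
    rw [Real.cos_arccos hx.1 hx.2] at h
    refine le_trans ?_ (h.trans hfin)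
    rw [← Complex.ofReal_sin, Real.sin_arccos]
    push_cast
    exact le_rfl

end Pool.Agent.H293.HA
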