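import Pool.Agent.H293.HA.NE

/-!
# The asymptotic formulas
-/

set_option autoImplicit false

open Filter Asymptotics Topology Set MeasureTheory

namespace Pool.Agent.H293.HA

lemma exists_ultra {p : ℕ → Prop} (h : ¬ ∀ᶠ n in atTop, ¬ p n) :
    ∃ U : Ultrafilter ℕ, (U : Filter ℕ) ≤ atTop ∧ ∀ᶠ n in (U : Filter ℕ), p n := by
  have h1 : ∃ᶠ n in atTop, n ∈ {n | p n} := h
  rw [frequently_mem_iff_neBot] at h1
  refine ⟨@Ultrafilter.of _ (atTop ⊓ 𝓟 {n | p n}) h1, ?_, ?_⟩
  · exact (@Ultrafilter.of_le _ (atTop ⊓ 𝓟 {n | p n}) h1).trans inf_le_left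
  · have h2 := (@Ultrafilter.of_le _ (atTop ⊓ 𝓟 {n | p n}) h1).trans inf_le_right
    exact h2 (mem_principal_self _)

/-- abstract squeeze: `w n * E n → sInf S` -/
lemma squeeze {S : Set ℝ} (hS : S.Nonempty) (hpos : ∀ b ∈ S, 0 < b) {E w : ℕ → ℝ}
    (hE : ∀ n, 0 ≤ E n) (hw : ∀ᶠ n in atTop, 0 < w n)
    (hup : ∀ s ∈ S, ∀ b, s < b → ∀ᶠ n in atTop, E n ≤ b / w n)
    (hlow : ∀ b, 0 < b → (¬ ∀ᶠ n in atTop, ¬ E n < b / w n) → b ∈ S) :
    Tendsto (fun n => w n * E n) atTop (𝓝 (sInf S)) := by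
  have hbdd : BddBelow S := ⟨0, fun b hb => (hpos b hb).le⟩
  rw [tendsto_order]
  constructor
  · intro b hb
    rcases le_or_gt b 0 with hb0 | hb0
    · -- choose a positive number below the infimum when possible
      by_cases h0 : b < 0
      · filter_upwards [hw] with n hn
        exact lt_of_lt_of_le h0 (mul_nonneg hn.le (hE n))
      · have hb00 : b = 0 := le_antisymm hb0 (not_lt.1 h0)
        subst hb00
        set b' := sInf S / 2 with hb'
        have h1 : 0 < b' := by rw [hb']; linarith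
        have h2 : b' < sInf S := by rw [hb']; linarith
        by_contra hcon
        have h3 : b' ∈ S := by
          apply hlow b' h1
          intro h4
          apply hcon
          filter_upwards [h4, hw] with n hn hwn
          have h5 : b' / w n ≤ E n := not_lt.1 hn
          rw [div_le_iff₀ hwn] at h5
          nlinarith
        exact absurd (csInf_le hbdd h3) (not_le.2 h2)
    · obtain ⟨b', hb'1, hb'2⟩ := exists_between hb
      by_contra hcon
      have h3 : b' ∈ S := by
        apply hlow b' (hb0.trans hb'1)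
        intro h4
        apply hcon
        filter_upwards [h4, hw] with n hn hwn
        have h5 : b' / w n ≤ E n := not_lt.1 hn
        rw [div_le_iff₀ hwn] at h5
        linarith
      exact absurd (csInf_le hbdd h3) (not_le.2 hb'2)
  · intro b hb
    obtain ⟨b', hb'1, hb'2⟩ := exists_between hb
    obtain ⟨s, hs, hsb⟩ := exists_lt_of_csInf_lt hS hb'1
    filter_upwards [hup s hs b' hsb, hw] with n hn hwn
    rw [le_div_iff₀ hwn] at hn
    linarith

variable {lam ϵ : ℝ} {F : ℝ → ℝ}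

lemma sInf_pos' {S : Set ℝ} (hS : S.Nonempty) {c₀ : ℝ} (hc₀ : 0 < c₀) (h : ∀ c ∈ S, c₀ ≤ c) :
    0 < sInf S := lt_of_lt_of_le hc₀ (le_csInf hS h)

theorem asympA (h : PT lam ϵ F) (h0 : 0 < lam) (h1 : lam < 1) {α : ℝ} (hα : 0 < α)
    (hne : ∃ c : ℝ, 0 < c ∧ ∃ Q, Feas F c 0 Q) :
    0 < sInf {c : ℝ | 0 < c ∧ ∃ Q, Feas F c 0 Q} ∧
    Tendsto (fun n : ℕ => (n * α) * bestE n α F) atTop
      (𝓝 (sInf {c : ℝ | 0 < c ∧ ∃ Q, Feas F c 0 Q})) := by
  obtain ⟨c₀, hc₀, hpos⟩ := posA h h0 h1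
  have hSne : {c : ℝ | 0 < c ∧ ∃ Q, Feas F c 0 Q}.Nonempty := hne
  refine ⟨sInf_pos' hSne hc₀ (fun c hc => ?_), ?_⟩
  · obtain ⟨hc1, Q, hQ⟩ := hc
    exact hpos c hc1 Q hQ
  apply squeeze hSne (fun b hb => hb.1) (fun n => bestE_nonneg n α F)
  · filter_upwards [eventually_ge_atTop 1] with n hn
    have : (0:ℝ) < n := by exact_mod_cast hn
    positivity
  · rintro c ⟨hc, Q, hQ⟩ b hcb
    have hb : 0 < b := hc.trans hcb
    have hup := upperA h h0 h1.le (α := α) (b := b) (c := c) (v := 0) (c₁ := b / (2 * α))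
      (σ := c / b) hα hc le_rfl (by positivity) (by positivity) (by rw [div_lt_one hb]; exact hcb)
      (by
        have : c / (c / b) = b := by field_simp
        rw [this]) (by
        filter_upwards [eventually_ge_atTop 1] with n hn
        have hn0 : (0:ℝ) < n := by exact_mod_cast hn
        rw [mul_zero, zero_add, Real.rpow_sub hn0, Real.rpow_one]
        apply le_of_eq
        field_simp) hQ
    filter_upwards [hup] with n hn
    obtain ⟨P, hP, hcl⟩ := hn
    exact bestE_le hα hP hcl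
  · intro b hb hfreq
    obtain ⟨U, hU, hUp⟩ := exists_ultra hfreq
    refine ⟨hb, ?_⟩
    apply lowerA U hU h.1 (fun a t ha => h.hom ha t) (fun t => (h.abs_eq t).le) h0 h1.le hb hα
    · have e1 : Tendsto (fun x : ℝ => x ^ (-(1 - lam)) * (b / α)) atTop (𝓝 (0 * (b / α))) :=
        (tendsto_rpow_neg_atTop (by linarith)).mul_const _
      rw [zero_mul] at e1
      refine ((e1.comp tendsto_natCast_atTop_atTop).mono_left hU).congr' ?_
      filter_upwards [hU (eventually_ge_atTop 1)] with n hn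
      have hn0 : (0:ℝ) < n := by exact_mod_cast hn
      simp only [Function.comp]
      rw [neg_sub, Real.rpow_sub hn0, Real.rpow_one]
      field_simp
    · filter_upwards [hUp] with n hn
      exact exists_close hα h.1.continuousOn hn

theorem asymp1 (h : PT 1 1 F) {α : ℝ} (hα : 0 < α) :
    0 < sInf {v : ℝ | 0 < v ∧ ∃ Q, Feas F (α * v) v Q} ∧
    Tendsto (fun n : ℕ => (n:ℝ) * bestE n α F) atTop
      (𝓝 (sInf {v : ℝ | 0 < v ∧ ∃ Q, Feas F (α * v) v Q})) := by
  obtain ⟨c₀, hc₀, hpos⟩ := pos1 hα h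
  have hSne : {v : ℝ | 0 < v ∧ ∃ Q, Feas F (α * v) v Q}.Nonempty := by
    obtain ⟨c, hc, Q, hQ1, hQ2, hQ3, hQ4⟩ := ne_even h one_pos le_rfl
    refine ⟨c / α, by positivity, Q, hQ1, hQ2, ?_, ?_⟩
    · intro s
      obtain ⟨t, ht1, ht2⟩ := hQ3 s
      refine ⟨t, ?_, ht2.trans (by positivity)⟩
      rw [mul_div_cancel₀ _ hα.ne']
      exact ht1
    · intro t
      obtain ⟨s, hs1, hs2⟩ := hQ4 t
      refine ⟨s, ?_, hs2.trans (by positivity)⟩
      rw [mul_div_cancel₀ _ hα.ne']
      exact hs1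
  refine ⟨sInf_pos' hSne (c₀ := c₀ / α) (by positivity) (fun v hv => ?_), ?_⟩
  · obtain ⟨hv1, Q, hQ⟩ := hv
    rw [div_le_iff₀ hα, mul_comm]
    apply hpos (α * v) (by positivity) Q
    rw [mul_div_cancel_left₀ _ hα.ne']
    exact hQ
  apply squeeze hSne (fun b hb => hb.1) (fun n => bestE_nonneg n α F)
  · filter_upwards [eventually_ge_atTop 1] with n hn
    exact_mod_cast hn
  · rintro v ⟨hv, Q, hQ⟩ b hvb
    have hb : 0 < b := hv.trans hvb
    set σ := (v / b + 1) / 2 with hσ
    have hvb1 : v / b < 1 := by rw [div_lt_one hb]; exact hvb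
    have hvb0 : 0 < v / b := by positivity
    have hσ0 : 0 < σ := by rw [hσ]; linarith
    have hσ1 : σ < 1 := by rw [hσ]; linarith
    have hσ2 : v / b < σ := by rw [hσ]; linarith
    have hσ3 : v / σ < b := by
      rw [div_lt_iff₀ hσ0]
      rw [div_lt_iff₀ hb] at hσ2
      linarith
    have hup := upperA h one_pos le_rfl (α := α) (b := α * b) (c := α * v) (v := v)
      (c₁ := (b - v / σ) / 2)
      (σ := σ) hα (by positivity) hv.le (by linarith) hσ0 hσ1
      (by
        rw [mul_div_assoc]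
        exact mul_le_mul_of_nonneg_left hσ3.le hα.le) (by
        filter_upwards [eventually_ge_atTop 1] with n hn
        have hn0 : (0:ℝ) < n := by exact_mod_cast hn
        rw [sub_self, Real.rpow_zero, Real.rpow_one, Real.rpow_neg_one]
        apply le_of_eq
        field_simp
        ring) hQ
    filter_upwards [hup, eventually_ge_atTop 1] with n hn hn1
    have hn0 : (0:ℝ) < n := by exact_mod_cast hn1
    obtain ⟨P, hP, hcl⟩ := hn
    have e1 := bestE_le hα hP hcl
    have e2 : α * b / (n * α) = b / n := by field_simp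
    rwa [e2] at e1
  · intro b hb hfreq
    obtain ⟨U, hU, hUp⟩ := exists_ultra hfreq
    refine ⟨hb, ?_⟩
    apply lowerA U hU h.1 (fun a t ha => h.hom ha t) (fun t => (h.abs_eq t).le) one_pos le_rfl
      (by positivity : 0 < α * b) hα
    · refine tendsto_const_nhds.congr' ?_
      filter_upwards [hU (eventually_ge_atTop 1)] with n hn
      have hn0 : (0:ℝ) < n := by exact_mod_cast hn
      rw [Real.rpow_one]
      field_simp
    · filter_upwards [hUp, hU (eventually_ge_atTop 1)] with n hn hn1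
      have hn0 : (0:ℝ) < n := by exact_mod_cast hn1
      apply exists_close hα h.1.continuousOn
      have e2 : α * b / (n * α) = b / n := by field_simp
      rw [e2]
      exact hn

theorem asympT (h0 : 0 < lam) (h1 : lam < 1) {α : ℝ} (hα : 0 < α) :
    0 < sInf {c : ℝ | 0 < c ∧ ∃ Q, FeasT lam c Q} ∧
    Tendsto (fun n : ℕ => (2 * (n:ℝ) ^ 2 * α) * bestE n α (fun x => (1 - x ^ 2) ^ lam)) atTop
      (𝓝 (sInf {c : ℝ | 0 < c ∧ ∃ Q, FeasT lam c Q})) := by
  obtain ⟨c₀, hc₀, hpos⟩ := posT h0 h1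
  have hSne : {c : ℝ | 0 < c ∧ ∃ Q, FeasT lam c Q}.Nonempty := neT h0 h1
  have hcont : Continuous (fun x : ℝ => (1 - x ^ 2) ^ lam) :=
    (continuous_const.sub (continuous_pow 2)).rpow_const (fun _ => Or.inr h0.le)
  refine ⟨sInf_pos' hSne hc₀ (fun c hc => ?_), ?_⟩
  · obtain ⟨hc1, Q, hQ⟩ := hc
    exact hpos c hc1 Q hQ
  apply squeeze hSne (fun b hb => hb.1) (fun n => bestE_nonneg n α _)
  · filter_upwards [eventually_ge_atTop 1] with n hn
    have : (0:ℝ) < n := by exact_mod_cast hn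
    positivity
  · rintro c ⟨hc, Q, hQ⟩ b hcb
    have hb : 0 < b := hc.trans hcb
    have hcb1 : c / b < 1 := by rw [div_lt_one hb]; exact hcb
    have hcb0 : 0 < c / b := by positivity
    set r := Real.sqrt (c / b) with hr
    have hr0 : 0 < r := Real.sqrt_pos.2 hcb0
    have hrsq : r ^ 2 = c / b := Real.sq_sqrt hcb0.le
    have hr1 : r < 1 := by nlinarith
    have hσ0 : 0 < Real.sqrt r := Real.sqrt_pos.2 hr0
    have hσsq : Real.sqrt r ^ 2 = r := Real.sq_sqrt hr0.le
    have hσ1 : Real.sqrt r < 1 := by nlinarith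
    have hη0 : 0 < Real.sqrt (1 - c / b) := Real.sqrt_pos.2 (by linarith)
    have hηsq : Real.sqrt (1 - c / b) ^ 2 = 1 - c / b := Real.sq_sqrt (by linarith)
    have hη1 : Real.sqrt (1 - c / b) < 1 := by nlinarith
    have hup := upperT h0 h1 (α := α) (b := b) (c := c) (σ := Real.sqrt r)
      (η := Real.sqrt (1 - c / b)) hα hb hc hσ0 hσ1 hη0 hη1 (by
        rw [hηsq, hσsq, show 1 - (1 - c / b) = c / b by ring, ← hr, div_le_iff₀ hr0]
        have : b * r * r = b * r ^ 2 := by ring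
        rw [this, hrsq]
        apply le_of_eq
        field_simp) hQ
    filter_upwards [hup] with n hn
    obtain ⟨P, hP, hcl⟩ := hn
    exact bestE_le hα hP hcl
  · intro b hb hfreq
    obtain ⟨U, hU, hUp⟩ := exists_ultra hfreq
    refine ⟨hb, ?_⟩
    apply lowerT U hU h0 h1 hb hα
    filter_upwards [hUp] with n hn
    exact exists_close hα hcont.continuousOn hn

end Pool.Agent.H293.HA
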