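import Pool.Agent.H293.HA.Asym

/-!
# The extremal constants are attained
-/

set_option autoImplicit false

open Filter Asymptotics Topology Set MeasureTheory

namespace Pool.Agent.H293.HA

variable {lam ϵ : ℝ} {F : ℝ → ℝ}

theorem attA (h : PT lam ϵ F) (h0 : 0 < lam) (h1 : lam ≤ 1) {b v : ℕ → ℝ} {b₀ v₀ : ℝ}
    (hb : Tendsto b atTop (𝓝 b₀)) (hv : Tendsto v atTop (𝓝 v₀)) (hbpos : ∀ k, 0 < b k)
    (hvpos : ∀ k, 0 ≤ v k) {Q : ℕ → ℂ → ℂ} (hQ : ∀ k, Feas F (b k) (v k) (Q k)) :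
    ∃ L, Feas F b₀ v₀ L := by
  set U : Ultrafilter ℕ := Ultrafilter.of atTop with hUdef
  have hU : (U : Filter ℕ) ≤ atTop := Ultrafilter.of_le atTop
  set A := 2 * (1 + (v₀ + 1) + 2 * (b₀ + 1) ^ lam) with hA
  have hb1 : ∀ᶠ k in (U : Filter ℕ), b k ≤ b₀ + 1 :=
    hU ((hb.eventually (gt_mem_nhds (by linarith : b₀ < b₀ + 1))).mono fun k hk => hk.le)
  have hv1 : ∀ᶠ k in (U : Filter ℕ), v k ≤ v₀ + 1 :=
    hU ((hv.eventually (gt_mem_nhds (by linarith : v₀ < v₀ + 1))).mono fun k hk => hk.le)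
  have hall : ∀ᶠ k in (U : Filter ℕ), Differentiable ℂ (Q k) ∧
      ∀ z, ‖Q k z‖ ≤ A * (1 + ‖z‖) ^ 2 * Real.exp |z.im| := by
    filter_upwards [hb1, hv1] with k hk1 hk2
    refine ⟨(hQ k).1.1, fun z => ?_⟩
    refine (Feas.grow h h0 h1 (hbpos k) (hvpos k) (hQ k) z).trans ?_
    have e1 : (b k) ^ lam ≤ (b₀ + 1) ^ lam := Real.rpow_le_rpow (hbpos k).le hk1 h0.le
    have e2 : 2 * (1 + v k + 2 * (b k) ^ lam) ≤ A := by rw [hA]; linarith
    gcongr
  obtain ⟨L, hLd, hLb, hLc⟩ := exists_limit U Q A hall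
  have hbU := hb.mono_left hU
  have hvU := hv.mono_left hU
  refine ⟨L, expType_of_bound hLd hLb, ?_, ?_, ?_⟩
  · intro x
    have e1 : Tendsto (fun n => (Q n x).im) U (𝓝 (L x).im) :=
      (Complex.continuous_im.tendsto _).comp (hLc (fun _ => (x:ℂ)) x tendsto_const_nhds)
    have e2 : (fun n => (Q n x).im) = fun _ => 0 := funext fun n => (hQ n).2.1 x
    rw [e2] at e1
    exact (tendsto_nhds_unique e1 tendsto_const_nhds)
  · intro s
    choose t ht1 ht2 using fun k => (hQ k).2.2.1 s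
    have hbd : ∀ᶠ k in (U : Filter ℕ), |t k| ≤ |s| + (b₀ + 1) := by
      filter_upwards [hb1] with k hk
      have e1 := abs_sub_abs_le_abs_sub (t k) s
      rw [abs_sub_comm] at e1
      have := ht1 k
      linarith
    obtain ⟨t₀, ht₀⟩ := exists_ultralim_real hbd
    refine ⟨t₀, ?_, ?_⟩
    · exact le_of_tendsto_of_tendsto (tendsto_const_nhds.sub ht₀).abs hbU
        (Filter.Eventually.of_forall ht1)
    · have e1 : Tendsto (fun n => |F (t n) - (Q n s).re|) U (𝓝 |F t₀ - (L s).re|) :=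
        (((h.1.tendsto t₀).comp ht₀).sub ((Complex.continuous_re.tendsto _).comp
          (hLc (fun _ => (s:ℂ)) s tendsto_const_nhds))).abs
      exact le_of_tendsto_of_tendsto e1 hvU (Filter.Eventually.of_forall ht2)
  · intro t
    choose s hs1 hs2 using fun k => (hQ k).2.2.2 t
    have hbd : ∀ᶠ k in (U : Filter ℕ), |s k| ≤ |t| + (b₀ + 1) := by
      filter_upwards [hb1] with k hk
      have e1 := abs_sub_abs_le_abs_sub (s k) t
      have := hs1 k
      linarith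
    obtain ⟨s₀, hs₀⟩ := exists_ultralim_real hbd
    refine ⟨s₀, ?_, ?_⟩
    · exact le_of_tendsto_of_tendsto (hs₀.sub tendsto_const_nhds).abs hbU
        (Filter.Eventually.of_forall hs1)
    · have e1 : Tendsto (fun n => |F t - (Q n (s n)).re|) U (𝓝 |F t - (L s₀).re|) :=
        (tendsto_const_nhds.sub ((Complex.continuous_re.tendsto _).comp
          (hLc (fun n => (s n : ℂ)) s₀ ((Complex.continuous_ofReal.tendsto _).comp hs₀)))).abs
      exact le_of_tendsto_of_tendsto e1 hvU (Filter.Eventually.of_forall hs2)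

theorem attT (h0 : 0 < lam) (h1 : lam < 1) {b : ℕ → ℝ} {b₀ : ℝ}
    (hb : Tendsto b atTop (𝓝 b₀)) (hbpos : ∀ k, 0 < b k)
    {Q : ℕ → ℂ → ℂ} (hQ : ∀ k, FeasT lam (b k) (Q k)) :
    ∃ L, FeasT lam b₀ L := by
  set U : Ultrafilter ℕ := Ultrafilter.of atTop with hUdef
  have hU : (U : Filter ℕ) ≤ atTop := Ultrafilter.of_le atTop
  set A := 2 * (2 + (b₀ + 1)) with hA
  have hb1 : ∀ᶠ k in (U : Filter ℕ), b k ≤ b₀ + 1 :=
    hU ((hb.eventually (gt_mem_nhds (by linarith : b₀ < b₀ + 1))).mono fun k hk => hk.le)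
  have hall : ∀ᶠ k in (U : Filter ℕ), Differentiable ℂ (Q k) ∧
      ∀ z, ‖Q k z‖ ≤ A * (1 + ‖z‖) ^ 2 * Real.exp |z.im| := by
    filter_upwards [hb1] with k hk1
    refine ⟨(hQ k).1.1, fun z => ?_⟩
    refine (FeasT.grow h0 h1 (hbpos k) (hQ k) z).trans ?_
    have e2 : 2 * (2 + b k) ≤ A := by rw [hA]; linarith
    gcongr
  obtain ⟨L, hLd, hLb, hLc⟩ := exists_limit U Q A hall
  have hbU := hb.mono_left hU
  have hFc : Continuous (fun t : ℝ => (t ^ 2) ^ lam) :=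
    (continuous_pow 2).rpow_const (fun _ => Or.inr h0.le)
  have habs : ∀ x y c : ℝ, |x ^ 2 - y ^ 2| ≤ c → |y| ≤ |x| + (c + 1) := by
    intro x y c hxy
    rw [abs_le] at hxy
    have e1 : 0 ≤ c := by linarith [hxy.1, hxy.2]
    have e2 : |y| ^ 2 ≤ (|x| + (c + 1)) ^ 2 := by
      rw [sq_abs]
      have := abs_nonneg x
      nlinarith [sq_abs x]
    exact abs_le_of_sq_le_sq' e2 (by positivity) |>.2
  refine ⟨L, expType_of_bound hLd hLb, ?_, ?_, ?_, ?_⟩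
  · intro z
    have e1 := hLc (fun _ => z) z tendsto_const_nhds
    have e2 := hLc (fun _ => -z) (-z) tendsto_const_nhds
    have e3 : (fun n => Q n (-z)) = fun n => Q n z := funext fun n => (hQ n).2.1 z
    rw [e3] at e2
    exact tendsto_nhds_unique e2 e1
  · intro x
    have e1 : Tendsto (fun n => (Q n x).im) U (𝓝 (L x).im) :=
      (Complex.continuous_im.tendsto _).comp (hLc (fun _ => (x:ℂ)) x tendsto_const_nhds)
    have e2 : (fun n => (Q n x).im) = fun _ => 0 := funext fun n => (hQ n).2.2.1 x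
    rw [e2] at e1
    exact (tendsto_nhds_unique e1 tendsto_const_nhds)
  · intro s
    choose t ht1 ht2 using fun k => (hQ k).2.2.2.1 s
    have hbd : ∀ᶠ k in (U : Filter ℕ), |t k| ≤ |s| + (b₀ + 1 + 1) := by
      filter_upwards [hb1] with k hk
      exact habs s (t k) (b₀ + 1) ((ht1 k).trans hk)
    obtain ⟨t₀, ht₀⟩ := exists_ultralim_real hbd
    refine ⟨t₀, ?_, ?_⟩
    · exact le_of_tendsto_of_tendsto (tendsto_const_nhds.sub (ht₀.pow 2)).abs hbU
        (Filter.Eventually.of_forall ht1)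
    · have e1 : Tendsto (fun n => (t n ^ 2) ^ lam) U (𝓝 ((t₀ ^ 2) ^ lam)) :=
        (hFc.tendsto t₀).comp ht₀
      have e2 : Tendsto (fun n => (Q n s).re) U (𝓝 (L s).re) :=
        (Complex.continuous_re.tendsto _).comp (hLc (fun _ => (s:ℂ)) s tendsto_const_nhds)
      have e3 : (fun n => (Q n s).re) = fun n => (t n ^ 2) ^ lam := funext ht2
      rw [e3] at e2
      exact tendsto_nhds_unique e2 e1
  · intro t
    choose s hs1 hs2 using fun k => (hQ k).2.2.2.2 t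
    have hbd : ∀ᶠ k in (U : Filter ℕ), |s k| ≤ |t| + (b₀ + 1 + 1) := by
      filter_upwards [hb1] with k hk
      apply habs t (s k) (b₀ + 1)
      rw [abs_sub_comm]
      exact (hs1 k).trans hk
    obtain ⟨s₀, hs₀⟩ := exists_ultralim_real hbd
    refine ⟨s₀, ?_, ?_⟩
    · exact le_of_tendsto_of_tendsto ((hs₀.pow 2).sub tendsto_const_nhds).abs hbU
        (Filter.Eventually.of_forall hs1)
    · have e2 : Tendsto (fun n => (Q n (s n)).re) U (𝓝 (L s₀).re) :=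
        (Complex.continuous_re.tendsto _).comp
          (hLc (fun n => (s n : ℂ)) s₀ ((Complex.continuous_ofReal.tendsto _).comp hs₀))
      have e3 : (fun n => (Q n (s n)).re) = fun n => (t ^ 2) ^ lam := funext hs2
      rw [e3] at e2
      exact tendsto_nhds_unique e2 tendsto_const_nhds

/-- a sequence in `S` converging to `sInf S` -/
lemma seq_inf {S : Set ℝ} (hS : S.Nonempty) (hb : BddBelow S) :
    ∃ b : ℕ → ℝ, (∀ k, b k ∈ S) ∧ Tendsto b atTop (𝓝 (sInf S)) := by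
  have h1 : ∀ k : ℕ, ∃ b ∈ S, b < sInf S + 1 / ((k:ℝ) + 1) := fun k =>
    exists_lt_of_csInf_lt hS (by
      have : 0 < 1 / ((k:ℝ) + 1) := by positivity
      linarith)
  choose b hbS hblt using h1
  refine ⟨b, hbS, ?_⟩
  have h2 : Tendsto (fun k : ℕ => sInf S + 1 / ((k:ℝ) + 1)) atTop (𝓝 (sInf S)) := by
    have := tendsto_one_div_add_atTop_nhds_zero_nat (𝕜 := ℝ)
    simpa using this.const_add (sInf S)
  exact tendsto_of_tendsto_of_tendsto_of_le_of_le tendsto_const_nhds h2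
    (fun k => csInf_le hb (hbS k)) (fun k => (hblt k).le)

theorem leastA (h : PT lam ϵ F) (h0 : 0 < lam) (h1 : lam < 1)
    (hne : ∃ c : ℝ, 0 < c ∧ ∃ Q, Feas F c 0 Q) :
    IsLeast {c : ℝ | 0 < c ∧ ∃ Q, Feas F c 0 Q} (sInf {c : ℝ | 0 < c ∧ ∃ Q, Feas F c 0 Q}) := by
  set S := {c : ℝ | 0 < c ∧ ∃ Q, Feas F c 0 Q} with hS
  have hSne : S.Nonempty := hne
  have hbdd : BddBelow S := ⟨0, fun b hb => hb.1.le⟩
  obtain ⟨c₀, hc₀, hpos⟩ := posA h h0 h1
  have hp : 0 < sInf S := sInf_pos' hSne hc₀ (fun c hc => by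
    obtain ⟨hc1, Q, hQ⟩ := hc
    exact hpos c hc1 Q hQ)
  obtain ⟨b, hbS, hbl⟩ := seq_inf hSne hbdd
  choose hb1 Q hQ using hbS
  obtain ⟨L, hL⟩ := attA h h0 h1.le hbl (tendsto_const_nhds (x := (0:ℝ))) hb1
    (fun _ => le_rfl) hQ
  exact ⟨⟨hp, L, hL⟩, fun c hc => csInf_le hbdd hc⟩

theorem least1 (h : PT 1 1 F) {α : ℝ} (hα : 0 < α) :
    IsLeast {v : ℝ | 0 < v ∧ ∃ Q, Feas F (α * v) v Q}
      (sInf {v : ℝ | 0 < v ∧ ∃ Q, Feas F (α * v) v Q}) := by
  set S := {v : ℝ | 0 < v ∧ ∃ Q, Feas F (α * v) v Q} with hS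
  have hp : 0 < sInf S := (asymp1 h hα).1
  have hSne : S.Nonempty := by
    by_contra hcon
    rw [Set.not_nonempty_iff_eq_empty] at hcon
    rw [hcon, Real.sInf_empty] at hp
    exact lt_irrefl _ hp
  have hbdd : BddBelow S := ⟨0, fun b hb => hb.1.le⟩
  obtain ⟨b, hbS, hbl⟩ := seq_inf hSne hbdd
  choose hb1 Q hQ using hbS
  obtain ⟨L, hL⟩ := attA h one_pos le_rfl (hbl.const_mul α) hbl
    (fun k => mul_pos hα (hb1 k)) (fun k => (hb1 k).le) hQ
  exact ⟨⟨hp, L, hL⟩, fun c hc => csInf_le hbdd hc⟩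

theorem leastT (h0 : 0 < lam) (h1 : lam < 1) :
    IsLeast {c : ℝ | 0 < c ∧ ∃ Q, FeasT lam c Q} (sInf {c : ℝ | 0 < c ∧ ∃ Q, FeasT lam c Q}) := by
  set S := {c : ℝ | 0 < c ∧ ∃ Q, FeasT lam c Q} with hS
  have hp : 0 < sInf S := (asympT h0 h1 one_pos).1
  have hSne : S.Nonempty := neT h0 h1
  have hbdd : BddBelow S := ⟨0, fun b hb => hb.1.le⟩
  obtain ⟨b, hbS, hbl⟩ := seq_inf hSne hbdd
  choose hb1 Q hQ using hbS
  obtain ⟨L, hL⟩ := attT h0 h1 hbl hb1 hQ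
  exact ⟨⟨hp, L, hL⟩, fun c hc => csInf_le hbdd hc⟩

end Pool.Agent.H293.HA
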