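import Pool.Agent.H293.HA.Kern

/-!
# Band limited approximation of power type functions
-/

set_option autoImplicit false

open Filter Asymptotics Topology Set MeasureTheory

namespace Pool.Agent.H293.HA

/-- `F` is `t^μ` on `[0,∞)` and is extended to an even (`ϵ=1`) or odd (`ϵ=-1`) function -/
def PT (μ ϵ : ℝ) (F : ℝ → ℝ) : Prop :=
  Continuous F ∧ (∀ t, 0 ≤ t → F t = t ^ μ) ∧ (∀ t, F (-t) = ϵ * F t) ∧ (ϵ = 1 ∨ ϵ = -1)

variable {μ ϵ : ℝ} {F : ℝ → ℝ}

lemma PT.abs_eq (h : PT μ ϵ F) (t : ℝ) : |F t| = |t| ^ μ := by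
  rcases le_total 0 t with ht | ht
  · rw [h.2.1 t ht, abs_of_nonneg (Real.rpow_nonneg ht _), abs_of_nonneg ht]
  · have h1 := h.2.2.1 (-t)
    rw [neg_neg] at h1
    rw [h1, abs_mul, h.2.1 (-t) (by linarith), abs_of_nonpos ht,
      abs_of_nonneg (Real.rpow_nonneg (by linarith) _)]
    rcases h.2.2.2 with h2 | h2 <;> rw [h2] <;> simp

lemma PT.hom (h : PT μ ϵ F) {a : ℝ} (ha : 0 < a) (t : ℝ) : F (a * t) = a ^ μ * F t := by
  rcases le_total 0 t with ht | ht
  · rw [h.2.1 t ht, h.2.1 _ (by positivity), Real.mul_rpow ha.le ht]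
  · have h1 := h.2.2.1 (-t)
    have h2 := h.2.2.1 (a * (-t))
    have h3 : 0 ≤ -t := by linarith
    rw [neg_neg] at h1
    rw [show -(a * -t) = a * t by ring] at h2
    rw [h1, h2, h.2.1 (-t) h3, h.2.1 _ (by positivity), Real.mul_rpow ha.le h3]
    ring

lemma PT.grow (h : PT μ ϵ F) (h0 : 0 < μ) (h2 : μ < 2) : Grow F := by
  refine ⟨h.1, fun t => ?_⟩
  rw [h.abs_eq]
  have h3 := abs_nonneg t
  calc |t| ^ μ ≤ (1 + |t|) ^ μ := Real.rpow_le_rpow h3 (by linarith) h0.le
    _ ≤ (1 + |t|) ^ (2:ℝ) := Real.rpow_le_rpow_of_exponent_le (by linarith) h2.le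
    _ = (1 + |t|) ^ 2 := by norm_cast

lemma G_lim (μ : ℝ) : Tendsto (fun x : ℝ => ((1 - x) ^ μ - 1 + μ * x) / x ^ 2) (𝓝[≠] 0)
    (𝓝 (μ * (μ - 1) / 2)) := by
  have hd : ∀ (p x : ℝ), x < 1 → HasDerivAt (fun x : ℝ => (1 - x) ^ p) (-1 * p * (1 - x) ^ (p - 1)) x := by
    intro p x hx
    have h1 : HasDerivAt (fun x : ℝ => 1 - x) (-1) x := by
      simpa using (hasDerivAt_id x).const_sub 1
    exact h1.rpow_const (Or.inl (by linarith))
  have hlt : ∀ᶠ x : ℝ in 𝓝[≠] 0, x < 1 :=
    (gt_mem_nhds one_pos).filter_mono nhdsWithin_le_nhds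
  apply HasDerivAt.lhopital_zero_nhdsNE (f' := fun x => -1 * μ * (1 - x) ^ (μ - 1) + μ)
    (g' := fun x => 2 * x)
  · filter_upwards [hlt] with x hx
    have h2 : HasDerivAt (fun x : ℝ => μ * x) μ x := by
      simpa using (hasDerivAt_id x).const_mul μ
    exact ((hd μ x hx).sub_const 1).add h2
  · refine Filter.Eventually.of_forall fun x => ?_
    have := hasDerivAt_pow 2 x
    simpa using this
  · filter_upwards [self_mem_nhdsWithin] with x hx
    exact mul_ne_zero two_ne_zero hx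
  · have hc : ContinuousAt (fun x : ℝ => (1 - x) ^ μ - 1 + μ * x) 0 := by
      have h3 := (hd μ 0 one_pos).continuousAt
      exact (h3.sub continuousAt_const).add (continuousAt_const.mul continuousAt_id)
    have h4 := hc.tendsto
    simp only [sub_zero, Real.one_rpow, sub_self, mul_zero, add_zero] at h4
    exact h4.mono_left nhdsWithin_le_nhds
  · have h4 : Tendsto (fun x : ℝ => x ^ 2) (𝓝 0) (𝓝 0) := by
      have := (continuous_pow 2 (M := ℝ)).tendsto 0
      simpa using this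
    exact h4.mono_left nhdsWithin_le_nhds
  · have h5 := ((hd (μ - 1) 0 one_pos).const_mul (-1 * μ))
    rw [hasDerivAt_iff_tendsto_slope] at h5
    have h6 := h5.div_const 2
    refine (h6.congr fun x => ?_).trans (le_of_eq ?_)
    · rw [slope_def_field]
      simp only [sub_zero, Real.one_rpow]
      by_cases hx : x = 0
      · simp [hx]
      · field_simp
        ring
    · congr 1
      simp only [sub_zero, Real.one_rpow]
      ring

lemma PT.G_bound (h : PT μ ϵ F) (h0 : 0 < μ) (h2 : μ < 2) :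
    ∃ C : ℝ, 0 < C ∧ ∀ x : ℝ, |F (1 - x) - 1 + μ * x| ≤ C * x ^ 2 := by
  have hL := (G_lim μ).abs
  have h3 : ∀ᶠ x : ℝ in 𝓝[≠] 0, |((1 - x) ^ μ - 1 + μ * x) / x ^ 2| < |μ * (μ - 1) / 2| + 1 :=
    hL.eventually (gt_mem_nhds (by linarith))
  rw [eventually_nhdsWithin_iff, Metric.eventually_nhds_iff] at h3
  obtain ⟨δ, hδ, h4⟩ := h3
  set δ' := min δ (1/2) with hδ'
  have hδ'0 : 0 < δ' := lt_min hδ (by norm_num)
  set L := |μ * (μ - 1) / 2| + 1 with hLdef
  have hL0 : 0 < L := by rw [hLdef]; positivity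
  refine ⟨L + ((2 / δ' + 1) ^ 2 + 1 / δ' ^ 2 + 2 / δ'), by positivity, fun x => ?_⟩
  by_cases hx0 : x = 0
  · subst hx0
    rw [sub_zero, h.2.1 1 zero_le_one]
    simp
  have hx2 : 0 < x ^ 2 := by positivity
  by_cases hx : |x| < δ'
  · have hx1 : |x| < 1/2 := lt_of_lt_of_le hx (min_le_right _ _)
    have hx3 := (abs_lt.1 hx1)
    rw [h.2.1 (1 - x) (by linarith)]
    have h5 := h4 (y := x) (by simpa using lt_of_lt_of_le hx (min_le_left _ _)) hx0
    rw [abs_div, abs_of_pos hx2, div_lt_iff₀ hx2] at h5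
    have : 0 ≤ ((2 / δ' + 1) ^ 2 + 1 / δ' ^ 2 + 2 / δ') * x ^ 2 := by positivity
    nlinarith
  · push Not at hx
    have h6 : |F (1 - x)| ≤ (1 + |1 - x|) ^ 2 := (h.grow h0 h2).2 _
    have h7 : |1 - x| ≤ 1 + |x| := by
      have := abs_sub (1:ℝ) x
      simpa using this
    have h8 : (1 + |1 - x|) ^ 2 ≤ (2 + |x|) ^ 2 :=
      pow_le_pow_left₀ (by positivity) (by linarith) 2
    have h9 : |F (1 - x) - 1 + μ * x| ≤ |F (1 - x)| + 1 + 2 * |x| := by
      calc |F (1 - x) - 1 + μ * x| ≤ |F (1 - x) - 1| + |μ * x| := abs_add_le _ _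
        _ ≤ (|F (1 - x)| + |(1:ℝ)|) + |μ * x| := by
            gcongr
            exact abs_sub _ _
        _ ≤ |F (1 - x)| + 1 + 2 * |x| := by
            rw [abs_one, abs_mul, abs_of_pos h0]
            have := abs_nonneg x
            nlinarith
    have hone : 1 ≤ |x| / δ' := by rw [le_div_iff₀ hδ'0]; linarith
    have hxsq : x ^ 2 = |x| ^ 2 := (sq_abs x).symm
    rw [hxsq]
    have h10 : 2 + |x| ≤ (2 / δ' + 1) * |x| := by
      have : (2 / δ' + 1) * |x| = 2 * (|x| / δ') + |x| := by ring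
      rw [this]
      linarith
    have h11 : (2 + |x|) ^ 2 ≤ (2 / δ' + 1) ^ 2 * |x| ^ 2 := by
      rw [← mul_pow]
      exact pow_le_pow_left₀ (by positivity) h10 2
    have h12 : 1 ≤ 1 / δ' ^ 2 * |x| ^ 2 := by
      have : 1 / δ' ^ 2 * |x| ^ 2 = (|x| / δ') ^ 2 := by rw [div_pow]; ring
      rw [this]
      exact one_le_pow₀ hone
    have h13 : 2 * |x| ≤ 2 / δ' * |x| ^ 2 := by
      have : 2 / δ' * |x| ^ 2 = 2 * |x| * (|x| / δ') := by ring
      rw [this]
      have := abs_nonneg x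
      nlinarith
    have h14 : 0 ≤ L * |x| ^ 2 := by positivity
    nlinarith

/-- the real kernel -/
noncomputable def w (v : ℝ) : ℝ := Real.sinc (v / 4) ^ 4

lemma w_nonneg (v : ℝ) : 0 ≤ w v := by unfold w; positivity

lemma w_cont : Continuous w := by
  unfold w
  exact (Real.continuous_sinc.comp (continuous_id.div_const _)).pow 4

lemma w_neg (v : ℝ) : w (-v) = w v := by
  unfold w
  rw [neg_div, Real.sinc_neg]

lemma w_int {g : ℝ → ℝ} (hg : Continuous g) {A : ℝ} (hA : ∀ v, |g v| ≤ A * (1 + |v|) ^ 2) :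
    Integrable (fun v => g v * w v) := by
  obtain ⟨C, hC, hb⟩ := kapR_bound
  refine Integrable.mono' (integrable_inv_sq.const_mul (A * C))
    (hg.mul w_cont).aestronglyMeasurable (Filter.Eventually.of_forall fun v => ?_)
  rw [norm_mul, Real.norm_eq_abs, Real.norm_eq_abs]
  have hA0 : 0 ≤ A := by
    have := hA 0
    simp at this
    exact le_trans (abs_nonneg _) this
  calc |g v| * |w v| ≤ (A * (1 + |v|) ^ 2) * (C / (1 + |v|) ^ 4) :=
        mul_le_mul (hA v) (hb v) (abs_nonneg _) (by positivity)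
    _ = A * C * (1 / (1 + |v|) ^ 2) := by field_simp

lemma w_int_one : Integrable w := by
  have := w_int (g := fun _ => 1) continuous_const (A := 1) (fun v => by
    have : (1:ℝ) ≤ (1 + |v|) ^ 2 := one_le_pow₀ (by linarith [abs_nonneg v])
    simpa using this)
  simpa using this

lemma w_int_id : Integrable (fun v => v * w v) := by
  apply w_int continuous_id (A := 1)
  intro v
  have := abs_nonneg v
  rw [one_mul, id]
  nlinarith

lemma w_int_sq : Integrable (fun v => v ^ 2 * w v) := by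
  apply w_int (continuous_pow 2) (A := 1)
  intro v
  have := abs_nonneg v
  rw [one_mul, abs_pow]
  nlinarith

lemma I0_eq : I0 = ∫ v, w v := rfl

lemma I0_pos : 0 < I0 := by
  rw [I0_eq]
  rw [integral_pos_iff_support_of_nonneg w_nonneg w_int_one]
  apply IsOpen.measure_pos
  · exact w_cont.isOpen_support
  · refine ⟨0, ?_⟩
    simp [w]

lemma w_odd : ∫ v, v * w v = 0 := by
  have h1 := integral_neg_eq_self (fun v : ℝ => v * w v) volume
  have h2 : (fun v : ℝ => -v * w (-v)) = fun v => -(v * w v) := by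
    funext v
    rw [w_neg]; ring
  rw [h2, integral_neg] at h1
  linarith

/-- the approximant restricted to the real line -/
noncomputable def q (F : ℝ → ℝ) (x : ℝ) : ℝ := (1 / I0) * ∫ v : ℝ, F (x - v) * w v

lemma int_Fw (hF : Grow F) (x : ℝ) : Integrable (fun v => F (x - v) * w v) := by
  apply w_int (hF.1.comp (continuous_const.sub continuous_id)) (A := (1 + |x|) ^ 2)
  intro v
  have h1 := one_add_abs_le (-x) (-(v))
  have h2 : |x - v| ≤ |x| + |v| := abs_sub x v
  calc |F (x - v)| ≤ (1 + |x - v|) ^ 2 := hF.2 _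
    _ ≤ ((1 + |x|) * (1 + |v|)) ^ 2 := by
        apply pow_le_pow_left₀ (by positivity)
        have := mul_nonneg (abs_nonneg x) (abs_nonneg v)
        linarith
    _ = _ := by ring

lemma q_sub (hF : Grow F) (t D : ℝ) :
    q F t - F t = (1 / I0) * ∫ v : ℝ, (F (t - v) - F t + D * v) * w v := by
  have h1 : (fun v : ℝ => (F (t - v) - F t + D * v) * w v) =
      fun v => (F (t - v) * w v - F t * w v) + D * (v * w v) := by
    funext v; ring
  have h2 : Integrable (fun v => F t * w v) := w_int_one.const_mul _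
  have h3 : Integrable (fun v => D * (v * w v)) := w_int_id.const_mul _
  have h4 : Integrable (fun v => F (t - v) * w v - F t * w v) := (int_Fw hF t).sub h2
  rw [h1, integral_add h4 h3, integral_sub (int_Fw hF t) h2, integral_const_mul,
    integral_const_mul, w_odd, ← I0_eq]
  unfold q
  have := I0_pos.ne'
  field_simp
  ring

lemma PT.q_neg (h : PT μ ϵ F) (t : ℝ) : q F (-t) = ϵ * q F t := by
  unfold q
  have h1 := integral_neg_eq_self (fun v : ℝ => F (-t - v) * w v) volume
  rw [← h1]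
  have h2 : (fun v => F (-t - -v) * w (-v)) = fun v => ϵ * (F (t - v) * w v) := by
    funext v
    rw [w_neg, show -t - -v = -(t - v) by ring, h.2.2.1]
    ring
  rw [h2, integral_const_mul]
  ring

lemma PT.scaled (h : PT μ ϵ F) {t : ℝ} (ht : 0 < t) (v : ℝ) :
    F (t - v) - F t + μ * t ^ (μ - 1) * v = t ^ μ * (F (1 - v / t) - 1 + μ * (v / t)) := by
  have h1 : F (t - v) = t ^ μ * F (1 - v / t) := by
    rw [← h.hom ht]
    congr 1
    field_simp
  rw [h1, h.2.1 t ht.le, Real.rpow_sub ht, Real.rpow_one]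
  field_simp

lemma PT.q_err (h : PT μ ϵ F) (h0 : 0 < μ) (h2 : μ < 2) :
    ∃ K : ℝ, 0 < K ∧ ∀ t : ℝ, 0 < t → |q F t - F t| ≤ K * t ^ (μ - 2) := by
  obtain ⟨C, hC, hb⟩ := h.G_bound h0 h2
  have hI := I0_pos
  have h3 : 0 ≤ ∫ v, v ^ 2 * w v := integral_nonneg fun v => mul_nonneg (by positivity) (w_nonneg v)
  refine ⟨(1 / I0) * (C * ∫ v, v ^ 2 * w v) + 1, by positivity, fun t ht => ?_⟩
  rw [q_sub (h.grow h0 h2) t (μ * t ^ (μ - 1)), abs_mul, abs_of_pos (by positivity : 0 < 1 / I0)]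
  have h4 : |∫ v : ℝ, (F (t - v) - F t + μ * t ^ (μ - 1) * v) * w v| ≤
      ∫ v : ℝ, (C * t ^ (μ - 2)) * (v ^ 2 * w v) := by
    rw [← Real.norm_eq_abs]
    apply norm_integral_le_of_norm_le (w_int_sq.const_mul _)
    refine Filter.Eventually.of_forall fun v => ?_
    rw [h.scaled ht, norm_mul, norm_mul, Real.norm_eq_abs, Real.norm_eq_abs, Real.norm_eq_abs,
      abs_of_nonneg (w_nonneg v), abs_of_pos (Real.rpow_pos_of_pos ht _)]
    have h5 : t ^ (μ - 2) = t ^ μ / t ^ 2 := by
      rw [Real.rpow_sub ht]; norm_cast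
    calc t ^ μ * |F (1 - v / t) - 1 + μ * (v / t)| * w v ≤ t ^ μ * (C * (v / t) ^ 2) * w v := by
          apply mul_le_mul_of_nonneg_right _ (w_nonneg v)
          exact mul_le_mul_of_nonneg_left (hb _) (Real.rpow_pos_of_pos ht _).le
      _ = C * t ^ (μ - 2) * (v ^ 2 * w v) := by
          rw [h5]; field_simp
  rw [integral_const_mul] at h4
  have h6 : 0 < t ^ (μ - 2) := Real.rpow_pos_of_pos ht _
  calc 1 / I0 * |∫ v : ℝ, (F (t - v) - F t + μ * t ^ (μ - 1) * v) * w v|
      ≤ 1 / I0 * (C * t ^ (μ - 2) * ∫ v, v ^ 2 * w v) :=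
        mul_le_mul_of_nonneg_left h4 (by positivity)
    _ ≤ _ := by nlinarith

lemma PT.q_lim (h : PT μ ϵ F) (h0 : 0 < μ) (h2 : μ < 2) :
    ∃ L : ℝ, Tendsto (fun t : ℝ => t ^ (2 - μ) * (q F t - F t)) atTop (𝓝 L) := by
  obtain ⟨C, hC, hb⟩ := h.G_bound h0 h2
  refine ⟨(1 / I0) * ∫ v, (μ * (μ - 1) / 2) * v ^ 2 * w v, ?_⟩
  have hmain : Tendsto (fun t : ℝ => ∫ v, (t ^ 2 * (F (1 - v / t) - 1 + μ * (v / t))) * w v) atTop
      (𝓝 (∫ v, (μ * (μ - 1) / 2) * v ^ 2 * w v)) := by
    apply tendsto_integral_filter_of_dominated_convergence (fun v => C * (v ^ 2 * w v))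
    · refine Filter.Eventually.of_forall fun t => ?_
      apply Continuous.aestronglyMeasurable
      apply Continuous.mul _ w_cont
      apply continuous_const.mul
      apply Continuous.add
      · exact (h.1.comp (continuous_const.sub (continuous_id.div_const _))).sub continuous_const
      · exact continuous_const.mul (continuous_id.div_const _)
    · filter_upwards [eventually_gt_atTop 0] with t ht
      refine Filter.Eventually.of_forall fun v => ?_
      rw [norm_mul, norm_mul, Real.norm_eq_abs, Real.norm_eq_abs, Real.norm_eq_abs,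
        abs_of_nonneg (w_nonneg v), abs_of_pos (by positivity : 0 < t ^ 2)]
      calc t ^ 2 * |F (1 - v / t) - 1 + μ * (v / t)| * w v ≤ t ^ 2 * (C * (v / t) ^ 2) * w v := by
            apply mul_le_mul_of_nonneg_right _ (w_nonneg v)
            exact mul_le_mul_of_nonneg_left (hb _) (by positivity)
        _ = C * (v ^ 2 * w v) := by field_simp
    · exact w_int_sq.const_mul C
    · refine Filter.Eventually.of_forall fun v => ?_
      apply Tendsto.mul_const
      by_cases hv : v = 0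
      · subst hv
        simp only [zero_div, sub_zero, mul_zero, add_zero]
        rw [h.2.1 1 zero_le_one]
        simp
      · have h3 : Tendsto (fun t : ℝ => v / t) atTop (𝓝[≠] 0) := by
          rw [tendsto_nhdsWithin_iff]
          refine ⟨tendsto_const_nhds.div_atTop tendsto_id, ?_⟩
          filter_upwards [eventually_gt_atTop 0] with t ht
          exact div_ne_zero hv ht.ne'
        have h4 := ((G_lim μ).comp h3).mul_const (v ^ 2)
        refine (h4.congr' ?_).trans (le_of_eq rfl)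
        have h5 : ∀ᶠ t : ℝ in atTop, v / t < 1 := by
          have : Tendsto (fun t : ℝ => v / t) atTop (𝓝 0) :=
            tendsto_const_nhds.div_atTop tendsto_id
          exact this.eventually (gt_mem_nhds one_pos)
        filter_upwards [eventually_gt_atTop 0, h5] with t ht ht2
        simp only [Function.comp]
        rw [h.2.1 (1 - v / t) (by linarith)]
        field_simp
  refine (hmain.const_mul (1 / I0)).congr' ?_
  filter_upwards [eventually_gt_atTop 0] with t ht
  rw [q_sub (h.grow h0 h2) t (μ * t ^ (μ - 1))]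
  have h3 : (fun v => (F (t - v) - F t + μ * t ^ (μ - 1) * v) * w v) =
      fun v => t ^ (μ - 2) * ((t ^ 2 * (F (1 - v / t) - 1 + μ * (v / t))) * w v) := by
    funext v
    rw [h.scaled ht]
    have h5 : t ^ (μ - 2) = t ^ μ / t ^ 2 := by
      rw [Real.rpow_sub ht]; norm_cast
    rw [h5]
    field_simp
  rw [h3, integral_const_mul]
  have h6 : t ^ (2 - μ) * t ^ (μ - 2) = 1 := by
    rw [← Real.rpow_add ht]; simp
  calc 1 / I0 * ∫ v, (t ^ 2 * (F (1 - v / t) - 1 + μ * (v / t))) * w v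
      = (t ^ (2 - μ) * t ^ (μ - 2)) * (1 / I0 * ∫ v, (t ^ 2 * (F (1 - v / t) - 1 + μ * (v / t))) * w v) := by
        rw [h6, one_mul]
    _ = _ := by ring

end Pool.Agent.H293.HA
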