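import Mathlib

/-!
# Polynomial approximation of entire functions of exponential type `< 1`
-/

set_option autoImplicit false

open Filter Asymptotics Topology Set

namespace Pool.Agent.H293.HA

/-- shift of the contour for periodic entire functions -/
lemma shift_contour {H : ℂ → ℂ} (hd : Differentiable ℂ H) (hper : ∀ z, H (z + 2 * Real.pi) = H z)
    (τ : ℝ) : ∫ x in (0:ℝ)..(2 * Real.pi), H x = ∫ x in (0:ℝ)..(2 * Real.pi), H (x + τ * Complex.I) := by
  have h := Complex.integral_boundary_rect_eq_zero_of_differentiableOn H 0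
    ((2 * Real.pi : ℝ) + τ * Complex.I) hd.differentiableOn
  simp only [Complex.zero_re, Complex.zero_im, Complex.add_re, Complex.ofReal_re, Complex.mul_re,
    Complex.I_re, mul_zero, Complex.ofReal_im, Complex.I_im, mul_one, sub_self, add_zero,
    Complex.add_im, Complex.mul_im, zero_add, Complex.ofReal_zero, zero_mul] at h
  have h2 : ∀ y : ℝ, H (((2 * Real.pi : ℝ) : ℂ) + y * Complex.I) = H (y * Complex.I) := by
    intro y
    rw [← hper (y * Complex.I)]
    congr 1
    push_cast
    ring
  simp only [h2] at h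
  have h3 : (∫ x in (0:ℝ)..(2 * Real.pi), H x) - ∫ x in (0:ℝ)..(2 * Real.pi), H (x + τ * Complex.I) = 0 := by
    linear_combination h
  exact sub_eq_zero.1 h3

/-- the constant `∑_k e^{-a|k|}` -/
noncomputable def cst (a : ℝ) : ℝ := ∑' k : ℤ, Real.exp (-(a * |(k:ℝ)|))

lemma summable_exp_abs {a : ℝ} (ha : 0 < a) : Summable (fun k : ℤ => Real.exp (-(a * |(k:ℝ)|))) := by
  have h1 : Summable (fun k : ℕ => Real.exp (-(a * |((k:ℤ):ℝ)|))) := by
    have h2 : (fun k : ℕ => Real.exp (-(a * |((k:ℤ):ℝ)|))) = fun k : ℕ => (Real.exp (-a)) ^ k := by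
      funext k
      rw [← Real.exp_nat_mul]
      congr 1
      simp
      ring
    rw [h2]
    exact summable_geometric_of_lt_one (Real.exp_pos _).le (by
      rw [Real.exp_lt_one_iff]; linarith)
  apply Summable.of_nat_of_neg h1
  have h3 : (fun k : ℕ => Real.exp (-(a * |((-(k:ℤ) : ℤ):ℝ)|))) =
      fun k : ℕ => Real.exp (-(a * |((k:ℤ):ℝ)|)) := by
    funext k
    simp
  rw [h3]
  exact h1

theorem fourier_approx {G : ℂ → ℂ} (hd : Differentiable ℂ G)
    (hper : ∀ z, G (z + 2 * Real.pi) = G z) (heven : ∀ z, G (-z) = G z) {η η' M : ℝ} (hη : 0 < η)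
    (hη' : η' < η) (hη0 : 0 ≤ η')
    (hM : ∀ z : ℂ, |z.im| ≤ η → ‖G z‖ ≤ M) (n : ℕ) :
    ∃ P : Polynomial ℝ, P.natDegree ≤ n ∧ ∀ θ : ℝ,
      |P.eval (Real.cos θ) - (G θ).re| ≤ M * cst (η - η') * Real.exp (-(η' * n)) := by
  have hM0 : 0 ≤ M := le_trans (norm_nonneg _) (hM 0 (by simpa using hη.le))
  have hfact : Fact (0 < 2 * Real.pi) := ⟨Real.two_pi_pos⟩
  have hperR : Function.Periodic (fun x : ℝ => G x) (2 * Real.pi) := by
    intro x
    have := hper x
    simpa using this
  have hcontR : Continuous (fun x : ℝ => G x) := hd.continuous.comp Complex.continuous_ofReal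
  set f : C(AddCircle (2 * Real.pi), ℂ) :=
    ⟨hperR.lift, continuous_coinduced_dom.mpr hcontR⟩ with hf
  have hfx : ∀ x : ℝ, f (x : AddCircle (2 * Real.pi)) = G x := fun x => hperR.lift_coe x
  have hcoef : ∀ k : ℤ, ‖fourierCoeff f k‖ ≤ M * Real.exp (-(η * |(k:ℝ)|)) := by
    intro k
    rw [fourierCoeff_eq_intervalIntegral _ k 0]
    simp only [zero_add]
    have h1 : ∀ x : ℝ, (fourier (-k)) (x : AddCircle (2 * Real.pi)) • f (x : AddCircle (2 * Real.pi)) =
        Complex.exp (-(Complex.I * k * x)) * G x := by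
      intro x
      rw [hfx, fourier_coe_apply, smul_eq_mul]
      congr 2
      push_cast
      have : (Real.pi : ℂ) ≠ 0 := by exact_mod_cast Real.pi_ne_zero
      field_simp
    simp only [h1]
    set H : ℂ → ℂ := fun z => Complex.exp (-(Complex.I * k * z)) * G z with hH
    have hHd : Differentiable ℂ H := by
      apply Differentiable.mul _ hd
      fun_prop
    have hHper : ∀ z, H (z + 2 * Real.pi) = H z := by
      intro z
      rw [hH]
      simp only
      rw [hper]
      congr 1
      have h2 : -(Complex.I * k * (z + 2 * Real.pi)) =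
          -(Complex.I * k * z) + ((-k : ℤ) : ℂ) * (2 * Real.pi * Complex.I) := by
        push_cast
        ring
      rw [h2, Complex.exp_add, Complex.exp_int_mul_two_pi_mul_I, mul_one]
    set τ : ℝ := if 0 ≤ k then -η else η with hτ
    have h3 : ∫ x in (0:ℝ)..(2 * Real.pi), Complex.exp (-(Complex.I * k * x)) * G x =
        ∫ x in (0:ℝ)..(2 * Real.pi), H (x + τ * Complex.I) := shift_contour hHd hHper τ
    rw [h3, norm_smul]
    have h4 : ‖∫ x in (0:ℝ)..(2 * Real.pi), H (x + τ * Complex.I)‖ ≤
        M * Real.exp (-(η * |(k:ℝ)|)) * |2 * Real.pi - 0| := by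
      apply intervalIntegral.norm_integral_le_of_norm_le_const
      intro x _
      rw [hH]
      simp only
      rw [norm_mul]
      have h5 : ‖G (x + τ * Complex.I)‖ ≤ M := by
        apply hM
        simp only [Complex.add_im, Complex.ofReal_im, Complex.mul_im, Complex.ofReal_re,
          Complex.I_im, mul_one, Complex.I_re, mul_zero, add_zero, zero_add]
        rw [hτ]
        split_ifs
        · rw [abs_neg, abs_of_pos hη]
        · rw [abs_of_pos hη]
      have h6 : ‖Complex.exp (-(Complex.I * k * (x + τ * Complex.I)))‖ =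
          Real.exp (-(η * |(k:ℝ)|)) := by
        rw [Complex.norm_exp]
        congr 1
        have h7 : -(Complex.I * (k:ℂ) * (x + τ * Complex.I)) =
            ((k * τ : ℝ) : ℂ) + ((-(k * x) : ℝ) : ℂ) * Complex.I := by
          push_cast
          linear_combination -(k:ℂ) * τ * Complex.I_mul_I
        rw [h7]
        simp only [Complex.add_re, Complex.ofReal_re, Complex.mul_re, Complex.I_re, mul_zero,
          Complex.ofReal_im, Complex.I_im, mul_one, sub_self, add_zero]
        rw [hτ]
        split_ifs with h8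
        · rw [abs_of_nonneg (by exact_mod_cast h8)]
          ring
        · have h9 : (k:ℝ) < 0 := by
            push Not at h8
            exact_mod_cast h8
          rw [abs_of_neg h9]
          ring
      rw [h6, mul_comm]
      exact mul_le_mul_of_nonneg_right h5 (Real.exp_pos _).le
    have h10 : ‖(1 / (2 * Real.pi) : ℝ)‖ = 1 / (2 * Real.pi) := by
      rw [Real.norm_eq_abs, abs_of_pos (by positivity)]
    rw [h10]
    calc 1 / (2 * Real.pi) * ‖∫ x in (0:ℝ)..(2 * Real.pi), H (x + τ * Complex.I)‖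
        ≤ 1 / (2 * Real.pi) * (M * Real.exp (-(η * |(k:ℝ)|)) * |2 * Real.pi - 0|) :=
          mul_le_mul_of_nonneg_left h4 (by positivity)
      _ = M * Real.exp (-(η * |(k:ℝ)|)) := by
          rw [sub_zero, abs_of_pos Real.two_pi_pos]
          field_simp
  have hsum : Summable (fourierCoeff f) := by
    apply Summable.of_norm_bounded (g := fun k : ℤ => M * Real.exp (-(η * |(k:ℝ)|)))
    · exact (summable_exp_abs hη).mul_left M
    · exact hcoef
  have hG : ∀ θ : ℝ, HasSum (fun k : ℤ => (fourierCoeff f k).re * Real.cos (k * θ)) (G θ).re := by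
    intro θ
    have h1 := has_pointwise_sum_fourier_series_of_summable hsum (θ : AddCircle (2 * Real.pi))
    have h2 := has_pointwise_sum_fourier_series_of_summable hsum ((-θ : ℝ) : AddCircle (2 * Real.pi))
    rw [hfx] at h1 h2
    have h3 : G ((-θ : ℝ) : ℂ) = G θ := by
      push_cast
      exact heven θ
    rw [h3] at h2
    have h4 := ((h1.add h2).mul_left (1 / 2 : ℂ))
    have h5 : (1 / 2 : ℂ) * (G θ + G θ) = G θ := by ring
    rw [h5] at h4
    have h6 : (fun k : ℤ => (1 / 2 : ℂ) * (fourierCoeff f k • (fourier k) (θ : AddCircle (2 * Real.pi)) +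
        fourierCoeff f k • (fourier k) ((-θ : ℝ) : AddCircle (2 * Real.pi)))) =
        fun k : ℤ => fourierCoeff f k * ((Real.cos (k * θ) : ℝ) : ℂ) := by
      funext k
      rw [fourier_coe_apply, fourier_coe_apply, smul_eq_mul, smul_eq_mul]
      have h7 : (2 * (Real.pi : ℂ) * Complex.I * k * θ / ((2 * Real.pi : ℝ) : ℂ)) =
          (k * θ : ℂ) * Complex.I := by
        push_cast
        have : (Real.pi : ℂ) ≠ 0 := by exact_mod_cast Real.pi_ne_zero
        field_simp
      have h8 : (2 * (Real.pi : ℂ) * Complex.I * k * ((-θ : ℝ) : ℂ) / ((2 * Real.pi : ℝ) : ℂ)) =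
          -(k * θ : ℂ) * Complex.I := by
        push_cast
        have : (Real.pi : ℂ) ≠ 0 := by exact_mod_cast Real.pi_ne_zero
        field_simp
      rw [h7, h8]
      push_cast
      rw [Complex.cos]
      ring
    rw [h6] at h4
    have h9 := (Complex.hasSum_re h4)
    have h10 : (fun k : ℤ => (fourierCoeff f k * ((Real.cos (k * θ) : ℝ) : ℂ)).re) =
        fun k : ℤ => (fourierCoeff f k).re * Real.cos (k * θ) := by
      funext k
      exact Complex.re_mul_ofReal _ _
    rw [h10] at h9
    exact h9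
  refine ⟨∑ k ∈ Finset.Icc (-(n:ℤ)) n,
    Polynomial.C (fourierCoeff f k).re * Polynomial.Chebyshev.T ℝ k, ?_, ?_⟩
  · apply Polynomial.natDegree_sum_le_of_forall_le
    intro k hk
    rw [Finset.mem_Icc] at hk
    refine (Polynomial.natDegree_C_mul_le _ _).trans ?_
    rw [Polynomial.Chebyshev.natDegree_T]
    omega
  · intro θ
    have h1 : (∑ k ∈ Finset.Icc (-(n:ℤ)) n, Polynomial.C (fourierCoeff f k).re *
        Polynomial.Chebyshev.T ℝ k).eval (Real.cos θ) =
        ∑ k ∈ Finset.Icc (-(n:ℤ)) n, (fourierCoeff f k).re * Real.cos (k * θ) := by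
      rw [Polynomial.eval_finsetSum]
      apply Finset.sum_congr rfl
      intro k _
      rw [Polynomial.eval_mul, Polynomial.eval_C, Polynomial.Chebyshev.T_real_cos]
    rw [h1]
    have hs := hG θ
    set g : ℤ → ℝ := fun k => (fourierCoeff f k).re * Real.cos (k * θ) with hg
    have h2 : (G θ).re - ∑ k ∈ Finset.Icc (-(n:ℤ)) n, g k =
        ∑' k : ((Finset.Icc (-(n:ℤ)) n : Finset ℤ) : Set ℤ).compl, g k := by
      have h3 := hs.summable.sum_add_tsum_compl (s := Finset.Icc (-(n:ℤ)) n)
      rw [hs.tsum_eq] at h3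
      have h4 : ∑' k : ((Finset.Icc (-(n:ℤ)) n : Finset ℤ) : Set ℤ).compl, g k =
        ∑' k : ↑((Finset.Icc (-(n:ℤ)) n : Finset ℤ) : Set ℤ)ᶜ, g k := rfl
      rw [h4]
      linarith
    rw [abs_sub_comm, h2]
    have hbd : ∀ k : ((Finset.Icc (-(n:ℤ)) n : Finset ℤ) : Set ℤ).compl, ‖g k‖ ≤
        M * Real.exp (-(η' * n)) * Real.exp (-((η - η') * |((k:ℤ):ℝ)|)) := by
      rintro ⟨k, hk⟩
      have hk' : (n:ℝ) ≤ |(k:ℝ)| := by
        have h5 : ¬ (-(n:ℤ) ≤ k ∧ k ≤ n) := by
          intro h6
          apply hk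
          simpa using h6
        by_contra hcon
        push Not at hcon
        apply h5
        rw [abs_lt] at hcon
        constructor
        · have : -(n:ℝ) < (k:ℝ) := hcon.1
          have h7 : ((-(n:ℤ) : ℤ) : ℝ) < (k:ℝ) := by push_cast; exact this
          exact (Int.cast_lt.1 h7).le
        · have h7 : (k:ℝ) < ((n:ℤ):ℝ) := by push_cast; exact hcon.2
          exact (Int.cast_lt.1 h7).le
      simp only
      rw [hg]
      simp only
      rw [norm_mul, Real.norm_eq_abs, Real.norm_eq_abs]
      calc |(fourierCoeff f k).re| * |Real.cos (k * θ)| ≤ ‖fourierCoeff f k‖ * 1 := by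
            apply mul_le_mul (Complex.abs_re_le_norm _) (Real.abs_cos_le_one _) (abs_nonneg _)
              (norm_nonneg _)
        _ ≤ M * Real.exp (-(η * |(k:ℝ)|)) := by rw [mul_one]; exact hcoef k
        _ ≤ M * (Real.exp (-(η' * n)) * Real.exp (-((η - η') * |(k:ℝ)|))) := by
            apply mul_le_mul_of_nonneg_left _ hM0
            rw [← Real.exp_add]
            apply Real.exp_le_exp.mpr
            nlinarith
        _ = _ := by ring
    have hsumc : Summable (fun k : ((Finset.Icc (-(n:ℤ)) n : Finset ℤ) : Set ℤ).compl =>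
        M * Real.exp (-(η' * n)) * Real.exp (-((η - η') * |((k:ℤ):ℝ)|))) :=
      ((summable_exp_abs (by linarith : 0 < η - η')).subtype _).mul_left _
    have h6 := tsum_of_norm_bounded hsumc.hasSum hbd
    rw [Real.norm_eq_abs] at h6
    refine h6.trans ?_
    rw [tsum_mul_left]
    have h7 : ∑' k : ((Finset.Icc (-(n:ℤ)) n : Finset ℤ) : Set ℤ).compl,
        Real.exp (-((η - η') * |((k:ℤ):ℝ)|)) ≤ cst (η - η') := by
      unfold cst
      exact Summable.tsum_subtype_le (fun k : ℤ => Real.exp (-((η - η') * |(k:ℝ)|))) _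
        (fun k => (Real.exp_pos _).le) (summable_exp_abs (by linarith))
    calc M * Real.exp (-(η' * n)) * ∑' k : ((Finset.Icc (-(n:ℤ)) n : Finset ℤ) : Set ℤ).compl,
          Real.exp (-((η - η') * |((k:ℤ):ℝ)|))
        ≤ M * Real.exp (-(η' * n)) * cst (η - η') :=
          mul_le_mul_of_nonneg_left h7 (by positivity)
      _ = M * cst (η - η') * Real.exp (-(η' * n)) := by ring

end Pool.Agent.H293.HA
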