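import Pool.Agent.H293.HA.Low

/-!
# A band limited kernel and the convolution with a power type function
-/

set_option autoImplicit false

open Filter Asymptotics Topology Set MeasureTheory

namespace Pool.Agent.H293.HA

/-- the entire function `sin z / z` -/
noncomputable def sinC (z : ℂ) : ℂ := dslope Complex.sin 0 z

lemma sinC_zero : sinC 0 = 1 := by
  unfold sinC
  rw [dslope_same]
  simp [Complex.deriv_sin]

lemma sinC_of_ne {z : ℂ} (hz : z ≠ 0) : sinC z = Complex.sin z / z := by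
  unfold sinC
  rw [dslope_of_ne _ hz, slope_def_field]
  simp

lemma differentiable_sinC : Differentiable ℂ sinC := by
  have : DifferentiableOn ℂ (dslope Complex.sin 0) Set.univ :=
    (Complex.differentiableOn_dslope Filter.univ_mem).mpr Complex.differentiable_sin.differentiableOn
  exact differentiableOn_univ.1 this

lemma sinC_ofReal (x : ℝ) : sinC x = (Real.sinc x : ℂ) := by
  by_cases h : x = 0
  · subst h
    simp [sinC_zero]
  · rw [sinC_of_ne (by exact_mod_cast h), Real.sinc_of_ne_zero h]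
    push_cast
    rfl

lemma sinC_neg (z : ℂ) : sinC (-z) = sinC z := by
  by_cases h : z = 0
  · subst h
    simp
  · rw [sinC_of_ne h, sinC_of_ne (neg_ne_zero.2 h), Complex.sin_neg, neg_div_neg_eq]

lemma exists_sinC_bound : ∃ C : ℝ, 0 < C ∧ ∀ z : ℂ, ‖sinC z‖ ≤ C * Real.exp |z.im| / (1 + ‖z‖) := by
  obtain ⟨C₁, hC₁⟩ := (isCompact_closedBall (0:ℂ) 1).exists_bound_of_continuousOn
    differentiable_sinC.continuous.continuousOn
  have hC₁0 : 0 ≤ C₁ := le_trans (norm_nonneg _) (hC₁ 0 (by simp))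
  refine ⟨2 * C₁ + 2, by positivity, fun z => ?_⟩
  rw [le_div_iff₀ (by positivity)]
  have he : 1 ≤ Real.exp |z.im| := by
    rw [← Real.exp_zero]; exact Real.exp_le_exp.mpr (abs_nonneg _)
  rcases le_total ‖z‖ 1 with h | h
  · have h1 := hC₁ z (by simpa using h)
    calc ‖sinC z‖ * (1 + ‖z‖) ≤ C₁ * 2 := by
          apply mul_le_mul h1 (by linarith) (by positivity) hC₁0
      _ ≤ (2 * C₁ + 2) * 1 := by linarith
      _ ≤ _ := mul_le_mul_of_nonneg_left he (by positivity)
  · have hz : z ≠ 0 := by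
      rintro rfl
      simp at h
      linarith
    rw [sinC_of_ne hz, norm_div]
    have h1 := norm_sin_le z
    have h2 : 1 + ‖z‖ ≤ 2 * ‖z‖ := by linarith
    have hz0 : 0 < ‖z‖ := by linarith
    calc ‖Complex.sin z‖ / ‖z‖ * (1 + ‖z‖) ≤ ‖Complex.sin z‖ / ‖z‖ * (2 * ‖z‖) :=
          mul_le_mul_of_nonneg_left h2 (by positivity)
      _ = 2 * ‖Complex.sin z‖ := by field_simp
      _ ≤ 2 * Real.exp |z.im| := by linarith
      _ ≤ _ := by
        apply mul_le_mul_of_nonneg_right _ (by positivity)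
        linarith

/-- the kernel, of exponential type one -/
noncomputable def kap (z : ℂ) : ℂ := sinC (z / 4) ^ 4

lemma differentiable_kap : Differentiable ℂ kap := by
  unfold kap
  exact (differentiable_sinC.comp (differentiable_id.div_const _)).pow 4

lemma kap_ofReal (x : ℝ) : kap x = ((Real.sinc (x / 4) ^ 4 : ℝ) : ℂ) := by
  unfold kap
  rw [show (x:ℂ) / 4 = ((x / 4 : ℝ) : ℂ) by push_cast; rfl, sinC_ofReal]
  push_cast
  rfl

lemma exists_kap_bound : ∃ C : ℝ, 0 < C ∧
    (∀ z : ℂ, ‖kap z‖ ≤ C * Real.exp |z.im| / (1 + ‖z‖) ^ 4) ∧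
    (∀ z : ℂ, ‖deriv kap z‖ ≤ C * Real.exp |z.im| / (1 + ‖z‖) ^ 4) := by
  obtain ⟨C₀, hC₀, hb⟩ := exists_sinC_bound
  have key : ∀ z : ℂ, ‖kap z‖ ≤ (4 * C₀) ^ 4 * Real.exp |z.im| / (1 + ‖z‖) ^ 4 := by
    intro z
    unfold kap
    rw [norm_pow]
    have h1 := hb (z / 4)
    have h2 : |(z / 4).im| = |z.im| / 4 := by
      have : (z / 4).im = z.im / 4 := by
        rw [show z / 4 = z / ((4:ℝ):ℂ) by norm_num, Complex.div_ofReal_im]
      rw [this, abs_div]
      norm_num
    have h3 : ‖z / 4‖ = ‖z‖ / 4 := by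
      rw [norm_div]; norm_num
    rw [h2, h3] at h1
    have h4 : ‖sinC (z / 4)‖ ≤ 4 * C₀ * Real.exp (|z.im| / 4) / (1 + ‖z‖) := by
      refine h1.trans ?_
      rw [div_le_div_iff₀ (by positivity) (by positivity)]
      have h5 : 0 ≤ ‖z‖ := norm_nonneg _
      have h6 : 0 < C₀ * Real.exp (|z.im| / 4) := by positivity
      nlinarith [mul_nonneg h6.le h5]
    calc ‖sinC (z / 4)‖ ^ 4 ≤ (4 * C₀ * Real.exp (|z.im| / 4) / (1 + ‖z‖)) ^ 4 :=
          pow_le_pow_left₀ (norm_nonneg _) h4 4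
      _ = (4 * C₀) ^ 4 * (Real.exp (|z.im| / 4)) ^ 4 / (1 + ‖z‖) ^ 4 := by
          rw [div_pow, mul_pow]
      _ = _ := by
          rw [← Real.exp_nat_mul]
          congr 3
          push_cast
          ring
  refine ⟨(4 * C₀) ^ 4 * Real.exp 1 * 16, by positivity, ?_, ?_⟩
  · intro z
    refine (key z).trans ?_
    apply div_le_div_of_nonneg_right _ (by positivity)
    apply mul_le_mul_of_nonneg_right _ (by positivity)
    have he : 1 ≤ Real.exp 1 := by
      rw [← Real.exp_zero]; exact Real.exp_le_exp.mpr (by norm_num)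
    have : 0 < (4 * C₀) ^ 4 := by positivity
    nlinarith
  · intro z
    have h := Complex.norm_deriv_le_of_forall_mem_sphere_norm_le (c := z) (R := 1) (f := kap)
      (C := (4 * C₀) ^ 4 * Real.exp 1 * 16 * Real.exp |z.im| / (1 + ‖z‖) ^ 4) one_pos
      (differentiable_kap.diffContOnCl) ?_
    · simpa using h
    · intro w hw
      have hw1 : ‖w - z‖ = 1 := by simpa using hw
      refine (key w).trans ?_
      have h1 : |w.im| ≤ 1 + |z.im| := by
        have h2 : |(w - z).im| ≤ ‖w - z‖ := Complex.abs_im_le_norm _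
        rw [hw1, Complex.sub_im] at h2
        have h3 := abs_sub_abs_le_abs_sub w.im z.im
        linarith
      have h4 : 1 + ‖z‖ ≤ 2 * (1 + ‖w‖) := by
        have h5 : ‖z‖ ≤ ‖w‖ + ‖w - z‖ := by
          have := norm_sub_norm_le z w
          rw [norm_sub_rev] at this
          linarith
        have := norm_nonneg w
        linarith
      have h6 : (1 + ‖z‖) ^ 4 ≤ 16 * (1 + ‖w‖) ^ 4 := by
        calc (1 + ‖z‖) ^ 4 ≤ (2 * (1 + ‖w‖)) ^ 4 := pow_le_pow_left₀ (by positivity) h4 4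
          _ = _ := by ring
      have h7 : Real.exp |w.im| ≤ Real.exp 1 * Real.exp |z.im| := by
        rw [← Real.exp_add]
        exact Real.exp_le_exp.mpr h1
      rw [div_le_div_iff₀ (by positivity) (by positivity)]
      calc (4 * C₀) ^ 4 * Real.exp |w.im| * (1 + ‖z‖) ^ 4
          ≤ (4 * C₀) ^ 4 * (Real.exp 1 * Real.exp |z.im|) * (16 * (1 + ‖w‖) ^ 4) := by gcongr
        _ = _ := by ring

lemma integrable_inv_sq : Integrable (fun v : ℝ => 1 / (1 + |v|) ^ 2) := by
  have h := integrable_one_add_norm (E := ℝ) (μ := volume) (r := 2) (by simp)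
  refine h.congr (Filter.Eventually.of_forall fun v => ?_)
  simp only [Real.norm_eq_abs]
  rw [Real.rpow_neg (by positivity), one_div]
  norm_cast

lemma integrable_shift (x : ℝ) : Integrable (fun u : ℝ => 1 / (1 + |x - u|) ^ 2) :=
  integrable_inv_sq.comp_sub_left x

lemma one_add_abs_le (x u : ℝ) : 1 + |u| ≤ (1 + |x|) * (1 + |x - u|) := by
  have h1 : |u| ≤ |x| + |x - u| := by
    have := abs_sub_abs_le_abs_sub u x
    rw [abs_sub_comm] at this
    linarith
  have h2 := abs_nonneg x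
  have h3 := abs_nonneg (x - u)
  nlinarith [mul_nonneg h2 h3]

/-- the normalising constant -/
noncomputable def I0 : ℝ := ∫ v : ℝ, Real.sinc (v / 4) ^ 4

/-- the convolution of `F` with the kernel -/
noncomputable def conv (F : ℝ → ℝ) (z : ℂ) : ℂ := (1 / (I0 : ℂ)) * ∫ u : ℝ, (F u : ℂ) * kap (z - u)

lemma kapR_bound : ∃ C : ℝ, 0 < C ∧ ∀ v : ℝ, |Real.sinc (v / 4) ^ 4| ≤ C / (1 + |v|) ^ 4 := by
  obtain ⟨C, hC, h, _⟩ := exists_kap_bound
  refine ⟨C, hC, fun v => ?_⟩
  have := h v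
  rw [kap_ofReal, Complex.norm_real, Complex.norm_real] at this
  simpa using this

/-- growth condition on `F` -/
def Grow (F : ℝ → ℝ) : Prop := Continuous F ∧ ∀ t, |F t| ≤ (1 + |t|) ^ 2

lemma conv_props {F : ℝ → ℝ} (hF : Grow F) :
    Differentiable ℂ (conv F) ∧
    (∃ K : ℝ, ∀ z : ℂ, ‖conv F z‖ ≤ K * (1 + ‖z‖) ^ 2 * Real.exp |z.im|) ∧
    (∀ x : ℝ, conv F x = (((1 / I0) * ∫ v : ℝ, F (x - v) * Real.sinc (v / 4) ^ 4 : ℝ) : ℂ)) := by
  obtain ⟨C, hC, hk, hk'⟩ := exists_kap_bound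
  obtain ⟨hFc, hFb⟩ := hF
  have hre : ∀ (z : ℂ) (u : ℝ), |z.re - u| ≤ ‖z - u‖ := by
    intro z u
    have : (z - u).re = z.re - u := by simp
    rw [← this]
    exact Complex.abs_re_le_norm _
  have him : ∀ (z : ℂ) (u : ℝ), (z - u).im = z.im := by
    intro z u
    simp
  -- the pointwise estimate
  have hpt : ∀ (z : ℂ) (u : ℝ) (y : ℝ), 0 ≤ y → ∀ w : ℂ, ‖w‖ ≤ y / (1 + ‖z - u‖) ^ 4 →
      ‖(F u : ℂ) * w‖ ≤ y * (1 + |z.re|) ^ 2 * (1 / (1 + |z.re - u|) ^ 2) := by
    intro z u y hy w hw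
    rw [norm_mul, Complex.norm_real, Real.norm_eq_abs]
    have h1 : |F u| ≤ ((1 + |z.re|) * (1 + |z.re - u|)) ^ 2 :=
      (hFb u).trans (pow_le_pow_left₀ (by positivity) (one_add_abs_le _ _) 2)
    have h2 : y / (1 + ‖z - u‖) ^ 4 ≤ y / (1 + |z.re - u|) ^ 4 := by
      apply div_le_div_of_nonneg_left hy (by positivity)
      apply pow_le_pow_left₀ (by positivity)
      linarith [hre z u]
    calc |F u| * ‖w‖ ≤ ((1 + |z.re|) * (1 + |z.re - u|)) ^ 2 * (y / (1 + |z.re - u|) ^ 4) :=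
          mul_le_mul h1 (hw.trans h2) (norm_nonneg _) (by positivity)
      _ = _ := by field_simp
  have hbd : ∀ (z : ℂ) (u : ℝ), ‖(F u : ℂ) * kap (z - u)‖ ≤
      C * Real.exp |z.im| * (1 + |z.re|) ^ 2 * (1 / (1 + |z.re - u|) ^ 2) := by
    intro z u
    apply hpt z u _ (by positivity)
    have := hk (z - u)
    rwa [him] at this
  have hcont : ∀ z : ℂ, Continuous (fun u : ℝ => (F u : ℂ) * kap (z - u)) := by
    intro z
    exact (Complex.continuous_ofReal.comp hFc).mul
      (differentiable_kap.continuous.comp (continuous_const.sub Complex.continuous_ofReal))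
  have hint : ∀ z : ℂ, Integrable (fun u : ℝ => (F u : ℂ) * kap (z - u)) := by
    intro z
    refine Integrable.mono' ((integrable_shift z.re).const_mul
      (C * Real.exp |z.im| * (1 + |z.re|) ^ 2)) (hcont z).aestronglyMeasurable ?_
    exact Filter.Eventually.of_forall (hbd z)
  refine ⟨?_, ?_, ?_⟩
  · -- differentiability
    intro z₀
    have hderiv_cont : Continuous (deriv kap) :=
      (differentiable_kap.contDiff (n := 1)).continuous_deriv le_rfl
    have h := hasDerivAt_integral_of_dominated_loc_of_deriv_le (μ := volume)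
      (F := fun (z : ℂ) (u : ℝ) => (F u : ℂ) * kap (z - u))
      (F' := fun (z : ℂ) (u : ℝ) => (F u : ℂ) * deriv kap (z - u))
      (bound := fun u : ℝ => (16 * C * Real.exp (|z₀.im| + 1)) * (1 + |z₀.re|) ^ 2 *
        (1 / (1 + |z₀.re - u|) ^ 2))
      (x₀ := z₀) (Metric.ball_mem_nhds z₀ one_pos)
      (Filter.Eventually.of_forall fun z => (hcont z).aestronglyMeasurable)
      (hint z₀) ?_ ?_ ?_ ?_
    · exact (h.2.const_mul _).differentiableAt
    · apply Continuous.aestronglyMeasurable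
      exact (Complex.continuous_ofReal.comp hFc).mul
        (hderiv_cont.comp (continuous_const.sub Complex.continuous_ofReal))
    · refine Filter.Eventually.of_forall fun u z hz => ?_
      apply hpt z₀ u _ (by positivity)
      have h1 := hk' (z - u)
      rw [him] at h1
      refine h1.trans ?_
      have hz1 : ‖z - z₀‖ < 1 := by simpa [dist_eq_norm] using hz
      have h2 : |z.im| ≤ |z₀.im| + 1 := by
        have h2 : |(z - z₀).im| ≤ ‖z - z₀‖ := Complex.abs_im_le_norm _
        rw [Complex.sub_im] at h2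
        have h3 := abs_sub_abs_le_abs_sub z.im z₀.im
        linarith
      have h4 : 1 + ‖z₀ - u‖ ≤ 2 * (1 + ‖z - u‖) := by
        have h5 : ‖z₀ - u‖ ≤ ‖z - u‖ + ‖z - z₀‖ := by
          calc ‖z₀ - u‖ = ‖(z - u) - (z - z₀)‖ := by congr 1; ring
            _ ≤ _ := norm_sub_le _ _
        have := norm_nonneg (z - u)
        linarith
      have h6 : (1 + ‖z₀ - u‖) ^ 4 ≤ 16 * (1 + ‖z - u‖) ^ 4 := by
        calc (1 + ‖z₀ - u‖) ^ 4 ≤ (2 * (1 + ‖z - u‖)) ^ 4 := pow_le_pow_left₀ (by positivity) h4 4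
          _ = _ := by ring
      rw [div_le_div_iff₀ (by positivity) (by positivity)]
      calc C * Real.exp |z.im| * (1 + ‖z₀ - u‖) ^ 4
          ≤ C * Real.exp (|z₀.im| + 1) * (16 * (1 + ‖z - u‖) ^ 4) := by gcongr
        _ = _ := by ring
    · exact (integrable_shift z₀.re).const_mul _
    · refine Filter.Eventually.of_forall fun u z _ => ?_
      have h1 : HasDerivAt kap (deriv kap (z - u)) (z - u) :=
        (differentiable_kap (z - u)).hasDerivAt
      have h2 : HasDerivAt (fun z : ℂ => kap (z - u)) (deriv kap (z - u)) z := by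
        have h3 := h1.comp z ((hasDerivAt_id z).sub_const (u:ℂ))
        rw [mul_one] at h3
        exact h3
      exact h2.const_mul _
  · -- growth
    refine ⟨‖(1 / (I0 : ℂ))‖ * (C * ∫ v : ℝ, 1 / (1 + |v|) ^ 2), fun z => ?_⟩
    unfold conv
    rw [norm_mul]
    have h1 : ‖∫ u : ℝ, (F u : ℂ) * kap (z - u)‖ ≤
        ∫ u : ℝ, C * Real.exp |z.im| * (1 + |z.re|) ^ 2 * (1 / (1 + |z.re - u|) ^ 2) :=
      norm_integral_le_of_norm_le ((integrable_shift z.re).const_mul _)
        (Filter.Eventually.of_forall (hbd z))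
    rw [integral_const_mul] at h1
    have h2 : ∫ u : ℝ, 1 / (1 + |z.re - u|) ^ 2 = ∫ v : ℝ, 1 / (1 + |v|) ^ 2 :=
      integral_sub_left_eq_self (fun v : ℝ => 1 / (1 + |v|) ^ 2) volume z.re
    rw [h2] at h1
    have h3 : 0 ≤ ∫ v : ℝ, 1 / (1 + |v|) ^ 2 := integral_nonneg fun v => by positivity
    have h4 : (1 + |z.re|) ^ 2 ≤ (1 + ‖z‖) ^ 2 :=
      pow_le_pow_left₀ (by positivity) (by linarith [Complex.abs_re_le_norm z]) 2
    calc ‖(1 / (I0 : ℂ))‖ * ‖∫ u : ℝ, (F u : ℂ) * kap (z - u)‖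
        ≤ ‖(1 / (I0 : ℂ))‖ * (C * Real.exp |z.im| * (1 + ‖z‖) ^ 2 * ∫ v : ℝ, 1 / (1 + |v|) ^ 2) := by
          apply mul_le_mul_of_nonneg_left _ (norm_nonneg _)
          refine h1.trans ?_
          gcongr
      _ = _ := by ring
  · -- on the real line
    intro x
    unfold conv
    have h1 : (fun u : ℝ => (F u : ℂ) * kap ((x:ℂ) - u)) =
        fun u : ℝ => (((fun v : ℝ => F (x - v) * Real.sinc (v / 4) ^ 4) (x - u) : ℝ) : ℂ) := by
      funext u
      rw [show (x:ℂ) - u = ((x - u : ℝ) : ℂ) by push_cast; rfl, kap_ofReal]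
      simp only [sub_sub_cancel]
      push_cast
      rfl
    rw [h1, integral_complex_ofReal,
      integral_sub_left_eq_self (fun v : ℝ => F (x - v) * Real.sinc (v / 4) ^ 4) volume x]
    push_cast
    rfl

end Pool.Agent.H293.HA
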