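import Pool.Agent.H293.HA.PL

/-!
# Limits of uniformly bounded sequences of entire functions along an ultrafilter
-/

set_option autoImplicit false

open Filter Asymptotics Topology

namespace Pool.Agent.H293.HA

lemma exists_ultralim {U : Ultrafilter ℕ} {f : ℕ → ℂ} {M : ℝ}
    (h : ∀ᶠ n in (U : Filter ℕ), ‖f n‖ ≤ M) : ∃ a : ℂ, Tendsto f U (𝓝 a) := by
  have hc := (isCompact_closedBall (0:ℂ) M).ultrafilter_le_nhds (U.map f) (by
    rw [le_principal_iff, Ultrafilter.coe_map, mem_map]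
    filter_upwards [h] with n hn
    simpa using hn)
  obtain ⟨a, _, ha⟩ := hc
  exact ⟨a, ha⟩

lemma exists_ultralim_real {U : Ultrafilter ℕ} {f : ℕ → ℝ} {M : ℝ}
    (h : ∀ᶠ n in (U : Filter ℕ), |f n| ≤ M) : ∃ a : ℝ, Tendsto f U (𝓝 a) := by
  have hc := (isCompact_closedBall (0:ℝ) M).ultrafilter_le_nhds (U.map f) (by
    rw [le_principal_iff, Ultrafilter.coe_map, mem_map]
    filter_upwards [h] with n hn
    simpa using hn)
  obtain ⟨a, _, ha⟩ := hc
  exact ⟨a, ha⟩

/-- the coefficient sequence -/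
noncomputable def co (Q : ℕ → ℂ → ℂ) (k n : ℕ) : ℂ :=
  ((k.factorial : ℂ))⁻¹ * iteratedDeriv k (Q n) 0

/-- the bound on a disc -/
noncomputable def MB (K R : ℝ) : ℝ := K * (1 + R) ^ 2 * Real.exp R

lemma co_bound {Q : ℂ → ℂ} {K : ℝ} (hd : Differentiable ℂ Q)
    (hb : ∀ z, ‖Q z‖ ≤ K * (1 + ‖z‖) ^ 2 * Real.exp |z.im|) (k : ℕ) {R : ℝ} (hR : 0 < R) :
    ‖((k.factorial : ℂ))⁻¹ * iteratedDeriv k Q 0‖ ≤ MB K R / R ^ k := by
  have hK : 0 ≤ K := by
    have := hb 0
    simp at this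
    exact le_trans (norm_nonneg _) this
  have h1 := Complex.norm_iteratedDeriv_le_of_forall_mem_sphere_norm_le (f := Q) (c := 0)
    (R := R) (C := MB K R) k hR hd.diffContOnCl (fun z hz => by
      have hz' : ‖z‖ = R := by simpa using hz
      refine (hb z).trans ?_
      unfold MB
      rw [hz']
      have : |z.im| ≤ R := hz' ▸ Complex.abs_im_le_norm z
      gcongr)
  rw [norm_mul, norm_inv, Complex.norm_natCast]
  have hk : (0:ℝ) < (k.factorial : ℝ) := by exact_mod_cast k.factorial_pos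
  rw [inv_mul_le_iff₀ hk]
  calc ‖iteratedDeriv k Q 0‖ ≤ k.factorial * MB K R / R ^ k := h1
    _ = k.factorial * (MB K R / R ^ k) := by ring

lemma taylor_sum {Q : ℂ → ℂ} (hd : Differentiable ℂ Q) (z : ℂ) :
    Q z = ∑' k : ℕ, ((k.factorial : ℂ))⁻¹ * iteratedDeriv k Q 0 * z ^ k := by
  have h := Complex.hasSum_taylorSeries_of_entire hd 0 z
  rw [← h.tsum_eq]
  congr 1
  funext k
  simp only [smul_eq_mul, sub_zero]
  ring

/-- **Normal families.** A uniformly bounded sequence of entire functions has, along every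
ultrafilter, an entire limit, with continuous convergence. -/
theorem exists_limit (U : Ultrafilter ℕ) (Q : ℕ → ℂ → ℂ) (K : ℝ)
    (hQ : ∀ᶠ n in (U : Filter ℕ), Differentiable ℂ (Q n) ∧
      ∀ z, ‖Q n z‖ ≤ K * (1 + ‖z‖) ^ 2 * Real.exp |z.im|) :
    ∃ L : ℂ → ℂ, Differentiable ℂ L ∧ (∀ z, ‖L z‖ ≤ K * (1 + ‖z‖) ^ 2 * Real.exp |z.im|) ∧
      ∀ (w : ℕ → ℂ) (z : ℂ), Tendsto w U (𝓝 z) → Tendsto (fun n => Q n (w n)) U (𝓝 (L z)) := by
  have hcb : ∀ (k : ℕ) (R : ℝ), 0 < R → ∀ᶠ n in (U : Filter ℕ), ‖co Q k n‖ ≤ MB K R / R ^ k := by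
    intro k R hR
    filter_upwards [hQ] with n hn
    exact co_bound hn.1 hn.2 k hR
  have hlim : ∀ k : ℕ, ∃ a : ℂ, Tendsto (co Q k) U (𝓝 a) := fun k =>
    exists_ultralim (hcb k 1 one_pos)
  choose a ha using hlim
  have hab : ∀ (k : ℕ) (R : ℝ), 0 < R → ‖a k‖ ≤ MB K R / R ^ k := fun k R hR =>
    le_of_tendsto (ha k).norm (hcb k R hR)
  have hconv : ∀ (w : ℕ → ℂ) (z : ℂ), Tendsto w U (𝓝 z) →
      Tendsto (fun n => Q n (w n)) U (𝓝 (∑' k : ℕ, a k * z ^ k)) := by
    intro w z hw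
    set R : ℝ := 2 * (‖z‖ + 1) with hR
    have hR0 : 0 < R := by positivity
    have h1 : Tendsto (fun n => ∑' k : ℕ, co Q k n * (w n) ^ k) U (𝓝 (∑' k : ℕ, a k * z ^ k)) := by
      apply tendsto_tsum_of_dominated_convergence (bound := fun k : ℕ => MB K R * (1 / 2 : ℝ) ^ k)
      · exact (summable_geometric_of_lt_one (by norm_num) (by norm_num)).mul_left _
      · intro k
        exact (ha k).mul (hw.pow k)
      · have h2 : ∀ᶠ n in (U : Filter ℕ), ‖w n‖ ≤ ‖z‖ + 1 := by
          have h3 := hw.norm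
          filter_upwards [h3.eventually (gt_mem_nhds (show ‖z‖ < ‖z‖ + 1 by linarith))] with n hn
          exact hn.le
        filter_upwards [hQ, h2] with n hn hn2 k
        rw [norm_mul, norm_pow]
        have h4 := co_bound hn.1 hn.2 k hR0
        calc ‖co Q k n‖ * ‖w n‖ ^ k ≤ (MB K R / R ^ k) * (‖z‖ + 1) ^ k := by
              apply mul_le_mul h4 (pow_le_pow_left₀ (norm_nonneg _) hn2 k) (by positivity)
              exact le_trans (norm_nonneg _) h4
          _ = MB K R * (1 / 2 : ℝ) ^ k := by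
              rw [hR, mul_pow, div_pow, one_pow]
              have : (0:ℝ) < ‖z‖ + 1 := by positivity
              field_simp
    refine h1.congr' ?_
    filter_upwards [hQ] with n hn
    exact (taylor_sum hn.1 (w n)).symm
  refine ⟨fun z => ∑' k : ℕ, a k * z ^ k, ?_, ?_, hconv⟩
  · intro z
    have hd : DifferentiableOn ℂ (fun z => ∑' k : ℕ, a k * z ^ k) (Metric.ball 0 (‖z‖ + 1)) := by
      apply Complex.differentiableOn_tsum_of_summable_norm
        (u := fun k : ℕ => MB K (2 * (‖z‖ + 1)) * (1 / 2 : ℝ) ^ k)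
      · exact (summable_geometric_of_lt_one (by norm_num) (by norm_num)).mul_left _
      · intro k
        fun_prop
      · exact Metric.isOpen_ball
      · intro k w hw
        have hw' : ‖w‖ ≤ ‖z‖ + 1 := by
          have : ‖w‖ < ‖z‖ + 1 := by simpa using hw
          exact this.le
        have h4 := hab k (2 * (‖z‖ + 1)) (by positivity)
        rw [norm_mul, norm_pow]
        calc ‖a k‖ * ‖w‖ ^ k ≤ (MB K (2 * (‖z‖ + 1)) / (2 * (‖z‖ + 1)) ^ k) * (‖z‖ + 1) ^ k := by
              apply mul_le_mul h4 (pow_le_pow_left₀ (norm_nonneg _) hw' k) (by positivity)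
              exact le_trans (norm_nonneg _) h4
          _ = MB K (2 * (‖z‖ + 1)) * (1 / 2 : ℝ) ^ k := by
              rw [mul_pow, div_pow, one_pow]
              have : (0:ℝ) < ‖z‖ + 1 := by positivity
              field_simp
    exact hd.differentiableAt (Metric.isOpen_ball.mem_nhds (by simp))
  · intro z
    refine le_of_tendsto (hconv (fun _ => z) z tendsto_const_nhds).norm ?_
    filter_upwards [hQ] with n hn
    exact hn.2 z

end Pool.Agent.H293.HA
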