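import Pool.Agent.H293.HA.Low

/-!
# Lower bound for `(1 - x²)^λ`
-/

set_option autoImplicit false

open Filter Asymptotics Topology Set

namespace Pool.Agent.H293.HA

/-- feasibility for `(1 - x²)^λ` -/
def FeasT (lam c : ℝ) (Q : ℂ → ℂ) : Prop :=
  ExpType 1 Q ∧ (∀ z : ℂ, Q (-z) = Q z) ∧ (∀ x : ℝ, (Q x).im = 0) ∧
  (∀ s : ℝ, ∃ t : ℝ, |s ^ 2 - t ^ 2| ≤ c ∧ (Q s).re = (t ^ 2) ^ lam) ∧
  (∀ t : ℝ, ∃ s : ℝ, |s ^ 2 - t ^ 2| ≤ c ∧ (Q s).re = (t ^ 2) ^ lam)

theorem lowerT (U : Ultrafilter ℕ) (hU : (U : Filter ℕ) ≤ atTop) {lam α c : ℝ}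
    (hl : 0 < lam) (hl1 : lam < 1) (hc0 : 0 < c) (hα : 0 < α)
    (hP : ∀ᶠ n : ℕ in (U : Filter ℕ), ∃ P : Polynomial ℝ, P.natDegree ≤ n ∧
      Close α (c / (2 * n ^ 2 * α)) (fun x => (1 - x ^ 2) ^ lam) (fun x => P.eval x)) :
    ∃ Q, FeasT lam c Q := by
  classical
  set P : ℕ → Polynomial ℝ := fun n => if h : ∃ P : Polynomial ℝ, P.natDegree ≤ n ∧
      Close α (c / (2 * n ^ 2 * α)) (fun x => (1 - x ^ 2) ^ lam) (fun x => P.eval x)
      then h.choose else 0 with hPdef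
  have hP' : ∀ᶠ n : ℕ in (U : Filter ℕ), 1 ≤ n ∧ (P n).natDegree ≤ n ∧
      Close α (c / (2 * n ^ 2 * α)) (fun x => (1 - x ^ 2) ^ lam) (fun x => (P n).eval x) := by
    filter_upwards [hP, hU (eventually_ge_atTop 1)] with n hn hn1
    refine ⟨hn1, ?_⟩
    have : P n = hn.choose := by rw [hPdef]; simp only [dif_pos hn]
    rw [this]
    exact hn.choose_spec
  set Q : ℕ → ℂ → ℂ := fun n z =>
    (((n:ℝ) ^ (2 * lam) : ℝ) : ℂ) * Pc (P n) (Complex.cos (z / n)) with hQ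
  have hQreal : ∀ (n : ℕ) (s : ℝ), Q n s =
      (((n:ℝ) ^ (2 * lam) * (P n).eval (Real.cos (s / n)) : ℝ) : ℂ) := by
    intro n s
    rw [hQ]
    simp only
    rw [show (s:ℂ) / (n:ℂ) = ((s / n : ℝ) : ℂ) by push_cast; rfl, ← Complex.ofReal_cos, Pc_real]
    push_cast
    rfl
  have hpow : ∀ n : ℕ, 1 ≤ n → (n:ℝ) ^ (2 * lam) = ((n:ℝ) ^ 2) ^ lam := by
    intro n hn
    rw [Real.rpow_mul (by positivity), Real.rpow_two]
  -- (i) for each n
  have hI : ∀ᶠ n : ℕ in (U : Filter ℕ), ∀ s : ℝ, ∃ t : ℝ,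
      |((n:ℝ) * Real.sin (s / n)) ^ 2 - t ^ 2| ≤ c ∧
      |(t ^ 2) ^ lam - (Q n s).re| ≤ (n:ℝ) ^ (2 * lam) * (c / (2 * n ^ 2 * α)) := by
    filter_upwards [hP'] with n hn s
    obtain ⟨hn1, _, _, hc⟩ := hn
    have hn0 : (0:ℝ) < n := by exact_mod_cast hn1
    obtain ⟨x, hx, h1, h2⟩ := hc (Real.cos (s / n)) (Real.cos_mem_Icc _)
    have hαδ : α * (c / (2 * n ^ 2 * α)) = c / (2 * n ^ 2) := by field_simp
    rw [hαδ] at h1
    have hx2 : 0 ≤ 1 - x ^ 2 := by nlinarith [hx.1, hx.2]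
    have ht2 : ((n:ℝ) * Real.sqrt (1 - x ^ 2)) ^ 2 = (n:ℝ) ^ 2 * (1 - x ^ 2) := by
      rw [mul_pow, Real.sq_sqrt hx2]
    refine ⟨n * Real.sqrt (1 - x ^ 2), ?_, ?_⟩
    · rw [ht2]
      have h3 : ((n:ℝ) * Real.sin (s / n)) ^ 2 - (n:ℝ) ^ 2 * (1 - x ^ 2) =
          -((n:ℝ) ^ 2 * ((Real.cos (s / n) - x) * (Real.cos (s / n) + x))) := by
        have := Real.sin_sq_add_cos_sq (s / n)
        linear_combination (n:ℝ) ^ 2 * this
      rw [h3, abs_neg, abs_mul, abs_mul, abs_of_nonneg (by positivity : (0:ℝ) ≤ (n:ℝ) ^ 2)]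
      have h4 : |Real.cos (s / n) + x| ≤ 2 := by
        refine (abs_add_le _ _).trans ?_
        have := Real.abs_cos_le_one (s / n)
        have h5 : |x| ≤ 1 := abs_le.2 hx
        linarith
      calc (n:ℝ) ^ 2 * (|Real.cos (s / n) - x| * |Real.cos (s / n) + x|)
          ≤ (n:ℝ) ^ 2 * (c / (2 * n ^ 2) * 2) := by gcongr
        _ = c := by field_simp
    · rw [ht2, hQreal, Complex.ofReal_re, Real.mul_rpow (by positivity) hx2, ← hpow n hn1, ← mul_sub,
        abs_mul, abs_of_nonneg (by positivity : (0:ℝ) ≤ (n:ℝ) ^ (2 * lam))]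
      exact mul_le_mul_of_nonneg_left h2 (by positivity)
  have hvn : ∀ n : ℕ, 1 ≤ n → (n:ℝ) ^ (2 * lam) * (c / (2 * n ^ 2 * α)) ≤ c / α := by
    intro n hn1
    have hn0 : (0:ℝ) < n := by exact_mod_cast hn1
    have h13 : (n:ℝ) ^ (2 * lam) ≤ (n:ℝ) ^ 2 := by
      rw [← Real.rpow_two]
      exact Real.rpow_le_rpow_of_exponent_le (by exact_mod_cast hn1) (by linarith)
    calc (n:ℝ) ^ (2 * lam) * (c / (2 * n ^ 2 * α)) ≤ (n:ℝ) ^ 2 * (c / (2 * n ^ 2 * α)) :=
          mul_le_mul_of_nonneg_right h13 (by positivity)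
      _ = c / α / 2 := by field_simp
      _ ≤ c / α := by
          have : 0 < c / α := by positivity
          linarith
  set A : ℝ := 1 + c + c / α with hA
  have hgrow : ∀ᶠ n : ℕ in (U : Filter ℕ), ∀ s : ℝ, ‖Q n s‖ ≤ A * (1 + |s|) ^ 2 := by
    filter_upwards [hP', hI] with n hn hi s
    have hn0 : (0:ℝ) < n := by exact_mod_cast hn.1
    obtain ⟨t, h1, h2⟩ := hi s
    have h3 : ‖Q n s‖ = |(Q n s).re| := by
      rw [hQreal, Complex.norm_real, Complex.ofReal_re, Real.norm_eq_abs]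
    rw [h3]
    have h4 : |(Q n s).re| ≤ (t ^ 2) ^ lam + c / α := by
      have h5 := abs_sub_abs_le_abs_sub (Q n s).re ((t ^ 2) ^ lam)
      rw [abs_sub_comm] at h5
      rw [abs_of_nonneg (by positivity : (0:ℝ) ≤ (t ^ 2) ^ lam)] at h5
      linarith [hvn n hn.1]
    have h6 : ((n:ℝ) * Real.sin (s / n)) ^ 2 ≤ s ^ 2 := by
      have h7 := Real.abs_sin_le_abs (x := s / n)
      rw [abs_div, abs_of_pos hn0] at h7
      have h8 : |(n:ℝ) * Real.sin (s / n)| ≤ |s| := by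
        rw [abs_mul, abs_of_pos hn0]
        calc (n:ℝ) * |Real.sin (s / n)| ≤ n * (|s| / n) := mul_le_mul_of_nonneg_left h7 hn0.le
          _ = |s| := by field_simp
      rw [← sq_abs ((n:ℝ) * Real.sin (s / n)), ← sq_abs s]
      exact pow_le_pow_left₀ (abs_nonneg _) h8 2
    have h9 : (t ^ 2) ^ lam ≤ 1 + (s ^ 2 + c) := by
      have h10 : t ^ 2 ≤ 1 + (s ^ 2 + c) := by
        have := abs_le.1 h1
        linarith [this.1]
      calc (t ^ 2) ^ lam ≤ (1 + (s ^ 2 + c)) ^ lam := Real.rpow_le_rpow (by positivity) h10 hl.le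
        _ ≤ (1 + (s ^ 2 + c)) ^ (1:ℝ) := by
            apply Real.rpow_le_rpow_of_exponent_le _ hl1.le
            have := sq_nonneg s
            linarith
        _ = _ := Real.rpow_one _
    have h15 : 0 ≤ |s| := abs_nonneg s
    have h16 : 0 < c / α := by positivity
    have h17 : (1:ℝ) ≤ (1 + |s|) ^ 2 := by nlinarith
    have h18 : 1 + s ^ 2 ≤ (1 + |s|) ^ 2 := by nlinarith [sq_abs s]
    rw [hA]
    nlinarith
  have hQall : ∀ᶠ n : ℕ in (U : Filter ℕ), Differentiable ℂ (Q n) ∧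
      ∀ z, ‖Q n z‖ ≤ 2 * A * (1 + ‖z‖) ^ 2 * Real.exp |z.im| := by
    filter_upwards [hP', hgrow] with n hn hg
    have hE : ExpType 1 (Q n) := expType_scaled Complex.differentiable_cos norm_cos_le hn.1 hn.2.1 _
    refine ⟨hE.1, fun z => ?_⟩
    have := pl_bound zero_le_one hE hg z
    rwa [one_mul] at this
  obtain ⟨L, hLd, hLb, hLc⟩ := exists_limit U Q (2 * A) hQall
  have hv : Tendsto (fun n : ℕ => (n:ℝ) ^ (2 * lam) * (c / (2 * n ^ 2 * α))) U (𝓝 0) := by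
    have h1 : Tendsto (fun n : ℕ => (n:ℝ) ^ (-(2 - 2 * lam)) * (c / (2 * α))) atTop
        (𝓝 (0 * (c / (2 * α)))) :=
      ((tendsto_rpow_neg_atTop (by linarith : 0 < 2 - 2 * lam)).comp
        tendsto_natCast_atTop_atTop).mul_const _
    rw [zero_mul] at h1
    refine (h1.mono_left hU).congr' ?_
    filter_upwards [hU (eventually_ge_atTop 1)] with n hn
    have hn0 : (0:ℝ) < n := by exact_mod_cast (show 0 < n from hn)
    rw [show -(2 - 2 * lam) = 2 * lam - 2 by ring, Real.rpow_sub hn0, Real.rpow_two]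
    field_simp
  refine ⟨L, expType_of_bound hLd hLb, ?_, ?_, ?_, ?_⟩
  · intro z
    have h1 := hLc (fun _ => -z) (-z) tendsto_const_nhds
    have h2 := hLc (fun _ => z) z tendsto_const_nhds
    have h3 : (fun n => Q n (-z)) = fun n => Q n z := by
      funext n
      rw [hQ]
      simp only
      rw [neg_div, Complex.cos_neg]
    rw [h3] at h1
    exact tendsto_nhds_unique h1 h2
  · intro x
    have h1 : Tendsto (fun n => (Q n x).im) U (𝓝 (L x).im) :=
      (Complex.continuous_im.tendsto _).comp (hLc (fun _ => (x:ℂ)) x tendsto_const_nhds)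
    have h2 : (fun n => (Q n x).im) = fun _ => 0 := by
      funext n
      rw [hQreal]
      exact Complex.ofReal_im _
    rw [h2] at h1
    exact (tendsto_nhds_unique h1 tendsto_const_nhds)
  · intro s
    have hex : ∀ᶠ n : ℕ in (U : Filter ℕ), ∃ t : ℝ,
      |((n:ℝ) * Real.sin (s / n)) ^ 2 - t ^ 2| ≤ c ∧
      |(t ^ 2) ^ lam - (Q n s).re| ≤ (n:ℝ) ^ (2 * lam) * (c / (2 * n ^ 2 * α)) :=
      hI.mono fun n hn => hn s
    set t : ℕ → ℝ := fun n => if h : ∃ t : ℝ,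
      |((n:ℝ) * Real.sin (s / n)) ^ 2 - t ^ 2| ≤ c ∧
      |(t ^ 2) ^ lam - (Q n s).re| ≤ (n:ℝ) ^ (2 * lam) * (c / (2 * n ^ 2 * α))
      then h.choose else 0 with htdef
    have ht : ∀ᶠ n : ℕ in (U : Filter ℕ), |((n:ℝ) * Real.sin (s / n)) ^ 2 - t n ^ 2| ≤ c ∧
      |(t n ^ 2) ^ lam - (Q n s).re| ≤ (n:ℝ) ^ (2 * lam) * (c / (2 * n ^ 2 * α)) := by
      filter_upwards [hex] with n hn
      have : t n = hn.choose := by rw [htdef]; simp only [dif_pos hn]
      rw [this]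
      exact hn.choose_spec
    have hns := tendsto_n_sin hU (s := fun _ => s) tendsto_const_nhds
    have hns2 := hns.pow 2
    have hbd : ∀ᶠ n : ℕ in (U : Filter ℕ), |t n| ≤ 1 + (s ^ 2 + 1 + c) := by
      have h3 : ∀ᶠ n : ℕ in (U : Filter ℕ), ((n:ℝ) * Real.sin (s / n)) ^ 2 < s ^ 2 + 1 :=
        hns2.eventually (gt_mem_nhds (by linarith))
      filter_upwards [ht, h3] with n hn h4
      have h5 := (abs_le.1 hn.1).1
      have h6 : |t n| ^ 2 ≤ s ^ 2 + 1 + c := by rw [sq_abs]; linarith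
      nlinarith [abs_nonneg (t n), sq_nonneg (|t n| - 1), sq_nonneg s]
    obtain ⟨t₀, ht₀⟩ := exists_ultralim_real hbd
    refine ⟨t₀, ?_, ?_⟩
    · refine le_of_tendsto (hns2.sub (ht₀.pow 2)).abs ?_
      filter_upwards [ht] with n hn
      exact hn.1
    · have h5 : Tendsto (fun n => |(t n ^ 2) ^ lam - (Q n s).re|) U
          (𝓝 |(t₀ ^ 2) ^ lam - (L s).re|) :=
        (((ht₀.pow 2).rpow_const (Or.inr hl.le)).sub ((Complex.continuous_re.tendsto _).comp
          (hLc (fun _ => (s:ℂ)) s tendsto_const_nhds))).abs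
      have h6 : |(t₀ ^ 2) ^ lam - (L s).re| ≤ 0 := by
        refine le_of_tendsto_of_tendsto h5 hv ?_
        filter_upwards [ht] with n hn
        exact hn.2
      have h7 := abs_eq_zero.1 (le_antisymm h6 (abs_nonneg _))
      linarith
  · intro t
    have hex : ∀ᶠ n : ℕ in (U : Filter ℕ), ∃ s : ℝ, |s| ≤ 8 * (t ^ 2 + c) + 1 ∧
        |((n:ℝ) * Real.sin (s / n)) ^ 2 - t ^ 2| ≤ c ∧
        |(t ^ 2) ^ lam - (Q n s).re| ≤ (n:ℝ) ^ (2 * lam) * (c / (2 * n ^ 2 * α)) := by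
      filter_upwards [hP', hU (tendsto_natCast_atTop_atTop.eventually (eventually_ge_atTop |t|))]
        with n hn hnt
      obtain ⟨hn1, _, hc, _⟩ := hn
      have hn0 : (0:ℝ) < n := by exact_mod_cast hn1
      have ha : t ^ 2 / n ^ 2 ≤ 1 := by
        rw [div_le_one (by positivity), ← sq_abs t]
        exact pow_le_pow_left₀ (abs_nonneg _) hnt 2
      have ha0 : 0 ≤ t ^ 2 / (n:ℝ) ^ 2 := by positivity
      set x : ℝ := Real.sqrt (1 - t ^ 2 / n ^ 2) with hxd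
      have hx2 : x ^ 2 = 1 - t ^ 2 / n ^ 2 := Real.sq_sqrt (by linarith)
      have hx0 : 0 ≤ x := Real.sqrt_nonneg _
      have hx1 : x ≤ 1 := by nlinarith
      obtain ⟨y, hy, h1, h2⟩ := hc x ⟨by linarith, hx1⟩
      have hαδ : α * (c / (2 * n ^ 2 * α)) = c / (2 * n ^ 2) := by field_simp
      rw [hαδ] at h1
      have hcos : Real.cos ((n:ℝ) * Real.arccos y / n) = y := by
        rw [mul_div_cancel_left₀ _ hn0.ne', Real.cos_arccos hy.1 hy.2]
      have hsn : Real.sin ((n:ℝ) * Real.arccos y / n) ^ 2 = 1 - y ^ 2 := by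
        have := Real.sin_sq_add_cos_sq ((n:ℝ) * Real.arccos y / n)
        rw [hcos] at this
        linarith
      refine ⟨n * Real.arccos y, ?_, ?_, ?_⟩
      · have h3 : Real.arccos y ^ 2 ≤ 8 * (1 - y) := by
          have h4 := Real.cos_le_one_sub_mul_cos_sq (x := Real.arccos y)
            (by rw [abs_of_nonneg (Real.arccos_nonneg _)]; exact Real.arccos_le_pi _)
          rw [Real.cos_arccos hy.1 hy.2] at h4
          have h5 : 2 / Real.pi ^ 2 * Real.arccos y ^ 2 ≤ 1 - y := by linarith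
          have h6 : Real.pi ^ 2 ≤ 16 := by nlinarith [Real.pi_le_four, Real.pi_pos]
          have h7 : Real.arccos y ^ 2 = Real.pi ^ 2 / 2 * (2 / Real.pi ^ 2 * Real.arccos y ^ 2) := by
            have := Real.pi_pos
            field_simp
          rw [h7]
          have h8 : 0 ≤ 2 / Real.pi ^ 2 * Real.arccos y ^ 2 := by positivity
          nlinarith [Real.pi_pos]
        have h9 : 1 - x ≤ t ^ 2 / n ^ 2 := by nlinarith
        have h10 : 1 - y ≤ t ^ 2 / n ^ 2 + c / (2 * n ^ 2) := by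
          have := (abs_le.1 h1).2
          linarith
        have h11 : ((n:ℝ) * Real.arccos y) ^ 2 ≤ 8 * (t ^ 2 + c) := by
          rw [mul_pow]
          calc (n:ℝ) ^ 2 * Real.arccos y ^ 2 ≤ (n:ℝ) ^ 2 * (8 * (1 - y)) := by gcongr
            _ ≤ (n:ℝ) ^ 2 * (8 * (t ^ 2 / n ^ 2 + c / (2 * n ^ 2))) := by gcongr
            _ = 8 * (t ^ 2 + c / 2) := by field_simp
            _ ≤ 8 * (t ^ 2 + c) := by linarith
        have h12 : 0 ≤ (n:ℝ) * Real.arccos y := mul_nonneg hn0.le (Real.arccos_nonneg _)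
        rw [abs_of_nonneg h12]
        nlinarith
      · rw [mul_pow, hsn]
        have h3 : (n:ℝ) ^ 2 * (1 - y ^ 2) - t ^ 2 = (n:ℝ) ^ 2 * ((x - y) * (x + y)) := by
          have : (x - y) * (x + y) = (1 - t ^ 2 / n ^ 2) - y ^ 2 := by rw [← hx2]; ring
          rw [this]
          field_simp
          ring
        rw [h3, abs_mul, abs_mul, abs_of_nonneg (by positivity : (0:ℝ) ≤ (n:ℝ) ^ 2)]
        have h4 : |x + y| ≤ 2 := by
          rw [abs_le]
          constructor <;> linarith [hy.1, hy.2]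
        calc (n:ℝ) ^ 2 * (|x - y| * |x + y|)
            ≤ (n:ℝ) ^ 2 * (c / (2 * n ^ 2) * 2) := by gcongr
          _ = c := by field_simp
      · have h7 : (t ^ 2) ^ lam = (n:ℝ) ^ (2 * lam) * (1 - x ^ 2) ^ lam := by
          rw [hpow n hn1, hx2, ← Real.mul_rpow (by positivity) (by linarith)]
          congr 1
          field_simp
          ring
        rw [hQreal, Complex.ofReal_re, hcos, h7, ← mul_sub, abs_mul,
          abs_of_nonneg (by positivity : (0:ℝ) ≤ (n:ℝ) ^ (2 * lam))]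
        exact mul_le_mul_of_nonneg_left h2 (by positivity)
    set s : ℕ → ℝ := fun n => if h : ∃ s : ℝ, |s| ≤ 8 * (t ^ 2 + c) + 1 ∧
        |((n:ℝ) * Real.sin (s / n)) ^ 2 - t ^ 2| ≤ c ∧
        |(t ^ 2) ^ lam - (Q n s).re| ≤ (n:ℝ) ^ (2 * lam) * (c / (2 * n ^ 2 * α))
        then h.choose else 0 with hsdef
    have hs : ∀ᶠ n : ℕ in (U : Filter ℕ), |s n| ≤ 8 * (t ^ 2 + c) + 1 ∧
        |((n:ℝ) * Real.sin (s n / n)) ^ 2 - t ^ 2| ≤ c ∧
        |(t ^ 2) ^ lam - (Q n (s n)).re| ≤ (n:ℝ) ^ (2 * lam) * (c / (2 * n ^ 2 * α)) := by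
      filter_upwards [hex] with n hn
      have : s n = hn.choose := by rw [hsdef]; simp only [dif_pos hn]
      rw [this]
      exact hn.choose_spec
    obtain ⟨s₀, hs₀⟩ := exists_ultralim_real (hs.mono fun n hn => hn.1)
    have hns := tendsto_n_sin hU hs₀
    refine ⟨s₀, ?_, ?_⟩
    · refine le_of_tendsto ((hns.pow 2).sub_const (t ^ 2)).abs ?_
      filter_upwards [hs] with n hn
      exact hn.2.1
    · have h5 : Tendsto (fun n => |(t ^ 2) ^ lam - (Q n (s n)).re|) U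
          (𝓝 |(t ^ 2) ^ lam - (L s₀).re|) :=
        (tendsto_const_nhds.sub ((Complex.continuous_re.tendsto _).comp
          (hLc (fun n => (s n : ℂ)) s₀ ((Complex.continuous_ofReal.tendsto _).comp hs₀)))).abs
      have h6 : |(t ^ 2) ^ lam - (L s₀).re| ≤ 0 := by
        refine le_of_tendsto_of_tendsto h5 hv ?_
        filter_upwards [hs] with n hn
        exact hn.2.2
      have h7 := abs_eq_zero.1 (le_antisymm h6 (abs_nonneg _))
      linarith

end Pool.Agent.H293.HA
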