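import Pool.Agent.H293.HA.Pos

/-!
# The extremal problems are feasible
-/

set_option autoImplicit false

open Filter Asymptotics Topology Set MeasureTheory

namespace Pool.Agent.H293.HA

lemma exists_c {l K : ℝ} (h0 : 0 < l) (h1 : l ≤ 1) (hK : 0 ≤ K) :
    ∃ c : ℝ, 1 ≤ c ∧ K ≤ (c / 2) ^ l ∧ ∀ X : ℝ, 0 ≤ X →
      K * (1 + X) ^ (l - 1) ≤ (X + c) ^ l - X ^ l := by
  refine ⟨max (max 1 (2 * K ^ (1 / l))) ((K / l) ^ (1 / l)), ?_, ?_, ?_⟩
  · exact le_trans (le_max_left _ _) (le_max_left _ _)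
  · set c := max (max 1 (2 * K ^ (1 / l))) ((K / l) ^ (1 / l)) with hc
    have e1 : K ^ (1 / l) ≤ c / 2 := by
      have : 2 * K ^ (1 / l) ≤ c := le_trans (le_max_right _ _) (le_max_left _ _)
      linarith
    calc K = (K ^ (1 / l)) ^ l := by
          rw [← Real.rpow_mul hK, one_div_mul_cancel h0.ne', Real.rpow_one]
      _ ≤ _ := Real.rpow_le_rpow (by positivity) e1 h0.le
  · intro X hX
    set c := max (max 1 (2 * K ^ (1 / l))) ((K / l) ^ (1 / l)) with hc
    have hc1 : 1 ≤ c := le_trans (le_max_left _ _) (le_max_left _ _)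
    have hc2 : (K / l) ^ (1 / l) ≤ c := le_max_right _ _
    have hc0 : 0 < c := by linarith
    have hcl : K ≤ l * c ^ l := by
      have e1 : K / l ≤ c ^ l := by
        calc K / l = ((K / l) ^ (1 / l)) ^ l := by
              rw [← Real.rpow_mul (by positivity), one_div_mul_cancel h0.ne', Real.rpow_one]
          _ ≤ _ := Real.rpow_le_rpow (by positivity) hc2 h0.le
      rw [div_le_iff₀ h0] at e1
      linarith
    have e2 := rpow_diff (x := X) (y := X + c) h0 h1 hX (by positivity)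
    rw [add_sub_cancel_left] at e2
    refine le_trans ?_ e2
    have e3 : (c * (1 + X)) ^ (l - 1) ≤ (X + c) ^ (l - 1) :=
      Real.rpow_le_rpow_of_nonpos (by positivity) (by nlinarith) (by linarith)
    rw [Real.mul_rpow hc0.le (by positivity)] at e3
    have e4 : l * c * (c ^ (l - 1) * (1 + X) ^ (l - 1)) = (l * c ^ l) * (1 + X) ^ (l - 1) := by
      rw [Real.rpow_sub hc0, Real.rpow_one]
      field_simp
    calc K * (1 + X) ^ (l - 1) ≤ (l * c ^ l) * (1 + X) ^ (l - 1) :=
          mul_le_mul_of_nonneg_right hcl (by positivity)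
      _ = l * c * (c ^ (l - 1) * (1 + X) ^ (l - 1)) := e4.symm
      _ ≤ l * c * (X + c) ^ (l - 1) := mul_le_mul_of_nonneg_left e3 (by positivity)

/-- the half-line matching lemma -/
lemma half_match {l K : ℝ} (h0 : 0 < l) (h1 : l ≤ 1) (hK : 0 ≤ K) {G : ℝ → ℝ} (hG : Continuous G)
    (hG0 : G 0 = 0) (hpos : ∀ x, 0 ≤ x → 0 ≤ G x)
    (herr : ∀ x, 0 ≤ x → |G x - x ^ l| ≤ K * (1 + x) ^ (l - 1)) :
    ∃ c : ℝ, 0 < c ∧ (∀ x, 0 ≤ x → ∃ y, 0 ≤ y ∧ |x - y| ≤ c ∧ G x = y ^ l) ∧
      (∀ y, 0 ≤ y → ∃ x, 0 ≤ x ∧ |x - y| ≤ c ∧ G x = y ^ l) := by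
  obtain ⟨c, hc1, -, hE⟩ := exists_c h0 h1 hK
  have hc0 : 0 < c := by linarith
  have hmon : ∀ x y : ℝ, 0 ≤ x → x ≤ y → K * (1 + y) ^ (l - 1) ≤ K * (1 + x) ^ (l - 1) := by
    intro x y hx hxy
    apply mul_le_mul_of_nonneg_left _ hK
    exact Real.rpow_le_rpow_of_nonpos (by positivity) (by linarith) (by linarith)
  refine ⟨c, hc0, ?_, ?_⟩
  · intro x hx
    have e1 := abs_le.1 (herr x hx)
    have e2 := hE x hx
    have hub : G x ≤ (x + c) ^ l := by linarith
    have hlb : (max (x - c) 0) ^ l ≤ G x := by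
      rcases le_total c x with h | h
      · rw [max_eq_left (by linarith)]
        have e3 := hE (x - c) (by linarith)
        rw [sub_add_cancel] at e3
        have e4 := hmon (x - c) x (by linarith) (by linarith)
        linarith
      · rw [max_eq_right (by linarith), Real.zero_rpow h0.ne']
        exact hpos x hx
    obtain ⟨y, hy, hy2⟩ := intermediate_value_Icc (a := max (x - c) 0) (b := x + c)
      (f := fun x : ℝ => x ^ l) (max_le (by linarith) (by linarith))
      ((continuous_id.rpow_const (fun _ => Or.inr h0.le)).continuousOn)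
      (show G x ∈ Icc _ _ from ⟨hlb, hub⟩)
    have hy0 : 0 ≤ y := le_trans (le_max_right _ _) hy.1
    have hy1 : x - c ≤ y := le_trans (le_max_left _ _) hy.1
    exact ⟨y, hy0, by rw [abs_le]; constructor <;> linarith [hy.2], hy2.symm⟩
  · intro y hy
    have e1 := abs_le.1 (herr (y + c) (by linarith))
    have e2 := hE y hy
    have e3 := hmon y (y + c) hy (by linarith)
    have hub : y ^ l ≤ G (y + c) := by linarith
    have hlb : G (max (y - c) 0) ≤ y ^ l := by
      rcases le_total c y with h | h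
      · rw [max_eq_left (by linarith)]
        have e4 := hE (y - c) (by linarith)
        rw [sub_add_cancel] at e4
        have e5 := abs_le.1 (herr (y - c) (by linarith))
        linarith
      · rw [max_eq_right (by linarith), hG0]
        positivity
    obtain ⟨x, hx, hx2⟩ := intermediate_value_Icc (a := max (y - c) 0) (b := y + c)
      (max_le (by linarith) (by linarith)) hG.continuousOn
      (show y ^ l ∈ Icc _ _ from ⟨hlb, hub⟩)
    have hx0 : 0 ≤ x := le_trans (le_max_right _ _) hx.1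
    have hx1 : y - c ≤ x := le_trans (le_max_left _ _) hx.1
    exact ⟨x, hx0, by rw [abs_le]; constructor <;> linarith [hx.2], hx2⟩

/-- a nonnegative even approximant vanishing at the origin -/
lemma exists_R {μ : ℝ} (h0 : 0 < μ) (h2 : μ < 2) :
    ∃ (R : ℂ → ℂ) (K : ℝ), 0 ≤ K ∧ ExpType 1 R ∧ (∀ z, R (-z) = R z) ∧ (∀ x : ℝ, (R x).im = 0) ∧
      (R 0).re = 0 ∧ (∀ x : ℝ, 0 ≤ (R x).re) ∧
      ∀ t : ℝ, 0 ≤ t → |(R t).re - t ^ μ| ≤ K * (1 + t) ^ (μ - 2) := by
  set F : ℝ → ℝ := fun t => |t| ^ μ with hF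
  have h : PT μ 1 F := by
    have := PT_abs (lam := μ / 2) (by linarith)
    rwa [show 2 * (μ / 2) = μ by ring] at this
  obtain ⟨hd, ⟨K₀, hK₀⟩, hR⟩ := conv_props (h.grow h0 h2)
  obtain ⟨K₁, hK₁, he⟩ := h.q_err h0 h2
  have hRq : ∀ x : ℝ, conv F x = ((q F x : ℝ) : ℂ) := hR
  obtain ⟨C, hC, hsb⟩ := exists_sinC_bound
  have hK₀0 : 0 ≤ K₀ := by
    have := hK₀ 0
    simp at this
    exact le_trans (norm_nonneg _) this
  have h2p : (0:ℝ) < 2 ^ μ := by positivity
  set R : ℂ → ℂ := fun z => (1 - sinC (z / 4) ^ 2) * (((2:ℝ) ^ μ : ℝ) : ℂ) * conv F (z / 2) with hRdef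
  have hRreal : ∀ x : ℝ, R x = (((1 - Real.sinc (x / 4) ^ 2) * 2 ^ μ * q F (x / 2) : ℝ) : ℂ) := by
    intro x
    rw [hRdef]
    simp only
    rw [show (x:ℂ) / 2 = ((x / 2 : ℝ) : ℂ) by push_cast; rfl,
      show (x:ℂ) / 4 = ((x / 4 : ℝ) : ℂ) by push_cast; rfl, hRq, sinC_ofReal]
    push_cast
    rfl
  have hqnn : ∀ x, 0 ≤ q F x := by
    intro x
    unfold q
    have := I0_pos
    have h3 : 0 ≤ ∫ v, F (x - v) * w v := integral_nonneg fun v =>
      mul_nonneg (by rw [hF]; positivity) (w_nonneg v)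
    positivity
  have hdiv4 : ∀ z : ℂ, |(z / 4).im| = |z.im| / 4 := by
    intro z
    have : (z / 4).im = z.im / 4 := by
      rw [show z / 4 = z / ((4:ℝ):ℂ) by norm_num, Complex.div_ofReal_im]
    rw [this, abs_div]
    norm_num
  have hdiv2 : ∀ z : ℂ, |(z / 2).im| = |z.im| / 2 := by
    intro z
    have : (z / 2).im = z.im / 2 := by
      rw [show z / 2 = z / ((2:ℝ):ℂ) by norm_num, Complex.div_ofReal_im]
    rw [this, abs_div]
    norm_num
  have hRb : ∀ z : ℂ, ‖R z‖ ≤ ((1 + C ^ 2) * 2 ^ μ * K₀) * (1 + ‖z‖) ^ 2 * Real.exp |z.im| := by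
    intro z
    have h1 : ‖1 - sinC (z / 4) ^ 2‖ ≤ (1 + C ^ 2) * Real.exp (|z.im| / 2) := by
      have e1 := hsb (z / 4)
      rw [hdiv4] at e1
      have e2 : ‖sinC (z / 4)‖ ≤ C * Real.exp (|z.im| / 4) := by
        refine e1.trans ?_
        apply div_le_self (by positivity)
        linarith [norm_nonneg (z / 4)]
      have e3 : ‖sinC (z / 4) ^ 2‖ ≤ C ^ 2 * Real.exp (|z.im| / 2) := by
        rw [norm_pow]
        calc ‖sinC (z / 4)‖ ^ 2 ≤ (C * Real.exp (|z.im| / 4)) ^ 2 :=
              pow_le_pow_left₀ (norm_nonneg _) e2 2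
          _ = C ^ 2 * (Real.exp (|z.im| / 4)) ^ 2 := by ring
          _ = _ := by
              rw [← Real.exp_nat_mul]
              congr 2
              push_cast
              ring
      have he : 1 ≤ Real.exp (|z.im| / 2) := by
        rw [← Real.exp_zero]
        exact Real.exp_le_exp.mpr (by positivity)
      refine (norm_sub_le _ _).trans ?_
      rw [norm_one]
      nlinarith
    have h3 := hK₀ (z / 2)
    rw [hdiv2] at h3
    have h4 : ‖z / 2‖ ≤ ‖z‖ := by
      rw [norm_div]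
      simp
    have h5 : ‖conv F (z / 2)‖ ≤ K₀ * (1 + ‖z‖) ^ 2 * Real.exp (|z.im| / 2) := by
      refine h3.trans ?_
      gcongr
    have h6 : Real.exp |z.im| = Real.exp (|z.im| / 2) * Real.exp (|z.im| / 2) := by
      rw [← Real.exp_add]; congr 1; ring
    rw [hRdef]
    simp only
    rw [norm_mul, norm_mul, Complex.norm_real, Real.norm_eq_abs, abs_of_pos h2p]
    calc ‖1 - sinC (z / 4) ^ 2‖ * 2 ^ μ * ‖conv F (z / 2)‖
        ≤ ((1 + C ^ 2) * Real.exp (|z.im| / 2)) * 2 ^ μ *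
          (K₀ * (1 + ‖z‖) ^ 2 * Real.exp (|z.im| / 2)) := by gcongr
      _ = _ := by rw [h6]; ring
  have hRd : Differentiable ℂ R := by
    have e1 : Differentiable ℂ (fun z : ℂ => sinC (z / 4) ^ 2) :=
      (differentiable_sinC.comp (differentiable_id.div_const _)).pow 2
    exact (((differentiable_const _).sub e1).mul_const _).mul
      (hd.comp (differentiable_id.div_const _))
  have hRre : ∀ x : ℝ, (R x).re = (1 - Real.sinc (x / 4) ^ 2) * 2 ^ μ * q F (x / 2) := by
    intro x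
    rw [hRreal, Complex.ofReal_re]
  set B : ℝ := ((1 + C ^ 2) * 2 ^ μ * K₀) * 4 * Real.exp 0 + 1 with hB
  set D : ℝ := 4 * 2 ^ μ * K₁ + 16 + 64 * 2 ^ μ * K₁ with hD
  have hB0 : 0 ≤ B := by rw [hB]; positivity
  have hD0 : 0 ≤ D := by rw [hD]; positivity
  refine ⟨R, 4 * (B + D), by positivity, expType_of_bound hRd hRb, ?_, ?_, ?_, ?_, ?_⟩
  · intro z
    rw [hRdef]
    simp only
    rw [neg_div, neg_div, sinC_neg, h.conv_neg]
    simp
  · intro x
    rw [hRreal]
    exact Complex.ofReal_im _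
  · have := hRre 0
    rw [Complex.ofReal_zero] at this
    rw [this]
    simp
  · intro x
    rw [hRre]
    have := sinc_sq_le_one (x / 4)
    have := hqnn (x / 2)
    have : 0 ≤ 1 - Real.sinc (x / 4) ^ 2 := by linarith
    positivity
  · intro t ht
    rcases le_total t 1 with ht1 | ht1
    · have e1 := hRb (t : ℂ)
      have e2 : |(R t).re| ≤ ‖R t‖ := Complex.abs_re_le_norm _
      rw [Complex.norm_real, Real.norm_eq_abs, abs_of_nonneg ht, Complex.ofReal_im, abs_zero] at e1
      have e3 : (1 + t) ^ 2 ≤ 4 := by nlinarith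
      have e4 : |t ^ μ| ≤ 1 := by
        rw [abs_of_nonneg (by positivity)]
        exact Real.rpow_le_one ht ht1 h0.le
      have e5 : ((1 + C ^ 2) * 2 ^ μ * K₀) * (1 + t) ^ 2 * Real.exp 0 ≤
          ((1 + C ^ 2) * 2 ^ μ * K₀) * 4 * Real.exp 0 := by gcongr
      have e6 := abs_sub (R t).re (t ^ μ)
      have e7 : |(R t).re - t ^ μ| ≤ B := by rw [hB]; linarith
      have e8 : 1 / 4 ≤ (1 + t) ^ (μ - 2) := by
        have e9 : (2:ℝ) ^ (μ - 2) ≤ (1 + t) ^ (μ - 2) :=
          Real.rpow_le_rpow_of_nonpos (by linarith) (by linarith) (by linarith)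
        have e10 : (2:ℝ) ^ (-2:ℝ) ≤ 2 ^ (μ - 2) :=
          Real.rpow_le_rpow_of_exponent_le one_le_two (by linarith)
        have e11 : (2:ℝ) ^ (-2:ℝ) = 1 / 4 := by
          rw [Real.rpow_neg two_pos.le]; norm_num
        rw [e11] at e10
        exact e10.trans e9
      have e12 : B * (1 / 4) ≤ B * (1 + t) ^ (μ - 2) := mul_le_mul_of_nonneg_left e8 hB0
      have e13 : 0 ≤ D * (1 + t) ^ (μ - 2) := by positivity
      nlinarith
    · have ht0 : 0 < t := by linarith
      have e1 := he (t / 2) (by linarith)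
      have e3 : (t / 2) ^ (μ - 2) ≤ 4 * t ^ (μ - 2) := by
        rw [Real.div_rpow ht0.le two_pos.le, div_le_iff₀ (by positivity)]
        have e4 : (2:ℝ) ^ (-2:ℝ) ≤ 2 ^ (μ - 2) :=
          Real.rpow_le_rpow_of_exponent_le one_le_two (by linarith)
        have e5 : (2:ℝ) ^ (-2:ℝ) = 1 / 4 := by
          rw [Real.rpow_neg two_pos.le]; norm_num
        rw [e5] at e4
        have e6 : 0 < t ^ (μ - 2) := Real.rpow_pos_of_pos ht0 _
        nlinarith
      have e6 : 0 < t ^ (μ - 2) := Real.rpow_pos_of_pos ht0 _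
      have e7 : |q F (t / 2) - F (t / 2)| ≤ 4 * K₁ * t ^ (μ - 2) := by
        refine e1.trans ?_
        nlinarith
      have e8 : 2 ^ μ * F (t / 2) = t ^ μ := by
        rw [← h.hom two_pos, show 2 * (t / 2) = t by ring, h.2.1 t ht]
      set k := Real.sinc (t / 4) ^ 2 with hk
      have hk0 : 0 ≤ k := by positivity
      have hk1 : k ≤ 1 := sinc_sq_le_one _
      have hk2 : k ≤ 16 / t ^ 2 := by
        refine (sinc_sq_le (by positivity)).trans (le_of_eq ?_)
        field_simp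
        norm_num
      have e9 : (R t).re - t ^ μ = (1 - k) * 2 ^ μ * (q F (t / 2) - F (t / 2)) - k * t ^ μ := by
        rw [hRre, ← e8]; ring
      have e10 : k * t ^ μ ≤ 16 * t ^ (μ - 2) := by
        have : t ^ (μ - 2) = t ^ μ / t ^ 2 := by
          rw [Real.rpow_sub ht0]; norm_cast
        rw [this]
        calc k * t ^ μ ≤ 16 / t ^ 2 * t ^ μ := mul_le_mul_of_nonneg_right hk2 (by positivity)
          _ = _ := by ring
      have e11 : |(R t).re - t ^ μ| ≤ D * t ^ (μ - 2) := by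
        rw [e9]
        calc |(1 - k) * 2 ^ μ * (q F (t / 2) - F (t / 2)) - k * t ^ μ|
            ≤ |(1 - k) * 2 ^ μ * (q F (t / 2) - F (t / 2))| + |k * t ^ μ| := abs_sub _ _
          _ ≤ 1 * 2 ^ μ * (4 * K₁ * t ^ (μ - 2)) + 16 * t ^ (μ - 2) := by
              rw [abs_mul, abs_mul, abs_of_nonneg (by linarith : 0 ≤ 1 - k), abs_of_pos h2p,
                abs_of_nonneg (by positivity : 0 ≤ k * t ^ μ)]
              apply add_le_add _ e10
              apply mul_le_mul _ e7 (abs_nonneg _) (by positivity)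
              apply mul_le_mul_of_nonneg_right _ h2p.le
              linarith
          _ ≤ D * t ^ (μ - 2) := by
              rw [hD]
              have : 0 ≤ 64 * 2 ^ μ * K₁ * t ^ (μ - 2) := by positivity
              nlinarith
      have e12 : t ^ (μ - 2) ≤ 4 * (1 + t) ^ (μ - 2) := by
        have e13 : (2 * t) ^ (μ - 2) ≤ (1 + t) ^ (μ - 2) :=
          Real.rpow_le_rpow_of_nonpos (by linarith) (by linarith) (by linarith)
        rw [Real.mul_rpow two_pos.le ht] at e13
        have e10 : (2:ℝ) ^ (-2:ℝ) ≤ 2 ^ (μ - 2) :=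
          Real.rpow_le_rpow_of_exponent_le one_le_two (by linarith)
        have e11 : (2:ℝ) ^ (-2:ℝ) = 1 / 4 := by
          rw [Real.rpow_neg two_pos.le]; norm_num
        rw [e11] at e10
        nlinarith
      have e13 : 0 ≤ B * (1 + t) ^ (μ - 2) := by positivity
      have e14 := mul_le_mul_of_nonneg_left e12 hD0
      nlinarith

variable {lam ϵ : ℝ} {F : ℝ → ℝ}

theorem neT (h0 : 0 < lam) (h1 : lam < 1) : ∃ c : ℝ, 0 < c ∧ ∃ Q, FeasT lam c Q := by
  obtain ⟨R, K, hK, hE, hev, hre, hR0, hRpos, herr⟩ := exists_R (μ := 2 * lam) (by linarith)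
    (by linarith)
  have hRc : Continuous (fun x : ℝ => (R x).re) :=
    Complex.continuous_re.comp (hE.1.continuous.comp Complex.continuous_ofReal)
  obtain ⟨c, hc, m1, m2⟩ := half_match h0 h1.le hK (G := fun X => (R ((Real.sqrt X : ℝ) : ℂ)).re)
    (hRc.comp Real.continuous_sqrt) (by simp [hR0]) (fun x _ => hRpos _) (fun x hx => by
      have e1 := herr (Real.sqrt x) (Real.sqrt_nonneg _)
      have e2 : Real.sqrt x ^ (2 * lam) = x ^ lam := by
        rw [← abs_of_nonneg (Real.sqrt_nonneg x), ← sq_rpow, Real.sq_sqrt hx]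
      rw [e2] at e1
      refine e1.trans ?_
      apply mul_le_mul_of_nonneg_left _ hK
      have e3 : (1 + Real.sqrt x) ^ (2 * lam - 2) = ((1 + Real.sqrt x) ^ 2) ^ (lam - 1) := by
        rw [← Real.rpow_natCast _ 2, ← Real.rpow_mul (by positivity)]
        congr 1
        push_cast
        ring
      rw [e3]
      apply Real.rpow_le_rpow_of_nonpos (by positivity) _ (by linarith)
      have e4 := Real.sq_sqrt hx
      have e5 := Real.sqrt_nonneg x
      nlinarith)
  have heven : ∀ s : ℝ, (R s).re = (R ((Real.sqrt (s ^ 2) : ℝ) : ℂ)).re := by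
    intro s
    rw [Real.sqrt_sq_eq_abs]
    rcases le_total 0 s with h | h
    · rw [abs_of_nonneg h]
    · rw [abs_of_nonpos h]
      push_cast
      rw [hev]
  refine ⟨c, hc, R, hE, hev, hre, ?_, ?_⟩
  · intro s
    obtain ⟨y, hy0, hy1, hy2⟩ := m1 (s ^ 2) (sq_nonneg s)
    refine ⟨Real.sqrt y, ?_, ?_⟩
    · rw [Real.sq_sqrt hy0]; exact hy1
    · rw [Real.sq_sqrt hy0, heven]; exact hy2
  · intro t
    obtain ⟨x, hx0, hx1, hx2⟩ := m2 (t ^ 2) (sq_nonneg t)
    refine ⟨Real.sqrt x, ?_, hx2⟩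
    rw [Real.sq_sqrt hx0]; exact hx1

theorem ne_even (h : PT lam 1 F) (h0 : 0 < lam) (h1 : lam ≤ 1) :
    ∃ c : ℝ, 0 < c ∧ ∃ Q, Feas F c 0 Q := by
  obtain ⟨R, K, hK, hE, hev, hre, hR0, hRpos, herr⟩ := exists_R (μ := lam) h0 (by linarith)
  have hRc : Continuous (fun x : ℝ => (R x).re) :=
    Complex.continuous_re.comp (hE.1.continuous.comp Complex.continuous_ofReal)
  obtain ⟨c, hc, m1, m2⟩ := half_match h0 h1 hK (G := fun X => (R (X : ℂ)).re)
    hRc (by simpa using hR0) (fun x _ => hRpos _) (fun x hx => by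
      refine (herr x hx).trans ?_
      apply mul_le_mul_of_nonneg_left _ hK
      exact Real.rpow_le_rpow_of_exponent_le (by linarith) (by linarith))
  have hFneg : ∀ t, F (-t) = F t := by
    intro t
    rw [h.2.2.1, one_mul]
  have hRneg : ∀ s : ℝ, (R ((-s : ℝ) : ℂ)).re = (R s).re := by
    intro s
    push_cast
    rw [hev]
  refine ⟨c, hc, R, hE, hre, ?_, ?_⟩
  · intro s
    rcases le_total 0 s with hs | hs
    · obtain ⟨y, hy0, hy1, hy2⟩ := m1 s hs
      refine ⟨y, hy1, ?_⟩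
      rw [h.2.1 y hy0, hy2, sub_self, abs_zero]
    · obtain ⟨y, hy0, hy1, hy2⟩ := m1 (-s) (by linarith)
      refine ⟨-y, ?_, ?_⟩
      · rw [← abs_neg]
        convert hy1 using 2
        ring
      · rw [hFneg, h.2.1 y hy0, ← hRneg, hy2, sub_self, abs_zero]
  · intro t
    rcases le_total 0 t with ht | ht
    · obtain ⟨x, hx0, hx1, hx2⟩ := m2 t ht
      refine ⟨x, hx1, ?_⟩
      rw [h.2.1 t ht, hx2, sub_self, abs_zero]
    · obtain ⟨x, hx0, hx1, hx2⟩ := m2 (-t) (by linarith)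
      refine ⟨-x, ?_, ?_⟩
      · rw [← abs_neg]
        convert hx1 using 2
        ring
      · rw [hRneg, hx2, ← hFneg, h.2.1 _ (by linarith : 0 ≤ -t), sub_self, abs_zero]

theorem ne_odd (h : PT lam (-1) F) (h0 : 0 < lam) (h1 : lam ≤ 1) :
    ∃ c : ℝ, 0 < c ∧ ∃ Q, Feas F c 0 Q := by
  obtain ⟨Q, K, hK, hd, hb, hneg, hre, hG0, hG1, -⟩ := h.exists_Q1 h0 (by linarith)
  have herr : ∀ s : ℝ, |(Q s).re - F s| ≤ 2 * K * (1 + |s|) ^ (lam - 1) := by
    intro s
    rcases le_total |s| 1 with hs | hs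
    · refine (hG0 s).trans ?_
      have e9 : (2:ℝ) ^ (lam - 1) ≤ (1 + |s|) ^ (lam - 1) :=
        Real.rpow_le_rpow_of_nonpos (by positivity) (by linarith) (by linarith)
      have e10 : (2:ℝ) ^ (-1:ℝ) ≤ 2 ^ (lam - 1) :=
        Real.rpow_le_rpow_of_exponent_le one_le_two (by linarith)
      rw [Real.rpow_neg_one] at e10
      nlinarith
    · have hs0 : 0 < |s| := by linarith
      refine (hG1 s hs0).trans ?_
      have e1 : |s| ^ (lam - 2) ≤ |s| ^ (lam - 1) :=
        Real.rpow_le_rpow_of_exponent_le hs (by linarith)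
      have e9 : (2 * |s|) ^ (lam - 1) ≤ (1 + |s|) ^ (lam - 1) :=
        Real.rpow_le_rpow_of_nonpos (by positivity) (by linarith) (by linarith)
      rw [Real.mul_rpow two_pos.le hs0.le] at e9
      have e10 : (2:ℝ) ^ (-1:ℝ) ≤ 2 ^ (lam - 1) :=
        Real.rpow_le_rpow_of_exponent_le one_le_two (by linarith)
      rw [Real.rpow_neg_one] at e10
      have e11 : 0 < |s| ^ (lam - 1) := Real.rpow_pos_of_pos hs0 _
      have e12 : |s| ^ (lam - 1) ≤ 2 * (1 + |s|) ^ (lam - 1) := by nlinarith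
      calc K * |s| ^ (lam - 2) ≤ K * (2 * (1 + |s|) ^ (lam - 1)) :=
            mul_le_mul_of_nonneg_left (e1.trans e12) hK.le
        _ = _ := by ring
  obtain ⟨c, hc1, hcK, hE⟩ := exists_c h0 h1 (by positivity : 0 ≤ 2 * K)
  have hc0 : 0 < c := by linarith
  have hle1 : ∀ x : ℝ, 0 ≤ x → 2 * K * (1 + x) ^ (lam - 1) ≤ 2 * K := by
    intro x hx
    have : (1 + x) ^ (lam - 1) ≤ 1 :=
      Real.rpow_le_one_of_one_le_of_nonpos (by linarith) (by linarith)
    nlinarith
  have hmon : ∀ x y : ℝ, 0 ≤ x → x ≤ y → 2 * K * (1 + y) ^ (lam - 1) ≤ 2 * K * (1 + x) ^ (lam - 1) := by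
    intro x y hx hxy
    apply mul_le_mul_of_nonneg_left _ (by positivity)
    exact Real.rpow_le_rpow_of_nonpos (by positivity) (by linarith) (by linarith)
  have hFn : ∀ s, s ≤ 0 → F s = -((-s) ^ lam) := by
    intro s hs
    have h2 := h.2.2.1 (-s)
    rw [neg_neg, h.2.1 (-s) (by linarith)] at h2
    rw [h2]; ring
  -- the key inequality
  have key : ∀ s : ℝ, 2 * K * (1 + |s|) ^ (lam - 1) ≤ F (s + c) - F s ∧
      2 * K * (1 + |s + c|) ^ (lam - 1) ≤ F (s + c) - F s := by
    intro s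
    rcases le_total 0 s with hs | hs
    · rw [h.2.1 s hs, h.2.1 _ (by linarith : 0 ≤ s + c), abs_of_nonneg hs,
        abs_of_nonneg (by linarith : 0 ≤ s + c)]
      have e1 := hE s hs
      exact ⟨e1, (hmon s (s + c) hs (by linarith)).trans e1⟩
    · rcases le_total (s + c) 0 with hs2 | hs2
      · rw [hFn s hs, hFn _ hs2, abs_of_nonpos hs, abs_of_nonpos hs2]
        have e1 := hE (-(s + c)) (by linarith)
        rw [show -(s + c) + c = -s by ring] at e1
        have e2 := hmon (-(s + c)) (-s) (by linarith) (by linarith)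
        constructor <;> linarith
      · rw [hFn s hs, h.2.1 _ hs2]
        have e1 : 2 * K ≤ (s + c) ^ lam - -(-s) ^ lam := by
          have p1 : 0 ≤ (s + c) ^ lam := by positivity
          have p2 : 0 ≤ (-s) ^ lam := Real.rpow_nonneg (by linarith) _
          rcases le_total (c / 2) (-s) with h3 | h3
          · have : (c / 2) ^ lam ≤ (-s) ^ lam := Real.rpow_le_rpow (by positivity) h3 h0.le
            linarith
          · have : (c / 2) ^ lam ≤ (s + c) ^ lam :=
              Real.rpow_le_rpow (by positivity) (by linarith) h0.le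
            linarith
        exact ⟨(hle1 _ (abs_nonneg _)).trans e1, (hle1 _ (abs_nonneg _)).trans e1⟩
  have hQc : Continuous (fun x : ℝ => (Q x).re) :=
    Complex.continuous_re.comp (hd.continuous.comp Complex.continuous_ofReal)
  refine ⟨c, hc0, Q, expType_of_bound hd hb, hre, ?_, ?_⟩
  · intro s
    have e1 := abs_le.1 (herr s)
    have e2 := (key s).1
    have e3 := (key (s - c)).2
    rw [sub_add_cancel] at e3
    obtain ⟨t, ht, ht2⟩ := ivt_close h.1 (a := s - c) (b := s + c) (y := (Q s).re) (v := 0)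
      (by linarith) le_rfl (by linarith) (by linarith)
    refine ⟨t, ?_, by rwa [abs_sub_comm]⟩
    rw [abs_le]; constructor <;> linarith [ht.1, ht.2]
  · intro t
    have e1 := abs_le.1 (herr (t + c))
    have e2 := abs_le.1 (herr (t - c))
    have e3 := (key t).2
    have e4 := (key (t - c)).1
    rw [sub_add_cancel] at e4
    obtain ⟨s, hs, hs2⟩ := ivt_close hQc (a := t - c) (b := t + c) (y := F t) (v := 0)
      (by linarith) le_rfl (by linarith) (by linarith)
    refine ⟨s, ?_, hs2⟩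
    rw [abs_le]; constructor <;> linarith [hs.1, hs.2]

end Pool.Agent.H293.HA
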