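import Mathlib

/-!
# A Phragmen-Lindelof bound for entire functions of exponential type
-/

set_option autoImplicit false

open Filter Asymptotics Topology

namespace Pool.Agent.H293.HA

/-- `Q` is an entire function of exponential type at most `σ`. -/
def ExpType (σ : ℝ) (Q : ℂ → ℂ) : Prop :=
  Differentiable ℂ Q ∧ ∀ ε : ℝ, 0 < ε → ∃ C : ℝ, ∀ z : ℂ, ‖Q z‖ ≤ C * Real.exp ((σ + ε) * ‖z‖)

lemma ExpType.comp_neg {σ : ℝ} {Q : ℂ → ℂ} (h : ExpType σ Q) : ExpType σ (fun z => Q (-z)) := by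
  refine ⟨h.1.comp differentiable_neg, fun ε hε => ?_⟩
  obtain ⟨C, hC⟩ := h.2 ε hε
  exact ⟨C, fun z => by simpa using hC (-z)⟩

lemma pl_aux {σ : ℝ} (hσ : 0 ≤ σ) {Q : ℂ → ℂ} (h : ExpType σ Q) {A : ℝ}
    (hA : ∀ x : ℝ, ‖Q x‖ ≤ A * (1 + |x|) ^ 2) {ε : ℝ} (hε : 0 < ε) (w : ℂ) (hw : 0 ≤ w.re) :
    ‖Q (Complex.I * w)‖ ≤ 2 * A * ‖w + 1‖ ^ 2 * Real.exp ((σ + ε) * w.re) := by
  have hA0 : 0 ≤ A := by
    have := hA 0
    simp at this
    exact le_trans (norm_nonneg _) this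
  obtain ⟨C, hC⟩ := h.2 ε hε
  have hC0 : 0 ≤ C := by
    have := hC 0
    simp at this
    exact le_trans (norm_nonneg _) this
  set f : ℂ → ℂ := fun w => Q (Complex.I * w) * Complex.exp (-((σ + ε : ℝ) : ℂ) * w) / (w + 1) ^ 2
    with hf
  have hne : ∀ w : ℂ, 0 ≤ w.re → w + 1 ≠ 0 := by
    intro w hw h0
    have := congrArg Complex.re h0
    simp at this
    linarith
  have hge : ∀ w : ℂ, 0 ≤ w.re → 1 ≤ ‖w + 1‖ := by
    intro w hw
    have h1 : |(w + 1).re| ≤ ‖w + 1‖ := Complex.abs_re_le_norm _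
    simp only [Complex.add_re, Complex.one_re] at h1
    have h2 := le_abs_self (w.re + 1)
    linarith
  have hexp : ∀ w : ℂ, ‖Complex.exp (-((σ + ε : ℝ) : ℂ) * w)‖ = Real.exp (-(σ + ε) * w.re) := by
    intro w
    rw [Complex.norm_exp]
    congr 1
    simp
  have hnf : ∀ w : ℂ, ‖f w‖ = ‖Q (Complex.I * w)‖ * Real.exp (-(σ + ε) * w.re) / ‖w + 1‖ ^ 2 := by
    intro w
    rw [hf]
    simp only [norm_div, norm_mul, norm_pow]
    rw [hexp]
  have key : ‖f w‖ ≤ 2 * A := by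
    apply PhragmenLindelof.right_half_plane_of_bounded_on_real (f := f) (C := 2 * A) _ _ _ _ hw
    · -- DiffContOnCl
      have hd : DifferentiableOn ℂ f {z : ℂ | 0 ≤ z.re} := by
        intro z hz
        apply DifferentiableAt.differentiableWithinAt
        apply DifferentiableAt.div
        · apply DifferentiableAt.mul
          · exact (h.1.comp (differentiable_id.const_mul Complex.I)).differentiableAt
          · fun_prop
        · fun_prop
        · exact pow_ne_zero 2 (hne z hz)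
      refine ⟨hd.mono (fun z hz => ?_), ?_⟩
      · have : 0 < z.re := hz
        exact this.le
      · have hcl : closure {z : ℂ | 0 < z.re} = {z : ℂ | 0 ≤ z.re} := Complex.closure_setOfPred_lt_re 0
        rw [hcl]
        exact hd.continuousOn
    · refine ⟨1, by norm_num, 2 * (σ + ε), ?_⟩
      apply IsBigO.of_bound C
      rw [eventually_inf_principal]
      apply Eventually.of_forall
      intro z hz
      have hz' : 0 ≤ z.re := (show 0 < z.re from hz).le
      rw [hnf, Real.norm_eq_abs, abs_of_pos (Real.exp_pos _), Real.rpow_one]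
      have h1 : ‖Q (Complex.I * z)‖ ≤ C * Real.exp ((σ + ε) * ‖z‖) := by
        have := hC (Complex.I * z)
        simpa using this
      have h2 : Real.exp (-(σ + ε) * z.re) ≤ 1 := by
        rw [Real.exp_le_one_iff]
        have : 0 ≤ (σ + ε) * z.re := mul_nonneg (by linarith) hz'
        linarith
      have h3 : (1:ℝ) ≤ ‖z + 1‖ ^ 2 := one_le_pow₀ (hge z hz')
      rw [div_le_iff₀ (by positivity)]
      have h4 : Real.exp ((σ + ε) * ‖z‖) ≤ Real.exp (2 * (σ + ε) * ‖z‖) := by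
        apply Real.exp_le_exp.mpr
        have : 0 ≤ (σ + ε) * ‖z‖ := mul_nonneg (by linarith) (norm_nonneg _)
        linarith
      calc ‖Q (Complex.I * z)‖ * Real.exp (-(σ + ε) * z.re) ≤ ‖Q (Complex.I * z)‖ * 1 :=
            mul_le_mul_of_nonneg_left h2 (norm_nonneg _)
        _ ≤ C * Real.exp (2 * (σ + ε) * ‖z‖) := by
            rw [mul_one]; exact h1.trans (mul_le_mul_of_nonneg_left h4 hC0)
        _ ≤ C * Real.exp (2 * (σ + ε) * ‖z‖) * ‖z + 1‖ ^ 2 := by
            have : 0 ≤ C * Real.exp (2 * (σ + ε) * ‖z‖) := by positivity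
            nlinarith
    · refine isBoundedUnder_of_eventually_le (a := C) ?_
      filter_upwards [eventually_ge_atTop (0:ℝ)] with x hx
      rw [hnf]
      have h1 : ‖Q (Complex.I * x)‖ ≤ C * Real.exp ((σ + ε) * x) := by
        have := hC (Complex.I * x)
        simpa [abs_of_nonneg hx] using this
      have h3 : (1:ℝ) ≤ ‖(x:ℂ) + 1‖ ^ 2 := one_le_pow₀ (hge x (by simpa using hx))
      rw [div_le_iff₀ (by positivity)]
      have h2 : Real.exp ((σ + ε) * x) * Real.exp (-(σ + ε) * x) = 1 := by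
        rw [← Real.exp_add, show (σ + ε) * x + -(σ + ε) * x = 0 by ring, Real.exp_zero]
      simp only [Complex.ofReal_re]
      calc ‖Q (Complex.I * x)‖ * Real.exp (-(σ + ε) * x)
          ≤ C * Real.exp ((σ + ε) * x) * Real.exp (-(σ + ε) * x) :=
            mul_le_mul_of_nonneg_right h1 (Real.exp_pos _).le
        _ = C := by rw [mul_assoc, h2, mul_one]
        _ ≤ C * ‖(x:ℂ) + 1‖ ^ 2 := by nlinarith
    · intro x
      rw [hnf]
      have h0 : ((x:ℂ) * Complex.I).re = 0 := by simp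
      rw [h0, mul_zero, Real.exp_zero, mul_one]
      have h1 : Complex.I * ((x:ℂ) * Complex.I) = ((-x : ℝ) : ℂ) := by
        push_cast
        linear_combination (x:ℂ) * Complex.I_mul_I
      rw [h1]
      have h2 := hA (-x)
      rw [abs_neg] at h2
      have h3 : ‖(x:ℂ) * Complex.I + 1‖ ^ 2 = 1 + x ^ 2 := by
        rw [← Complex.normSq_eq_norm_sq, Complex.normSq_apply]
        simp
        ring
      rw [h3, div_le_iff₀ (by positivity)]
      have h4 : (1 + |x|) ^ 2 ≤ 2 * (1 + x ^ 2) := by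
        have h5 := sq_abs x
        nlinarith [sq_nonneg (1 - |x|)]
      calc ‖Q ((-x : ℝ) : ℂ)‖ ≤ A * (1 + |x|) ^ 2 := h2
        _ ≤ A * (2 * (1 + x ^ 2)) := mul_le_mul_of_nonneg_left h4 hA0
        _ = 2 * A * (1 + x ^ 2) := by ring
  rw [hnf, div_le_iff₀ (by have := hge w hw; positivity)] at key
  have h5 : Real.exp (-(σ + ε) * w.re) * Real.exp ((σ + ε) * w.re) = 1 := by
    rw [← Real.exp_add, show -(σ + ε) * w.re + (σ + ε) * w.re = 0 by ring, Real.exp_zero]
  calc ‖Q (Complex.I * w)‖ = ‖Q (Complex.I * w)‖ * (Real.exp (-(σ + ε) * w.re) *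
        Real.exp ((σ + ε) * w.re)) := by rw [h5, mul_one]
    _ = (‖Q (Complex.I * w)‖ * Real.exp (-(σ + ε) * w.re)) * Real.exp ((σ + ε) * w.re) := by ring
    _ ≤ (2 * A * ‖w + 1‖ ^ 2) * Real.exp ((σ + ε) * w.re) :=
        mul_le_mul_of_nonneg_right key (Real.exp_pos _).le

lemma pl_upper {σ : ℝ} (hσ : 0 ≤ σ) {Q : ℂ → ℂ} (h : ExpType σ Q) {A : ℝ}
    (hA : ∀ x : ℝ, ‖Q x‖ ≤ A * (1 + |x|) ^ 2) (z : ℂ) (hz : 0 ≤ z.im) :
    ‖Q z‖ ≤ 2 * A * (1 + ‖z‖) ^ 2 * Real.exp (σ * |z.im|) := by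
  have hA0 : 0 ≤ A := by
    have := hA 0
    simp at this
    exact le_trans (norm_nonneg _) this
  have h1 : ∀ ε : ℝ, 0 < ε → ‖Q z‖ ≤ 2 * A * (1 + ‖z‖) ^ 2 * Real.exp ((σ + ε) * z.im) := by
    intro ε hε
    have h2 := pl_aux hσ h hA hε (-Complex.I * z) (by simpa using hz)
    have h3 : Complex.I * (-Complex.I * z) = z := by
      linear_combination -z * Complex.I_mul_I
    have h4 : (-Complex.I * z).re = z.im := by simp
    rw [h3, h4] at h2
    refine h2.trans ?_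
    have h5 : ‖-Complex.I * z + 1‖ ≤ 1 + ‖z‖ := by
      refine (norm_add_le _ _).trans ?_
      simp
      linarith
    gcongr
  rw [abs_of_nonneg hz]
  have h2 : Tendsto (fun ε : ℝ => 2 * A * (1 + ‖z‖) ^ 2 * Real.exp ((σ + ε) * z.im)) (𝓝[>] 0)
      (𝓝 (2 * A * (1 + ‖z‖) ^ 2 * Real.exp ((σ + 0) * z.im))) := by
    apply Tendsto.mono_left _ nhdsWithin_le_nhds
    apply Continuous.tendsto
    fun_prop
  rw [add_zero] at h2
  refine ge_of_tendsto h2 ?_
  filter_upwards [self_mem_nhdsWithin] with ε hε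
  exact h1 ε hε

/-- An entire function of exponential type `≤ σ` with `|Q(x)| ≤ A (1+|x|)²` on the real line
satisfies `|Q(z)| ≤ 2 A (1+|z|)² e^{σ |Im z|}`. -/
lemma pl_bound {σ : ℝ} (hσ : 0 ≤ σ) {Q : ℂ → ℂ} (h : ExpType σ Q) {A : ℝ}
    (hA : ∀ x : ℝ, ‖Q x‖ ≤ A * (1 + |x|) ^ 2) (z : ℂ) :
    ‖Q z‖ ≤ 2 * A * (1 + ‖z‖) ^ 2 * Real.exp (σ * |z.im|) := by
  rcases le_total 0 z.im with hz | hz
  · exact pl_upper hσ h hA z hz
  · have h1 := pl_upper hσ h.comp_neg (A := A) (fun x => by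
      have := hA (-x)
      rw [abs_neg] at this
      simpa using this) (-z) (by simpa using hz)
    simpa using h1

end Pool.Agent.H293.HA
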