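import Pool.Agent.H293.HA.UpT

/-!
# Positivity of the extremal constants
-/

set_option autoImplicit false

open Filter Asymptotics Topology Set MeasureTheory

namespace Pool.Agent.H293.HA

/-- the Lipschitz constant obtained from Cauchy's estimate -/
noncomputable def LK (K : ℝ) : ℝ := 25 * K * Real.exp 4

lemma deriv_bound {K : ℝ} {Q : ℂ → ℂ} (hd : Differentiable ℂ Q)
    (hb : ∀ z : ℂ, ‖Q z‖ ≤ K * (1 + ‖z‖) ^ 2 * Real.exp |z.im|) {z : ℂ} (hz : ‖z‖ ≤ 3) :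
    ‖deriv Q z‖ ≤ LK K := by
  have hK : 0 ≤ K := by
    have := hb 0
    simp at this
    exact le_trans (norm_nonneg _) this
  have h := Complex.norm_deriv_le_of_forall_mem_sphere_norm_le (c := z) (R := 1) (f := Q)
    (C := LK K) one_pos hd.diffContOnCl ?_
  · simpa using h
  · intro w hw
    have hw1 : ‖w - z‖ = 1 := by simpa using hw
    have hw2 : ‖w‖ ≤ 4 := by
      have : ‖w‖ ≤ ‖w - z‖ + ‖z‖ := by
        have := norm_add_le (w - z) z
        simpa using this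
      linarith
    have h3 : |w.im| ≤ 4 := (Complex.abs_im_le_norm w).trans hw2
    have h4 : (1 + ‖w‖) ^ 2 ≤ 25 := by
      have := norm_nonneg w
      nlinarith
    calc ‖Q w‖ ≤ K * (1 + ‖w‖) ^ 2 * Real.exp |w.im| := hb w
      _ ≤ K * 25 * Real.exp 4 := by
          have := Real.exp_le_exp.mpr h3
          gcongr
      _ = LK K := by unfold LK; ring

lemma lip3 {K : ℝ} {Q : ℂ → ℂ} (hd : Differentiable ℂ Q)
    (hb : ∀ z : ℂ, ‖Q z‖ ≤ K * (1 + ‖z‖) ^ 2 * Real.exp |z.im|) {z w : ℂ} (hz : ‖z‖ ≤ 3)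
    (hw : ‖w‖ ≤ 3) : ‖Q z - Q w‖ ≤ LK K * ‖z - w‖ := by
  apply Convex.norm_image_sub_le_of_norm_deriv_le (s := Metric.closedBall (0:ℂ) 3)
    (fun x _ => hd x) (fun x hx => deriv_bound hd hb (by simpa using hx))
    (convex_closedBall _ _) (by simpa using hw) (by simpa using hz)

lemma taylor2 {K : ℝ} {Q : ℂ → ℂ} (hd : Differentiable ℂ Q)
    (hb : ∀ z : ℂ, ‖Q z‖ ≤ K * (1 + ‖z‖) ^ 2 * Real.exp |z.im|) {z : ℂ} (hz : ‖z‖ ≤ 2) :
    ‖Q z - Q 0 - deriv Q 0 * z‖ ≤ LK K * ‖z‖ ^ 2 := by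
  have hLK : 0 ≤ LK K := le_trans (norm_nonneg _) (deriv_bound hd hb (z := 0) (by simp))
  have hdd : Differentiable ℂ (deriv Q) := by
    intro w
    exact (hd.contDiff (n := 2)).differentiable_deriv_two w
  have h2 : ∀ w : ℂ, ‖w‖ ≤ 2 → ‖deriv (deriv Q) w‖ ≤ LK K := by
    intro w hw
    have h := Complex.norm_deriv_le_of_forall_mem_sphere_norm_le (c := w) (R := 1) (f := deriv Q)
      (C := LK K) one_pos hdd.diffContOnCl ?_
    · simpa using h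
    · intro u hu
      have hu1 : ‖u - w‖ = 1 := by simpa using hu
      apply deriv_bound hd hb
      have : ‖u‖ ≤ ‖u - w‖ + ‖w‖ := by
        have := norm_add_le (u - w) w
        simpa using this
      linarith
  have h3 : ∀ w : ℂ, ‖w‖ ≤ 2 → ‖deriv Q w - deriv Q 0‖ ≤ LK K * ‖w‖ := by
    intro w hw
    have := Convex.norm_image_sub_le_of_norm_deriv_le (f := deriv Q) (s := Metric.closedBall (0:ℂ) 2)
      (C := LK K) (fun x _ => hdd x) (fun x hx => h2 x (by simpa using hx))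
      (convex_closedBall _ _) (x := 0) (y := w) (by simp) (by simpa using hw)
    simpa using this
  have hf : ∀ w : ℂ, HasDerivAt (fun u => Q u - deriv Q 0 * u) (deriv Q w - deriv Q 0) w := by
    intro w
    have e1 := (hd w).hasDerivAt
    have e2 := (hasDerivAt_id w).const_mul (deriv Q 0)
    rw [mul_one] at e2
    exact e1.sub e2
  have h4 := Convex.norm_image_sub_le_of_norm_deriv_le (f := fun u => Q u - deriv Q 0 * u)
    (s := Metric.closedBall (0:ℂ) ‖z‖) (C := LK K * ‖z‖) (fun x _ => (hf x).differentiableAt)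
    (fun x hx => by
      rw [(hf x).deriv]
      have hx' : ‖x‖ ≤ ‖z‖ := by simpa using hx
      refine (h3 x (by linarith)).trans ?_
      exact mul_le_mul_of_nonneg_left hx' hLK)
    (convex_closedBall _ _) (x := 0) (y := z) (by simp) (by simp)
  simp only [mul_zero, sub_zero] at h4
  calc ‖Q z - Q 0 - deriv Q 0 * z‖ = ‖Q z - deriv Q 0 * z - Q 0‖ := by congr 1; ring
    _ ≤ LK K * ‖z‖ * ‖z‖ := h4
    _ = _ := by ring

lemma c_lower {lam L c : ℝ} (h1 : lam < 1) (hL : 0 < L) (hc : 0 < c) (h : c ^ lam ≤ 3 * L * c) :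
    (1 / (3 * L)) ^ (1 / (1 - lam)) ≤ c := by
  have h2 : 0 < 1 - lam := by linarith
  have h3 : 1 / (3 * L) ≤ c ^ (1 - lam) := by
    rw [Real.rpow_sub hc, Real.rpow_one, div_le_div_iff₀ (by positivity) (by positivity)]
    linarith
  calc (1 / (3 * L)) ^ (1 / (1 - lam)) ≤ (c ^ (1 - lam)) ^ (1 / (1 - lam)) :=
        Real.rpow_le_rpow (by positivity) h3 (by positivity)
    _ = c := by
        rw [← Real.rpow_mul hc.le]
        have : (1 - lam) * (1 / (1 - lam)) = 1 := by field_simp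
        rw [this, Real.rpow_one]

variable {lam ϵ : ℝ} {F : ℝ → ℝ}

lemma norm_eq_abs_re {Q : ℂ → ℂ} (h : ∀ x : ℝ, (Q x).im = 0) (x : ℝ) : ‖Q x‖ = |(Q x).re| := by
  have e1 : Q x = (((Q x).re : ℝ) : ℂ) := Complex.ext rfl (by rw [h]; simp)
  conv_lhs => rw [e1]
  rw [Complex.norm_real, Real.norm_eq_abs]

lemma abs_re_sub_le {Q : ℂ → ℂ} (x y : ℝ) : |(Q x).re - (Q y).re| ≤ ‖Q x - Q y‖ := by
  rw [← Complex.sub_re]
  exact Complex.abs_re_le_norm _

lemma Feas.grow (h : PT lam ϵ F) (h0 : 0 < lam) (h1 : lam ≤ 1) {c v : ℝ} (hc : 0 < c) (hv : 0 ≤ v)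
    {Q : ℂ → ℂ} (hQ : Feas F c v Q) (z : ℂ) :
    ‖Q z‖ ≤ (2 * (1 + v + 2 * c ^ lam)) * (1 + ‖z‖) ^ 2 * Real.exp |z.im| := by
  obtain ⟨hQE, hQre, hQ1, hQ2⟩ := hQ
  have hgrowF := (h.grow h0 (by linarith : lam < 2)).2
  have hQgrow : ∀ x : ℝ, ‖Q x‖ ≤ (1 + v + 2 * c ^ lam) * (1 + |x|) ^ 2 := by
    intro x
    obtain ⟨t, ht1, ht2⟩ := hQ1 x
    rw [norm_eq_abs_re hQre]
    have e1 := h.holder h0 h1 x t
    have e2 : |x - t| ^ lam ≤ c ^ lam := Real.rpow_le_rpow (abs_nonneg _) ht1 h0.le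
    have e3 : |(Q x).re| ≤ |F x| + |F t - F x| + |F t - (Q x).re| := by
      have : (Q x).re = F x + (F t - F x) - (F t - (Q x).re) := by ring
      calc |(Q x).re| = |F x + (F t - F x) - (F t - (Q x).re)| := by rw [← this]
        _ ≤ |F x + (F t - F x)| + |F t - (Q x).re| := abs_sub _ _
        _ ≤ _ := by gcongr; exact abs_add_le _ _
    have e4 := hgrowF x
    have e5 : 1 ≤ (1 + |x|) ^ 2 := one_le_pow₀ (by linarith [abs_nonneg x])
    have e6 : 0 ≤ v + 2 * c ^ lam := by positivity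
    nlinarith [mul_nonneg e6 (sub_nonneg.2 e5)]
  have := pl_bound zero_le_one hQE hQgrow z
  rwa [one_mul] at this

theorem posA (h : PT lam ϵ F) (h0 : 0 < lam) (h1 : lam < 1) :
    ∃ c₀ : ℝ, 0 < c₀ ∧ ∀ c : ℝ, 0 < c → ∀ Q, Feas F c 0 Q → c₀ ≤ c := by
  set L := LK 6 with hL
  have hL0 : 0 < L := by rw [hL]; unfold LK; positivity
  refine ⟨min 1 ((1 / (3 * L)) ^ (1 / (1 - lam))), by positivity, fun c hc Q hQ => ?_⟩
  by_cases hc1 : 1 ≤ c
  · exact (min_le_left _ _).trans hc1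
  push Not at hc1
  refine (min_le_right _ _).trans ?_
  have hcl : c ^ lam ≤ 1 := Real.rpow_le_one hc.le hc1.le h0.le
  have hg : ∀ z : ℂ, ‖Q z‖ ≤ 6 * (1 + ‖z‖) ^ 2 * Real.exp |z.im| := by
    intro z
    refine (Feas.grow h h0 h1.le hc le_rfl hQ z).trans ?_
    have : 2 * (1 + 0 + 2 * c ^ lam) ≤ 6 := by linarith
    gcongr
  obtain ⟨hQE, hQre, hQ1, hQ2⟩ := hQ
  apply c_lower h1 hL0 hc
  obtain ⟨s, hs1, hs2⟩ := hQ2 0
  obtain ⟨s', hs'1, hs'2⟩ := hQ2 c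
  rw [h.2.1 0 le_rfl, Real.zero_rpow h0.ne', zero_sub, abs_neg] at hs2
  rw [h.2.1 c hc.le] at hs'2
  have e1 : (Q s).re = 0 := abs_eq_zero.1 (le_antisymm hs2 (abs_nonneg _))
  have e2 : c ^ lam - (Q s').re = 0 := abs_eq_zero.1 (le_antisymm hs'2 (abs_nonneg _))
  rw [sub_zero, abs_le] at hs1
  rw [abs_le] at hs'1
  have e3 : ‖(s':ℂ)‖ ≤ 3 := by
    rw [Complex.norm_real, Real.norm_eq_abs, abs_le]; constructor <;> linarith
  have e4 : ‖(s:ℂ)‖ ≤ 3 := by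
    rw [Complex.norm_real, Real.norm_eq_abs, abs_le]; constructor <;> linarith
  have e5 := lip3 hQE.1 hg e3 e4
  have e6 := abs_re_sub_le (Q := Q) s' s
  have e7 : ‖(s':ℂ) - s‖ ≤ 3 * c := by
    rw [← Complex.ofReal_sub, Complex.norm_real, Real.norm_eq_abs, abs_le]
    constructor <;> linarith
  have e8 : |(Q s').re - (Q s).re| = c ^ lam := by
    rw [e1, sub_zero, show (Q s').re = c ^ lam by linarith, abs_of_nonneg (by positivity)]
  calc c ^ lam = |(Q s').re - (Q s).re| := e8.symm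
    _ ≤ L * ‖(s':ℂ) - s‖ := e6.trans e5
    _ ≤ L * (3 * c) := mul_le_mul_of_nonneg_left e7 hL0.le
    _ = _ := by ring

lemma FeasT.grow (h0 : 0 < lam) (h1 : lam < 1) {c : ℝ} (hc : 0 < c)
    {Q : ℂ → ℂ} (hQ : FeasT lam c Q) (z : ℂ) :
    ‖Q z‖ ≤ (2 * (2 + c)) * (1 + ‖z‖) ^ 2 * Real.exp |z.im| := by
  obtain ⟨hQE, hQev, hQre, hQ1, hQ2⟩ := hQ
  have hQgrow : ∀ x : ℝ, ‖Q x‖ ≤ (2 + c) * (1 + |x|) ^ 2 := by
    intro x
    obtain ⟨t, ht1, ht2⟩ := hQ1 x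
    rw [norm_eq_abs_re hQre, ht2, abs_of_nonneg (by positivity)]
    rw [abs_le] at ht1
    have e1 : (t ^ 2) ^ lam ≤ (1 + x ^ 2 + c) ^ lam :=
      Real.rpow_le_rpow (by positivity) (by linarith) h0.le
    have e2 : (1 + x ^ 2 + c) ^ lam ≤ (1 + x ^ 2 + c) ^ (1:ℝ) :=
      Real.rpow_le_rpow_of_exponent_le (by nlinarith [sq_nonneg x]) h1.le
    rw [Real.rpow_one] at e2
    have e3 : 1 ≤ (1 + |x|) ^ 2 := one_le_pow₀ (by linarith [abs_nonneg x])
    have e4 : x ^ 2 ≤ (1 + |x|) ^ 2 := by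
      rw [← sq_abs]
      exact pow_le_pow_left₀ (abs_nonneg _) (by linarith) 2
    nlinarith
  have := pl_bound zero_le_one hQE hQgrow z
  rwa [one_mul] at this

lemma deriv_zero_of_even {Q : ℂ → ℂ} (hd : Differentiable ℂ Q) (he : ∀ z, Q (-z) = Q z) :
    deriv Q 0 = 0 := by
  have h1 : HasDerivAt Q (deriv Q 0) 0 := (hd 0).hasDerivAt
  have h2 : HasDerivAt (fun z => Q (-z)) (deriv Q 0 * -1) 0 := by
    have h3 : HasDerivAt Q (deriv Q 0) (-0) := by simpa using h1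
    exact h3.comp 0 (hasDerivAt_neg 0)
  have h3 : (fun z => Q (-z)) = Q := funext he
  rw [h3] at h2
  have h4 := h1.unique h2
  have h5 : (2:ℂ) * deriv Q 0 = 0 := by linear_combination h4
  simpa using h5

theorem posT (h0 : 0 < lam) (h1 : lam < 1) :
    ∃ c₀ : ℝ, 0 < c₀ ∧ ∀ c : ℝ, 0 < c → ∀ Q, FeasT lam c Q → c₀ ≤ c := by
  set L := LK 6 with hL
  have hL0 : 0 < L := by rw [hL]; unfold LK; positivity
  refine ⟨min 1 ((1 / (3 * L)) ^ (1 / (1 - lam))), by positivity, fun c hc Q hQ => ?_⟩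
  by_cases hc1 : 1 ≤ c
  · exact (min_le_left _ _).trans hc1
  push Not at hc1
  refine (min_le_right _ _).trans ?_
  have hg : ∀ z : ℂ, ‖Q z‖ ≤ 6 * (1 + ‖z‖) ^ 2 * Real.exp |z.im| := by
    intro z
    refine (FeasT.grow h0 h1 hc hQ z).trans ?_
    have : 2 * (2 + c) ≤ 6 := by linarith
    gcongr
  obtain ⟨hQE, hQev, hQre, hQ1, hQ2⟩ := hQ
  apply c_lower h1 hL0 hc
  obtain ⟨s, hs1, hs2⟩ := hQ2 0
  obtain ⟨s', hs'1, hs'2⟩ := hQ2 (Real.sqrt c)
  rw [Real.sq_sqrt hc.le] at hs'1 hs'2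
  have hz : ((0:ℝ) ^ 2) ^ lam = 0 := by
    rw [zero_pow two_ne_zero, Real.zero_rpow h0.ne']
  rw [hz] at hs2
  rw [zero_pow two_ne_zero, sub_zero, abs_of_nonneg (sq_nonneg s)] at hs1
  rw [abs_le] at hs'1
  have hd0 := deriv_zero_of_even hQE.1 hQev
  have key : ∀ x : ℝ, x ^ 2 ≤ 2 → |(Q x).re - (Q (0:ℝ)).re| ≤ L * x ^ 2 := by
    intro x hx
    have e1 : ‖(x:ℂ)‖ ≤ 2 := by
      rw [Complex.norm_real, Real.norm_eq_abs]
      apply abs_le_of_sq_le_sq _ two_pos.le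
      nlinarith
    have e2 := taylor2 hQE.1 hg e1
    rw [hd0, zero_mul, sub_zero, Complex.norm_real, Real.norm_eq_abs, sq_abs] at e2
    have e3 := abs_re_sub_le (Q := Q) x 0
    rw [Complex.ofReal_zero] at e3 ⊢
    exact e3.trans e2
  have k1 := key s (by linarith)
  have k2 := key s' (by linarith)
  rw [hs2] at k1
  rw [hs'2] at k2
  rw [abs_le] at k1 k2
  have : L * s ^ 2 ≤ L * c := mul_le_mul_of_nonneg_left hs1 hL0.le
  have : L * s' ^ 2 ≤ L * (2 * c) := mul_le_mul_of_nonneg_left (by linarith) hL0.le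
  linarith [k1.1, k2.2]

theorem pos1 {α : ℝ} (hα : 0 < α) (h : PT 1 1 F) :
    ∃ c₀ : ℝ, 0 < c₀ ∧ ∀ c : ℝ, 0 < c → ∀ Q, Feas F c (c / α) Q → c₀ ≤ c := by
  set L := LK 8 with hL
  have hL0 : 1 ≤ L := by
    rw [hL]; unfold LK
    have : 1 ≤ Real.exp 4 := by
      rw [← Real.exp_zero]; exact Real.exp_le_exp.mpr (by norm_num)
    nlinarith
  have hFabs : ∀ t, F t = |t| := by
    intro t
    rcases le_total 0 t with ht | ht
    · rw [h.2.1 t ht, abs_of_nonneg ht, Real.rpow_one]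
    · have h1 := h.2.2.1 (-t)
      rw [neg_neg, one_mul, h.2.1 (-t) (by linarith), Real.rpow_one] at h1
      rw [h1, abs_of_nonpos ht]
  refine ⟨min (min 1 α) (1 / (8 * L) / (1 + 1 / α)), by positivity, fun c hc Q hQ => ?_⟩
  by_cases hc1 : min 1 α ≤ c
  · exact (min_le_left _ _).trans hc1
  push Not at hc1
  have hc2 : c < 1 := lt_of_lt_of_le hc1 (min_le_left _ _)
  have hc3 : c < α := lt_of_lt_of_le hc1 (min_le_right _ _)
  refine (min_le_right _ _).trans ?_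
  have hv : c / α ≤ 1 := by rw [div_le_one hα]; exact hc3.le
  have hv0 : 0 ≤ c / α := by positivity
  have hg : ∀ z : ℂ, ‖Q z‖ ≤ 8 * (1 + ‖z‖) ^ 2 * Real.exp |z.im| := by
    intro z
    refine (Feas.grow h one_pos le_rfl hc hv0 hQ z).trans ?_
    have : 2 * (1 + c / α + 2 * c ^ (1:ℝ)) ≤ 8 := by rw [Real.rpow_one]; linarith
    gcongr
  obtain ⟨hQE, hQre, hQ1, hQ2⟩ := hQ
  have hclose : ∀ s : ℝ, |(Q s).re - (|s|)| ≤ c + c / α := by
    intro s
    obtain ⟨t, ht1, ht2⟩ := hQ1 s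
    rw [hFabs] at ht2
    have e1 := abs_abs_sub_abs_le_abs_sub s t
    rw [abs_le] at e1 ht2 ⊢
    constructor <;> linarith
  set δ := 1 / (2 * L) with hδ
  have hδ0 : 0 < δ := by rw [hδ]; positivity
  have hδ1 : δ ≤ 1 := by
    rw [hδ, div_le_one (by positivity)]; linarith
  have t1 := taylor2 hQE.1 hg (z := (δ:ℂ)) (by
    rw [Complex.norm_real, Real.norm_eq_abs, abs_of_pos hδ0]; linarith)
  have t2 := taylor2 hQE.1 hg (z := ((-δ : ℝ) : ℂ)) (by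
    rw [Complex.norm_real, Real.norm_eq_abs, abs_neg, abs_of_pos hδ0]; linarith)
  rw [Complex.norm_real, Real.norm_eq_abs, sq_abs] at t1 t2
  rw [neg_sq] at t2
  have t3 : |(Q (δ:ℂ)).re + (Q ((-δ : ℝ) : ℂ)).re - 2 * (Q 0).re| ≤ 2 * L * δ ^ 2 := by
    have e1 : (Q (δ:ℂ)).re + (Q ((-δ : ℝ) : ℂ)).re - 2 * (Q 0).re =
        ((Q (δ:ℂ) - Q 0 - deriv Q 0 * δ) + (Q ((-δ : ℝ) : ℂ) - Q 0 - deriv Q 0 * ((-δ : ℝ) : ℂ))).re := by
      have : (Q (δ:ℂ) - Q 0 - deriv Q 0 * δ) + (Q ((-δ : ℝ) : ℂ) - Q 0 - deriv Q 0 * ((-δ : ℝ) : ℂ)) =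
          Q (δ:ℂ) + Q ((-δ : ℝ) : ℂ) - 2 * Q 0 := by
        push_cast
        ring
      rw [this]
      simp
    rw [e1]
    refine (Complex.abs_re_le_norm _).trans ((norm_add_le _ _).trans ?_)
    linarith
  have c1 := abs_le.1 (hclose δ)
  have c2 := abs_le.1 (hclose (-δ))
  have c3 := abs_le.1 (hclose 0)
  rw [abs_le] at t3
  rw [abs_of_pos hδ0] at c1
  rw [abs_neg, abs_of_pos hδ0] at c2
  rw [abs_zero, Complex.ofReal_zero] at c3
  have hfin : 2 * δ - 2 * L * δ ^ 2 ≤ 4 * (c + c / α) := by linarith [c1.1, c2.1, c3.2, t3.2]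
  have hval : 2 * δ - 2 * L * δ ^ 2 = 1 / (2 * L) := by
    rw [hδ]; field_simp; ring
  rw [hval] at hfin
  rw [div_le_iff₀ (by positivity)]
  have e5 : c * (1 + 1 / α) = c + c / α := by ring
  rw [e5]
  have e6 : 1 / (8 * L) = (1 / (2 * L)) / 4 := by field_simp; norm_num
  rw [e6]
  linarith

end Pool.Agent.H293.HA
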