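import Pool.Agent.H293.HA.Conv

/-!
# Real variable part of the upper bound for `|x|^λ` and `|x|^λ sgn x`
-/

set_option autoImplicit false

open Filter Asymptotics Topology Set MeasureTheory

namespace Pool.Agent.H293.HA

lemma rpow_diff {l x y : ℝ} (h0 : 0 < l) (h1 : l ≤ 1) (hx : 0 ≤ x) (hy : 0 < y) :
    l * (y - x) * y ^ (l - 1) ≤ y ^ l - x ^ l := by
  have h2 : x = y * (1 + (x - y) / y) := by field_simp; ring
  have h3 : -1 ≤ (x - y) / y := by
    rw [le_div_iff₀ hy]; linarith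
  have h4 : 0 ≤ 1 + (x - y) / y := by linarith
  have h5 : x ^ l = y ^ l * (1 + (x - y) / y) ^ l := by
    conv_lhs => rw [h2]
    rw [Real.mul_rpow hy.le h4]
  have h6 := rpow_one_add_le_one_add_mul_self h3 h0.le h1
  have h7 : 0 < y ^ l := Real.rpow_pos_of_pos hy _
  rw [h5, Real.rpow_sub hy, Real.rpow_one]
  have h8 : y ^ l * (1 + (x - y) / y) ^ l ≤ y ^ l * (1 + l * ((x - y) / y)) :=
    mul_le_mul_of_nonneg_left h6 h7.le
  have h9 : l * (y - x) * (y ^ l / y) = y ^ l - y ^ l * (1 + l * ((x - y) / y)) := by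
    field_simp
    ring
  rw [h9]
  linarith

lemma one_sub_sinc_sq_le (x : ℝ) : 1 - Real.sinc x ^ 2 ≤ x ^ 2 := by
  rcases le_total 1 |x| with h | h
  · have h1 : 1 ≤ x ^ 2 := by
      rw [← sq_abs]
      exact one_le_pow₀ h
    nlinarith [sq_nonneg (Real.sinc x)]
  · by_cases hx : x = 0
    · subst hx; simp
    · have h2 : 0 < |x| := abs_pos.2 hx
      have h3 : Real.sinc x = Real.sinc |x| := by
        rcases le_total 0 x with h0 | h0
        · rw [abs_of_nonneg h0]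
        · rw [abs_of_nonpos h0, Real.sinc_neg]
      have h4 := Real.sin_gt_sub_cube h2
      have h5 : 1 - |x| ^ 2 / 4 ≤ Real.sinc |x| := by
        rw [Real.sinc_of_ne_zero h2.ne', le_div_iff₀ h2]
        nlinarith
      rw [h3, ← sq_abs x]
      have h6 : |x| ^ 2 ≤ 1 := pow_le_one₀ h2.le h
      nlinarith

lemma sinc_sq_le {x : ℝ} (hx : x ≠ 0) : Real.sinc x ^ 2 ≤ 1 / x ^ 2 := by
  rw [Real.sinc_of_ne_zero hx, div_pow]
  apply div_le_div_of_nonneg_right _ (by positivity)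
  have := Real.sin_sq_le_one x
  simpa using this

lemma sinc_sq_le_one (x : ℝ) : Real.sinc x ^ 2 ≤ 1 := by
  rw [← sq_abs]
  exact pow_le_one₀ (abs_nonneg _) (Real.abs_sinc_le_one x)

lemma ivt_close {r : ℝ → ℝ} (hr : Continuous r) {a b y v : ℝ} (hab : a ≤ b) (hv : 0 ≤ v)
    (h1 : r a ≤ y + v) (h2 : y - v ≤ r b) : ∃ s ∈ Icc a b, |y - r s| ≤ v := by
  by_cases h3 : y - v ≤ r a
  · exact ⟨a, left_mem_Icc.2 hab, by rw [abs_le]; constructor <;> linarith⟩
  by_cases h4 : r b ≤ y + v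
  · exact ⟨b, right_mem_Icc.2 hab, by rw [abs_le]; constructor <;> linarith⟩
  push Not at h3 h4
  obtain ⟨s, hs, hs2⟩ := intermediate_value_Icc hab hr.continuousOn
    (show y ∈ Icc (r a) (r b) from ⟨by linarith, by linarith⟩)
  exact ⟨s, hs, by rw [hs2]; simpa using hv⟩

variable {lam ϵ : ℝ} {F : ℝ → ℝ}

lemma PT.holder (h : PT lam ϵ F) (h0 : 0 < lam) (h1 : lam ≤ 1) (s t : ℝ) :
    |F t - F s| ≤ 2 * |s - t| ^ lam := by
  have key : ∀ s t : ℝ, 0 ≤ s → s ≤ t → t ^ lam - s ^ lam ≤ (t - s) ^ lam ∧ s ^ lam ≤ t ^ lam := by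
    intro s t hs hst
    have h2 := Real.rpow_add_le_add_rpow hs (sub_nonneg.2 hst) h0.le h1
    rw [add_sub_cancel] at h2
    exact ⟨by linarith, Real.rpow_le_rpow hs hst h0.le⟩
  have hpos : ∀ s t : ℝ, 0 ≤ s → 0 ≤ t → |t ^ lam - s ^ lam| ≤ |s - t| ^ lam := by
    intro s t hs ht
    rcases le_total s t with h2 | h2
    · obtain ⟨h3, h4⟩ := key s t hs h2
      rw [abs_of_nonneg (by linarith), abs_of_nonpos (by linarith), neg_sub]
      exact h3
    · obtain ⟨h3, h4⟩ := key t s ht h2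
      rw [abs_of_nonpos (by linarith), abs_of_nonneg (by linarith), neg_sub]
      exact h3
  have hnn : 0 ≤ |s - t| ^ lam := by positivity
  rcases le_total 0 s with hs | hs <;> rcases le_total 0 t with ht | ht
  · rw [h.2.1 s hs, h.2.1 t ht]
    linarith [hpos s t hs ht]
  · have h2 : |F t - F s| ≤ |F t| + |F s| := abs_sub _ _
    rw [h.abs_eq, h.abs_eq] at h2
    have h3 : |t| ^ lam ≤ |s - t| ^ lam := by
      apply Real.rpow_le_rpow (abs_nonneg _) _ h0.le
      rw [abs_of_nonpos ht, abs_of_nonneg (by linarith)]; linarith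
    have h4 : |s| ^ lam ≤ |s - t| ^ lam := by
      apply Real.rpow_le_rpow (abs_nonneg _) _ h0.le
      rw [abs_of_nonneg hs, abs_of_nonneg (by linarith)]; linarith
    linarith
  · have h2 : |F t - F s| ≤ |F t| + |F s| := abs_sub _ _
    rw [h.abs_eq, h.abs_eq] at h2
    have h3 : |t| ^ lam ≤ |s - t| ^ lam := by
      apply Real.rpow_le_rpow (abs_nonneg _) _ h0.le
      rw [abs_of_nonneg ht, abs_of_nonpos (by linarith)]; linarith
    have h4 : |s| ^ lam ≤ |s - t| ^ lam := by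
      apply Real.rpow_le_rpow (abs_nonneg _) _ h0.le
      rw [abs_of_nonpos hs, abs_of_nonpos (by linarith)]; linarith
    linarith
  · have h2 := h.2.2.1 (-s)
    have h3 := h.2.2.1 (-t)
    rw [neg_neg] at h2 h3
    rw [h2, h3, ← mul_sub, abs_mul, h.2.1 _ (by linarith : 0 ≤ -s), h.2.1 _ (by linarith : 0 ≤ -t)]
    have h4 : |ϵ| = 1 := by
      rcases h.2.2.2 with h5 | h5 <;> rw [h5] <;> simp
    have h6 := hpos (-s) (-t) (by linarith) (by linarith)
    rw [show -s - -t = -(s - t) by ring, abs_neg] at h6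
    rw [h4]
    linarith

/-- one sided envelope -/
lemma PT.envelope (h : PT lam ϵ F) (h0 : 0 < lam) (h1 : lam ≤ 1) {c v K : ℝ} (hc : 0 < c)
    (hv : 0 ≤ v) {a g : ℝ → ℝ}
    (A1 : ∀ s, ∃ t, |s - t| ≤ c ∧ |F t - a s| ≤ v)
    (G1 : ∀ s, 1 ≤ |s| → |g s - F s| ≤ K * |s| ^ (lam - 2)) :
    ∃ T₀ : ℝ, ∀ T : ℝ, T₀ ≤ T → ∀ k : ℝ, 0 ≤ k → k ≤ 1 → 0 ≤ T - c ∧
      F (T - c) - v ≤ k * a T + (1 - k) * g T ∧ k * a T + (1 - k) * g T ≤ F (T + c) + v := by
  refine ⟨max (max 1 c) (2 * K / (lam * c)), fun T hT k hk0 hk1 => ?_⟩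
  have hT1 : 1 ≤ T := le_trans (le_trans (le_max_left _ _) (le_max_left _ _)) hT
  have hTc : c ≤ T := le_trans (le_trans (le_max_right _ _) (le_max_left _ _)) hT
  have hTK : 2 * K / (lam * c) ≤ T := le_trans (le_max_right _ _) hT
  have hT0 : 0 < T := by linarith
  have hTc0 : 0 ≤ T - c := by linarith
  -- monotonicity of F on [0,∞)
  have hmono : ∀ x y : ℝ, 0 ≤ x → x ≤ y → F x ≤ F y := by
    intro x y hx hxy
    rw [h.2.1 x hx, h.2.1 y (by linarith)]
    exact Real.rpow_le_rpow hx hxy h0.le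
  obtain ⟨t, ht1, ht2⟩ := A1 T
  rw [abs_le] at ht1 ht2
  have ha1 : F (T - c) - v ≤ a T := by
    have := hmono (T - c) t hTc0 (by linarith)
    linarith
  have ha2 : a T ≤ F (T + c) + v := by
    have := hmono t (T + c) (by linarith) (by linarith)
    linarith
  have hg := G1 T (by rw [abs_of_pos hT0]; exact hT1)
  rw [abs_of_pos hT0, abs_le] at hg
  have hp : T ^ (lam - 2) = T ^ (lam - 1) / T := by
    rw [show lam - 2 = (lam - 1) - 1 by ring, Real.rpow_sub_one hT0.ne']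
  have hpp : 0 < T ^ (lam - 1) := Real.rpow_pos_of_pos hT0 _
  have hKT : K * T ^ (lam - 2) ≤ lam * c * T ^ (lam - 1) / 2 := by
    rw [hp, ← mul_div_assoc, div_le_div_iff₀ hT0 two_pos]
    rw [div_le_iff₀ (by positivity)] at hTK
    nlinarith
  have hd1 := rpow_diff h0 h1 hTc0 hT0
  rw [show T - (T - c) = c by ring] at hd1
  have hd2 := rpow_diff h0 h1 hT0.le (by linarith : 0 < T + c)
  rw [show T + c - T = c by ring] at hd2
  have h2T : (T + c) ^ (lam - 1) ≥ T ^ (lam - 1) / 2 := by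
    have h3 : (2 * T) ^ (lam - 1) ≤ (T + c) ^ (lam - 1) :=
      Real.rpow_le_rpow_of_nonpos (by linarith) (by linarith) (by linarith)
    rw [Real.mul_rpow two_pos.le hT0.le] at h3
    have h4 : (2:ℝ) ^ (-1:ℝ) ≤ 2 ^ (lam - 1) :=
      Real.rpow_le_rpow_of_exponent_le one_le_two (by linarith)
    rw [Real.rpow_neg_one] at h4
    nlinarith
  have hg1 : F (T - c) ≤ g T := by
    rw [h.2.1 _ hTc0]
    rw [h.2.1 _ hT0.le] at hg
    nlinarith
  have hg2 : g T ≤ F (T + c) := by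
    rw [h.2.1 _ (by linarith : 0 ≤ T + c)]
    rw [h.2.1 _ hT0.le] at hg
    have : 0 < lam * c := by positivity
    nlinarith
  refine ⟨hTc0, ?_, ?_⟩
  · have e1 := mul_le_mul_of_nonneg_left ha1 hk0
    have e2 : (1 - k) * (F (T - c) - v) ≤ (1 - k) * g T :=
      mul_le_mul_of_nonneg_left (by linarith) (by linarith)
    nlinarith
  · have e1 := mul_le_mul_of_nonneg_left ha2 hk0
    have e2 : (1 - k) * g T ≤ (1 - k) * (F (T + c) + v) :=
      mul_le_mul_of_nonneg_left (by linarith) (by linarith)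
    nlinarith

lemma PT.rv_pos (h : PT lam ϵ F) (h0 : 0 < lam) (h1 : lam ≤ 1) {c v K B T c₁ n : ℝ} (hc : 0 < c)
    (hv : 0 ≤ v) (hK : 0 ≤ K) (hc₁ : 0 < c₁) (hT : 0 ≤ T) {a g r : ℝ → ℝ}
    (hr : Continuous r)
    (A1 : ∀ s, ∃ t, |s - t| ≤ c ∧ |F t - a s| ≤ v)
    (A2 : ∀ t, ∃ s, |s - t| ≤ c ∧ |F t - a s| ≤ v)
    (G1 : ∀ s, 1 ≤ |s| → |g s - F s| ≤ K * |s| ^ (lam - 2))
    (hB : ∀ s, |a s - g s| ≤ B)
    (hn1 : 2 * (T + 3 * c) ≤ n) (hn2 : 2 ≤ n) (hn3 : B * (T + 2 * c) ^ 2 ≤ c₁ * n ^ lam)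
    (hn4 : 16 * B + 2 * K ≤ c₁ * n ^ lam)
    (hreq : ∀ s, r s = Real.sinc (s / (2 * Real.sqrt n)) ^ 2 * a s +
      (1 - Real.sinc (s / (2 * Real.sqrt n)) ^ 2) * g s)
    (hE : ∀ S : ℝ, T ≤ S → 0 ≤ S - c ∧ F (S - c) - v ≤ r S ∧ r S ≤ F (S + c) + v) :
    (∀ s, 0 ≤ s → s ≤ n → ∃ t, |t| ≤ n ∧ |s - t| ≤ c ∧ |F t - r s| ≤ v + c₁ * n ^ (lam - 1)) ∧
    (∀ t, 0 ≤ t → t ≤ n → ∃ s, |s| ≤ n ∧ |s - t| ≤ c ∧ |F t - r s| ≤ v + c₁ * n ^ (lam - 1)) := by
  have hn0 : 0 < n := by linarith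
  have hsq : Real.sqrt n ^ 2 = n := Real.sq_sqrt hn0.le
  have hsq0 : 0 < Real.sqrt n := Real.sqrt_pos.2 hn0
  have hnl : n ^ (lam - 1) = n ^ lam / n := by rw [Real.rpow_sub hn0, Real.rpow_one]
  have hnl0 : 0 < n ^ (lam - 1) := Real.rpow_pos_of_pos hn0 _
  have hcl : 0 ≤ c₁ * n ^ (lam - 1) := by positivity
  -- region one
  have R1 : ∀ s, |s| ≤ T + 2 * c → |a s - r s| ≤ c₁ * n ^ (lam - 1) := by
    intro s hs
    have e1 : a s - r s = (1 - Real.sinc (s / (2 * Real.sqrt n)) ^ 2) * (a s - g s) := by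
      rw [hreq]; ring
    have e2 := one_sub_sinc_sq_le (s / (2 * Real.sqrt n))
    have e3 : 0 ≤ 1 - Real.sinc (s / (2 * Real.sqrt n)) ^ 2 := by
      linarith [sinc_sq_le_one (s / (2 * Real.sqrt n))]
    rw [div_pow, mul_pow, hsq] at e2
    rw [e1, abs_mul, abs_of_nonneg e3]
    have e4 : s ^ 2 ≤ (T + 2 * c) ^ 2 := by
      rw [← sq_abs s]
      exact pow_le_pow_left₀ (abs_nonneg _) hs 2
    calc (1 - Real.sinc (s / (2 * Real.sqrt n)) ^ 2) * |a s - g s|
        ≤ ((T + 2 * c) ^ 2 / n) * B := by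
          apply mul_le_mul _ (hB s) (abs_nonneg _) (by positivity)
          refine e2.trans ?_
          rw [div_le_div_iff₀ (by positivity) hn0]
          nlinarith [sq_nonneg (T + 2 * c)]
      _ = (B * (T + 2 * c) ^ 2) / n := by ring
      _ ≤ c₁ * n ^ lam / n := div_le_div_of_nonneg_right hn3 hn0.le
      _ = _ := by rw [hnl]; ring
  -- region three
  have R3 : ∀ s, n / 2 ≤ s → |F s - r s| ≤ c₁ * n ^ (lam - 1) := by
    intro s hs
    have hs0 : 0 < s := by linarith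
    have e1 : r s - F s = Real.sinc (s / (2 * Real.sqrt n)) ^ 2 * (a s - g s) + (g s - F s) := by
      rw [hreq]; ring
    have e2 : Real.sinc (s / (2 * Real.sqrt n)) ^ 2 ≤ 16 / n := by
      refine (sinc_sq_le (by positivity)).trans ?_
      rw [div_pow, mul_pow, hsq, one_div_div, div_le_div_iff₀ (by positivity) hn0]
      nlinarith
    have e3 : |g s - F s| ≤ 2 * K / n := by
      have e4 := G1 s (by rw [abs_of_pos hs0]; linarith)
      rw [abs_of_pos hs0] at e4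
      refine e4.trans ?_
      have e5 : s ^ (lam - 2) = s ^ (lam - 1) / s := by
        rw [show lam - 2 = (lam - 1) - 1 by ring, Real.rpow_sub_one hs0.ne']
      have e6 : s ^ (lam - 1) ≤ 1 := Real.rpow_le_one_of_one_le_of_nonpos (by linarith) (by linarith)
      have e7 : s ^ (lam - 2) ≤ 2 / n := by
        rw [e5, div_le_div_iff₀ hs0 hn0]
        nlinarith
      calc K * s ^ (lam - 2) ≤ K * (2 / n) := mul_le_mul_of_nonneg_left e7 hK
        _ = _ := by ring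
    rw [abs_sub_comm, e1]
    calc |Real.sinc (s / (2 * Real.sqrt n)) ^ 2 * (a s - g s) + (g s - F s)|
        ≤ |Real.sinc (s / (2 * Real.sqrt n)) ^ 2 * (a s - g s)| + |g s - F s| := abs_add_le _ _
      _ ≤ 16 / n * B + 2 * K / n := by
          rw [abs_mul, abs_of_nonneg (by positivity : 0 ≤ Real.sinc (s / (2 * Real.sqrt n)) ^ 2)]
          exact add_le_add (mul_le_mul e2 (hB s) (abs_nonneg _) (by positivity)) e3
      _ = (16 * B + 2 * K) / n := by ring
      _ ≤ c₁ * n ^ lam / n := div_le_div_of_nonneg_right hn4 hn0.le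
      _ = _ := by rw [hnl]; ring
  constructor
  · intro s hs0 hsn
    by_cases hsT : s ≤ T + 2 * c
    · obtain ⟨t, ht1, ht2⟩ := A1 s
      refine ⟨t, ?_, ht1, ?_⟩
      · rw [abs_le] at ht1 ⊢
        constructor <;> linarith
      · have e1 := R1 s (by rw [abs_of_nonneg hs0]; exact hsT)
        calc |F t - r s| = |(F t - a s) + (a s - r s)| := by congr 1; ring
          _ ≤ |F t - a s| + |a s - r s| := abs_add_le _ _
          _ ≤ _ := add_le_add ht2 e1
    · push Not at hsT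
      by_cases hs2 : n / 2 ≤ s
      · exact ⟨s, by rw [abs_of_nonneg hs0]; exact hsn, by simpa using hc.le,
          (R3 s hs2).trans (by linarith)⟩
      · push Not at hs2
        obtain ⟨e1, e2, e3⟩ := hE s (by linarith)
        obtain ⟨t, ht, ht2⟩ := ivt_close h.1 (a := s - c) (b := s + c) (y := r s) (v := v)
          (by linarith) hv (by linarith) (by linarith)
        rw [mem_Icc] at ht
        refine ⟨t, ?_, ?_, ?_⟩
        · rw [abs_le]; constructor <;> linarith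
        · rw [abs_le]; constructor <;> linarith
        · rw [abs_sub_comm]; linarith
  · intro t ht0 htn
    by_cases htT : t ≤ T + c
    · obtain ⟨s, hs1, hs2⟩ := A2 t
      refine ⟨s, ?_, hs1, ?_⟩
      · rw [abs_le] at hs1 ⊢
        constructor <;> linarith
      · have e1 := R1 s (by rw [abs_le] at hs1 ⊢; constructor <;> linarith)
        calc |F t - r s| = |(F t - a s) + (a s - r s)| := by congr 1; ring
          _ ≤ |F t - a s| + |a s - r s| := abs_add_le _ _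
          _ ≤ _ := add_le_add hs2 e1
    · push Not at htT
      by_cases ht2 : n / 2 ≤ t
      · exact ⟨t, by rw [abs_of_nonneg ht0]; exact htn, by simpa using hc.le,
          (R3 t ht2).trans (by linarith)⟩
      · push Not at ht2
        obtain ⟨_, _, e3⟩ := hE (t - c) (by linarith)
        obtain ⟨_, e5, _⟩ := hE (t + c) (by linarith)
        rw [sub_add_cancel] at e3
        rw [add_sub_cancel_right] at e5
        obtain ⟨s, hs, hs2⟩ := ivt_close hr (a := t - c) (b := t + c) (y := F t) (v := v)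
          (by linarith) hv (by linarith) (by linarith)
        rw [mem_Icc] at hs
        refine ⟨s, ?_, ?_, by linarith⟩
        · rw [abs_le]; constructor <;> linarith
        · rw [abs_le]; constructor <;> linarith

lemma PT.eps_sq (h : PT lam ϵ F) : ϵ * ϵ = 1 := by
  rcases h.2.2.2 with h5 | h5 <;> rw [h5] <;> norm_num

lemma PT.abs_eps (h : PT lam ϵ F) : |ϵ| = 1 := by
  rcases h.2.2.2 with h5 | h5 <;> rw [h5] <;> simp

theorem PT.rv (h : PT lam ϵ F) (h0 : 0 < lam) (h1 : lam ≤ 1) {c v K c₁ : ℝ} (hc : 0 < c)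
    (hv : 0 ≤ v) (hK : 0 < K) (hc₁ : 0 < c₁) {a g : ℝ → ℝ}
    (ha : Continuous a) (hg : Continuous g)
    (A1 : ∀ s, ∃ t, |s - t| ≤ c ∧ |F t - a s| ≤ v)
    (A2 : ∀ t, ∃ s, |s - t| ≤ c ∧ |F t - a s| ≤ v)
    (G0 : ∀ s, |g s - F s| ≤ K)
    (G1 : ∀ s, 1 ≤ |s| → |g s - F s| ≤ K * |s| ^ (lam - 2)) :
    ∀ᶠ n : ℕ in atTop, ∀ r : ℝ → ℝ, (∀ s, r s = Real.sinc (s / (2 * Real.sqrt n)) ^ 2 * a s +
      (1 - Real.sinc (s / (2 * Real.sqrt n)) ^ 2) * g s) →
    (∀ s : ℝ, |s| ≤ n → ∃ t : ℝ, |t| ≤ n ∧ |s - t| ≤ c ∧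
      |F t - r s| ≤ v + c₁ * (n:ℝ) ^ (lam - 1)) ∧
    (∀ t : ℝ, |t| ≤ n → ∃ s : ℝ, |s| ≤ n ∧ |s - t| ≤ c ∧
      |F t - r s| ≤ v + c₁ * (n:ℝ) ^ (lam - 1)) := by
  have hFneg : ∀ s, ϵ * F (-s) = F s := by
    intro s
    rw [h.2.2.1, ← mul_assoc, h.eps_sq, one_mul]
  have hrefl : ∀ x y : ℝ, |ϵ * x - ϵ * y| = |x - y| := by
    intro x y
    rw [← mul_sub, abs_mul, h.abs_eps, one_mul]
  -- reflected data
  have A1' : ∀ s, ∃ t, |s - t| ≤ c ∧ |F t - ϵ * a (-s)| ≤ v := by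
    intro s
    obtain ⟨t, ht1, ht2⟩ := A1 (-s)
    refine ⟨-t, ?_, ?_⟩
    · rw [← abs_neg]
      convert ht1 using 2
      ring
    · rw [h.2.2.1, hrefl]
      exact ht2
  have A2' : ∀ t, ∃ s, |s - t| ≤ c ∧ |F t - ϵ * a (-s)| ≤ v := by
    intro t
    obtain ⟨s, hs1, hs2⟩ := A2 (-t)
    refine ⟨-s, ?_, ?_⟩
    · rw [← abs_neg]
      convert hs1 using 2
      ring
    · rw [neg_neg, ← hFneg, hrefl]
      exact hs2
  have G1' : ∀ s, 1 ≤ |s| → |ϵ * g (-s) - F s| ≤ K * |s| ^ (lam - 2) := by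
    intro s hs
    rw [← hFneg s, hrefl, ← abs_neg s]
    exact G1 (-s) (by rwa [abs_neg])
  obtain ⟨T₁, hT₁⟩ := h.envelope h0 h1 hc hv A1 G1
  obtain ⟨T₂, hT₂⟩ := h.envelope (g := fun s => ϵ * g (-s)) h0 h1 hc hv A1' G1'
  set T := max (max T₁ T₂) 0 with hT
  have hTT1 : T₁ ≤ T := le_trans (le_max_left _ _) (le_max_left _ _)
  have hTT2 : T₂ ≤ T := le_trans (le_max_right _ _) (le_max_left _ _)
  have hT0 : 0 ≤ T := le_max_right _ _
  set B := v + 2 * c ^ lam + K with hBdef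
  have hB0 : 0 ≤ B := by rw [hBdef]; positivity
  have hB : ∀ s, |a s - g s| ≤ B := by
    intro s
    obtain ⟨t, ht1, ht2⟩ := A1 s
    have e1 := h.holder h0 h1 s t
    have e2 : |s - t| ^ lam ≤ c ^ lam := Real.rpow_le_rpow (abs_nonneg _) ht1 h0.le
    have e3 : a s - g s = -(F t - a s) + (F t - F s) - (g s - F s) := by ring
    rw [e3, hBdef]
    calc |-(F t - a s) + (F t - F s) - (g s - F s)| ≤ |-(F t - a s) + (F t - F s)| + |g s - F s| :=
          abs_sub _ _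
      _ ≤ |-(F t - a s)| + |F t - F s| + |g s - F s| := by gcongr; exact abs_add_le _ _
      _ ≤ v + 2 * c ^ lam + K := by
          rw [abs_neg]
          have := G0 s
          linarith
  have hB' : ∀ s, |ϵ * a (-s) - ϵ * g (-s)| ≤ B := by
    intro s
    rw [hrefl]
    exact hB _
  have hlim : Tendsto (fun n : ℕ => c₁ * (n:ℝ) ^ lam) atTop atTop :=
    ((tendsto_rpow_atTop h0).comp tendsto_natCast_atTop_atTop).const_mul_atTop hc₁
  filter_upwards [tendsto_natCast_atTop_atTop.eventually (eventually_ge_atTop (2 * (T + 3 * c))),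
    tendsto_natCast_atTop_atTop.eventually (eventually_ge_atTop (2:ℝ)),
    hlim.eventually (eventually_ge_atTop (B * (T + 2 * c) ^ 2)),
    hlim.eventually (eventually_ge_atTop (16 * B + 2 * K))] with n hn1 hn2 hn3 hn4 r hr
  have hkc : Continuous (fun s : ℝ => Real.sinc (s / (2 * Real.sqrt n)) ^ 2) :=
    (Real.continuous_sinc.comp (continuous_id.div_const _)).pow 2
  have hrc : Continuous r := by
    have : r = fun s => Real.sinc (s / (2 * Real.sqrt n)) ^ 2 * a s +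
      (1 - Real.sinc (s / (2 * Real.sqrt n)) ^ 2) * g s := funext hr
    rw [this]
    exact (hkc.mul ha).add ((continuous_const.sub hkc).mul hg)
  have hr' : ∀ s, ϵ * r (-s) = Real.sinc (s / (2 * Real.sqrt n)) ^ 2 * (ϵ * a (-s)) +
      (1 - Real.sinc (s / (2 * Real.sqrt n)) ^ 2) * (ϵ * g (-s)) := by
    intro s
    rw [hr, neg_div, Real.sinc_neg]
    ring
  have hk : ∀ s : ℝ, 0 ≤ Real.sinc (s / (2 * Real.sqrt n)) ^ 2 ∧
      Real.sinc (s / (2 * Real.sqrt n)) ^ 2 ≤ 1 := fun s => ⟨by positivity, sinc_sq_le_one _⟩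
  obtain ⟨P1, P2⟩ := h.rv_pos h0 h1 hc hv hK.le hc₁ hT0 hrc A1 A2 G1 hB hn1 hn2 hn3 hn4 hr
    (fun S hS => by
      rw [hr]
      exact hT₁ S (hTT1.trans hS) _ (hk S).1 (hk S).2)
  obtain ⟨N1, N2⟩ := h.rv_pos (r := fun s => ϵ * r (-s)) (g := fun s => ϵ * g (-s)) h0 h1 hc hv
    hK.le hc₁ hT0
    (continuous_const.mul (hrc.comp continuous_neg)) A1' A2' G1' hB' hn1 hn2 hn3 hn4 hr'
    (fun S hS => by
      rw [hr']
      exact hT₂ S (hTT2.trans hS) _ (hk S).1 (hk S).2)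
  constructor
  · intro s hs
    rcases le_total 0 s with hs0 | hs0
    · rw [abs_of_nonneg hs0] at hs
      exact P1 s hs0 hs
    · rw [abs_of_nonpos hs0] at hs
      obtain ⟨t, ht1, ht2, ht3⟩ := N1 (-s) (by linarith) hs
      refine ⟨-t, by rwa [abs_neg], ?_, ?_⟩
      · rw [← abs_neg]
        convert ht2 using 2
        ring
      · rw [h.2.2.1]
        rw [neg_neg] at ht3
        have e1 : |F t - ϵ * r s| = |ϵ * F t - r s| := by
          have : F t - ϵ * r s = ϵ * (ϵ * F t - r s) := by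
            rw [mul_sub, ← mul_assoc, h.eps_sq, one_mul]
          rw [this, abs_mul, h.abs_eps, one_mul]
        rwa [← e1]
  · intro t ht
    rcases le_total 0 t with ht0 | ht0
    · rw [abs_of_nonneg ht0] at ht
      exact P2 t ht0 ht
    · rw [abs_of_nonpos ht0] at ht
      obtain ⟨s, hs1, hs2, hs3⟩ := N2 (-t) (by linarith) ht
      refine ⟨-s, by rwa [abs_neg], ?_, ?_⟩
      · rw [← abs_neg]
        convert hs2 using 2
        ring
      · rw [h.2.2.1, hrefl] at hs3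
        exact hs3

end Pool.Agent.H293.HA
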