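import Pool.Agent.H293.HA.UpB

/-!
# Real variable part of the upper bound for `(1-x^2)^λ`
-/

set_option autoImplicit false

open Filter Asymptotics Topology Set MeasureTheory

namespace Pool.Agent.H293.HA

lemma rpow_diff' {l x y : ℝ} (h0 : 0 < l) (h1 : l ≤ 1) (hx : 0 < x) (hy : 0 ≤ y) :
    y ^ l - x ^ l ≤ l * (y - x) * x ^ (l - 1) := by
  have h2 : y = x * (1 + (y - x) / x) := by field_simp; ring
  have h3 : -1 ≤ (y - x) / x := by
    rw [le_div_iff₀ hx]; linarith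
  have h4 : 0 ≤ 1 + (y - x) / x := by linarith
  have h5 : y ^ l = x ^ l * (1 + (y - x) / x) ^ l := by
    conv_lhs => rw [h2]
    rw [Real.mul_rpow hx.le h4]
  have h6 := rpow_one_add_le_one_add_mul_self h3 h0.le h1
  have h7 : 0 < x ^ l := Real.rpow_pos_of_pos hx _
  rw [h5, Real.rpow_sub hx, Real.rpow_one]
  have h8 : x ^ l * (1 + (y - x) / x) ^ l ≤ x ^ l * (1 + l * ((y - x) / x)) :=
    mul_le_mul_of_nonneg_left h6 h7.le
  have h9 : l * (y - x) * (x ^ l / x) = x ^ l * (1 + l * ((y - x) / x)) - x ^ l := by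
    field_simp
    ring
  rw [h9]
  linarith

variable {lam : ℝ}

/-- two sided bounds for the increments of `X^λ` at `X = S^2` -/
lemma incr_bounds (h0 : 0 < lam) (h1 : lam < 1) {c S : ℝ} (hc : 0 < c) (hS0 : 0 < S)
    (hS : 2 * c ≤ S ^ 2) :
    lam * c / 2 * S ^ (2 * lam - 2) ≤ (S ^ 2 + c) ^ lam - (S ^ 2) ^ lam ∧
    lam * c / 2 * S ^ (2 * lam - 2) ≤ (S ^ 2) ^ lam - (S ^ 2 - c) ^ lam ∧
    (S ^ 2 + c) ^ lam - (S ^ 2) ^ lam ≤ 2 * c * S ^ (2 * lam - 2) ∧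
    (S ^ 2) ^ lam - (S ^ 2 - c) ^ lam ≤ 2 * c * S ^ (2 * lam - 2) := by
  have hS2 : 0 < S ^ 2 := by positivity
  have hp : (S ^ 2) ^ (lam - 1) = S ^ (2 * lam - 2) := by
    rw [← Real.rpow_natCast S 2, ← Real.rpow_mul hS0.le]
    congr 1
    push_cast
    ring
  have hpp : 0 < S ^ (2 * lam - 2) := Real.rpow_pos_of_pos hS0 _
  have e1 := rpow_diff (x := S ^ 2) (y := S ^ 2 + c) h0 h1.le hS2.le (by positivity)
  have e2 := rpow_diff (x := S ^ 2 - c) (y := S ^ 2) h0 h1.le (by linarith) hS2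
  have e3 := rpow_diff' (x := S ^ 2) (y := S ^ 2 + c) h0 h1.le hS2 (by positivity)
  have e4 := rpow_diff' (x := S ^ 2 - c) (y := S ^ 2) h0 h1.le (by linarith) hS2.le
  rw [show S ^ 2 + c - S ^ 2 = c by ring] at e1 e3
  rw [show S ^ 2 - (S ^ 2 - c) = c by ring] at e2 e4
  rw [hp] at e2 e3
  have hhalf : (1:ℝ) / 2 ≤ 2 ^ (lam - 1) := by
    have h4 : (2:ℝ) ^ (-1:ℝ) ≤ 2 ^ (lam - 1) :=
      Real.rpow_le_rpow_of_exponent_le one_le_two (by linarith)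
    rw [Real.rpow_neg_one] at h4
    linarith
  have e5 : 1 / 2 * S ^ (2 * lam - 2) ≤ (S ^ 2 + c) ^ (lam - 1) := by
    have h3 : (2 * S ^ 2) ^ (lam - 1) ≤ (S ^ 2 + c) ^ (lam - 1) :=
      Real.rpow_le_rpow_of_nonpos (by linarith) (by linarith) (by linarith)
    rw [Real.mul_rpow two_pos.le hS2.le, hp] at h3
    nlinarith
  have e6 : (S ^ 2 - c) ^ (lam - 1) ≤ 2 * S ^ (2 * lam - 2) := by
    have h3 : (S ^ 2 - c) ^ (lam - 1) ≤ (S ^ 2 / 2) ^ (lam - 1) :=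
      Real.rpow_le_rpow_of_nonpos (by linarith) (by linarith) (by linarith)
    rw [Real.div_rpow hS2.le two_pos.le, hp] at h3
    refine h3.trans ?_
    rw [div_le_iff₀ (by positivity)]
    nlinarith
  have hlc : 0 < lam * c := by positivity
  refine ⟨?_, ?_, ?_, ?_⟩
  · nlinarith
  · nlinarith [mul_pos hlc hpp]
  · nlinarith [mul_pos hc hpp]
  · have : lam * c * (S ^ 2 - c) ^ (lam - 1) ≤ c * (2 * S ^ (2 * lam - 2)) := by
      calc lam * c * (S ^ 2 - c) ^ (lam - 1) ≤ 1 * c * (S ^ 2 - c) ^ (lam - 1) := by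
            apply mul_le_mul_of_nonneg_right _ (Real.rpow_nonneg (by linarith) _)
            nlinarith
        _ ≤ c * (2 * S ^ (2 * lam - 2)) := by
            rw [one_mul]
            exact mul_le_mul_of_nonneg_left e6 hc.le
    linarith

theorem rvT (h0 : 0 < lam) (h1 : lam < 1) {c c₁ η : ℝ} (hc : 0 < c) (hc₁ : 0 < c₁) (hη : 0 < η)
    (hη1 : η ≤ 1) {a g : ℝ → ℝ} (ha : Continuous a) (hg : Continuous g) (hae : ∀ s, a (-s) = a s)
    (A1 : ∀ s : ℝ, ∃ t : ℝ, |s ^ 2 - t ^ 2| ≤ c ∧ a s = (t ^ 2) ^ lam)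
    (A2 : ∀ t : ℝ, ∃ s : ℝ, |s ^ 2 - t ^ 2| ≤ c ∧ a s = (t ^ 2) ^ lam)
    (G : Tendsto (fun t : ℝ => t ^ (2 - 2 * lam) * (g t - (t ^ 2) ^ lam)) atTop (𝓝 0)) :
    ∀ᶠ n : ℕ in atTop, ∀ r : ℝ → ℝ,
      (∀ s, r s = Real.sinc ((n:ℝ) ^ (lam / 2 - 1) * s) ^ 2 * a s +
        (1 - Real.sinc ((n:ℝ) ^ (lam / 2 - 1) * s) ^ 2) * g s) →
    (∀ s : ℝ, 0 ≤ s → s ≤ n → ∃ t : ℝ, 0 ≤ t ∧ t ≤ n ∧
      (s = t ∨ (|s ^ 2 - t ^ 2| ≤ c ∧ s ≤ η * n ∧ t ≤ η * n)) ∧
      |(t ^ 2) ^ lam - r s| ≤ c₁ * (n:ℝ) ^ (2 * lam - 2)) ∧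
    (∀ t : ℝ, 0 ≤ t → t ≤ n → ∃ s : ℝ, 0 ≤ s ∧ s ≤ n ∧
      (s = t ∨ (|s ^ 2 - t ^ 2| ≤ c ∧ s ≤ η * n ∧ t ≤ η * n)) ∧
      |(t ^ 2) ^ lam - r s| ≤ c₁ * (n:ℝ) ^ (2 * lam - 2)) := by
  -- decay of g
  have hGθ : ∀ θ : ℝ, 0 < θ → ∃ T : ℝ, ∀ S : ℝ, T ≤ S → 0 < S →
      |g S - (S ^ 2) ^ lam| ≤ θ * S ^ (2 * lam - 2) := by
    intro θ hθ
    have h2 := G.abs
    rw [abs_zero] at h2
    obtain ⟨T, hT⟩ := (h2.eventually (gt_mem_nhds hθ)).exists_forall_of_atTop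
    refine ⟨T, fun S hS hS0 => ?_⟩
    have h3 := (hT S hS).le
    have h4 : 0 < S ^ (2 - 2 * lam) := Real.rpow_pos_of_pos hS0 _
    rw [abs_mul, abs_of_pos h4] at h3
    have h5 : S ^ (2 * lam - 2) = (S ^ (2 - 2 * lam))⁻¹ := by
      rw [← Real.rpow_neg hS0.le]; congr 1; ring
    rw [h5, ← div_eq_mul_inv, le_div_iff₀ h4]
    linarith
  obtain ⟨T₂, hT₂⟩ := hGθ (lam * c / 2) (by positivity)
  set θ' := c₁ * (η / 2) ^ (2 - 2 * lam) / 2 with hθ'
  have hθ'0 : 0 < θ' := by positivity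
  obtain ⟨T₃, hT₃⟩ := hGθ θ' hθ'0
  set T₀ := max (max T₂ T₃) (max 1 (Real.sqrt (2 * c))) with hT₀
  have hT02 : T₂ ≤ T₀ := le_trans (le_max_left _ _) (le_max_left _ _)
  have hT03 : T₃ ≤ T₀ := le_trans (le_max_right _ _) (le_max_left _ _)
  have hT01 : 1 ≤ T₀ := le_trans (le_max_left _ _) (le_max_right _ _)
  have hT0c : ∀ S, T₀ ≤ S → 2 * c ≤ S ^ 2 := by
    intro S hS
    have e1 : Real.sqrt (2 * c) ≤ S := le_trans (le_trans (le_max_right _ _) (le_max_right _ _)) hS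
    have e2 := Real.sq_sqrt (by positivity : 0 ≤ 2 * c)
    rw [← e2]
    exact pow_le_pow_left₀ (Real.sqrt_nonneg _) e1 2
  have hTpos : ∀ S, T₀ ≤ S → 0 < S := fun S hS => by linarith
  -- envelope
  have hmono : ∀ x y : ℝ, 0 ≤ x → x ≤ y → x ^ lam ≤ y ^ lam := fun x y hx hxy =>
    Real.rpow_le_rpow hx hxy h0.le
  have haenv : ∀ S, T₀ ≤ S → (S ^ 2 - c) ^ lam ≤ a S ∧ a S ≤ (S ^ 2 + c) ^ lam := by
    intro S hS
    have e0 := hT0c S hS
    obtain ⟨t, ht1, ht2⟩ := A1 S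
    rw [abs_le] at ht1
    rw [ht2]
    exact ⟨hmono _ _ (by linarith) (by linarith), hmono _ _ (by positivity) (by linarith)⟩
  have henv : ∀ S, T₀ ≤ S → ∀ k : ℝ, 0 ≤ k → k ≤ 1 →
      (S ^ 2 - c) ^ lam ≤ k * a S + (1 - k) * g S ∧ k * a S + (1 - k) * g S ≤ (S ^ 2 + c) ^ lam := by
    intro S hS k hk0 hk1
    obtain ⟨e1, e2⟩ := haenv S hS
    obtain ⟨i1, i2, -, -⟩ := incr_bounds h0 h1 hc (hTpos S hS) (hT0c S hS)
    have e3 := abs_le.1 (hT₂ S (hT02.trans hS) (hTpos S hS))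
    have e4 : (S ^ 2 - c) ^ lam ≤ g S := by linarith
    have e5 : g S ≤ (S ^ 2 + c) ^ lam := by linarith
    constructor
    · nlinarith
    · nlinarith
  set T₁ := Real.sqrt (T₀ ^ 2 + 2 * c) with hT₁
  have hT₁sq : T₁ ^ 2 = T₀ ^ 2 + 2 * c := Real.sq_sqrt (by positivity)
  have hT₁0 : 0 ≤ T₁ := Real.sqrt_nonneg _
  obtain ⟨B, hB⟩ := (isCompact_Icc (a := (0:ℝ)) (b := T₁)).exists_bound_of_continuousOn
    (ha.sub hg).continuousOn
  have hB0 : 0 ≤ B := le_trans (norm_nonneg _) (hB 0 ⟨le_rfl, hT₁0⟩)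
  have hlim : Tendsto (fun n : ℕ => c₁ * (n:ℝ) ^ lam) atTop atTop :=
    ((tendsto_rpow_atTop h0).comp tendsto_natCast_atTop_atTop).const_mul_atTop hc₁
  have hlim2 : Tendsto (fun n : ℕ => (n:ℝ) ^ lam) atTop atTop :=
    (tendsto_rpow_atTop h0).comp tendsto_natCast_atTop_atTop
  have hlim3 : Tendsto (fun n : ℕ => η / 2 * (n:ℝ)) atTop atTop :=
    tendsto_natCast_atTop_atTop.const_mul_atTop (by positivity)
  filter_upwards [hlim.eventually (eventually_ge_atTop (T₁ ^ 2 * B)),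
    hlim2.eventually (eventually_ge_atTop (2 * c * (4 / η ^ 2) / θ')),
    hlim3.eventually (eventually_ge_atTop (T₁ + c + 1)), eventually_ge_atTop 1]
    with n hn1 hn2 hn3 hn4 r hr
  have hn0 : (0:ℝ) < n := by exact_mod_cast hn4
  have hn1' : (1:ℝ) ≤ n := by exact_mod_cast hn4
  set δ := (n:ℝ) ^ (lam / 2 - 1) with hδ
  have hδ0 : 0 < δ := Real.rpow_pos_of_pos hn0 _
  have hδ2 : δ ^ 2 = (n:ℝ) ^ lam / (n:ℝ) ^ 2 := by
    rw [hδ, ← Real.rpow_natCast, ← Real.rpow_mul hn0.le]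
    have : (n:ℝ) ^ 2 = (n:ℝ) ^ (2:ℝ) := by norm_cast
    rw [this, ← Real.rpow_sub hn0]
    congr 1
    push_cast
    ring
  have hn2l : (n:ℝ) ^ (2 * lam - 2) = (n:ℝ) ^ lam * (n:ℝ) ^ lam / (n:ℝ) ^ 2 := by
    have : (n:ℝ) ^ 2 = (n:ℝ) ^ (2:ℝ) := by norm_cast
    rw [this, ← Real.rpow_add hn0, ← Real.rpow_sub hn0]
    congr 1
    ring
  have hnlp : 0 < (n:ℝ) ^ lam := Real.rpow_pos_of_pos hn0 _
  have hcn : 0 ≤ c₁ * (n:ℝ) ^ (2 * lam - 2) := by positivity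
  have hk : ∀ s : ℝ, 0 ≤ Real.sinc (δ * s) ^ 2 ∧ Real.sinc (δ * s) ^ 2 ≤ 1 :=
    fun s => ⟨by positivity, sinc_sq_le_one _⟩
  have hrc : Continuous r := by
    have hkc : Continuous (fun s : ℝ => Real.sinc (δ * s) ^ 2) :=
      (Real.continuous_sinc.comp (continuous_const.mul continuous_id)).pow 2
    have : r = fun s => Real.sinc (δ * s) ^ 2 * a s + (1 - Real.sinc (δ * s) ^ 2) * g s :=
      funext hr
    rw [this]
    exact (hkc.mul ha).add ((continuous_const.sub hkc).mul hg)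
  -- region one
  have R1 : ∀ s, 0 ≤ s → s ≤ T₁ → |a s - r s| ≤ c₁ * (n:ℝ) ^ (2 * lam - 2) := by
    intro s hs0 hs
    have e1 : a s - r s = (1 - Real.sinc (δ * s) ^ 2) * (a s - g s) := by
      rw [hr]; ring
    have e2 := one_sub_sinc_sq_le (δ * s)
    rw [mul_pow, hδ2] at e2
    have e3 : s ^ 2 ≤ T₁ ^ 2 := pow_le_pow_left₀ hs0 hs 2
    have e4 : |a s - g s| ≤ B := by
      have := hB s ⟨hs0, hs⟩
      simpa using this
    rw [e1, abs_mul, abs_of_nonneg (by linarith [(hk s).2] : 0 ≤ 1 - Real.sinc (δ * s) ^ 2), hn2l]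
    calc (1 - Real.sinc (δ * s) ^ 2) * |a s - g s| ≤ ((n:ℝ) ^ lam / (n:ℝ) ^ 2 * T₁ ^ 2) * B := by
          apply mul_le_mul _ e4 (abs_nonneg _) (by positivity)
          exact e2.trans (mul_le_mul_of_nonneg_left e3 (by positivity))
      _ = (T₁ ^ 2 * B) * ((n:ℝ) ^ lam / (n:ℝ) ^ 2) := by ring
      _ ≤ (c₁ * (n:ℝ) ^ lam) * ((n:ℝ) ^ lam / (n:ℝ) ^ 2) :=
          mul_le_mul_of_nonneg_right hn1 (by positivity)
      _ = _ := by ring
  -- region three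
  have R3 : ∀ s, η / 2 * n ≤ s → |(s ^ 2) ^ lam - r s| ≤ c₁ * (n:ℝ) ^ (2 * lam - 2) := by
    intro s hs
    have hsT : T₀ ≤ s := by
      have : T₀ ≤ T₁ := by
        rw [hT₁]
        apply Real.le_sqrt_of_sq_le
        linarith
      linarith
    have hs0 := hTpos s hsT
    obtain ⟨-, -, i3, i4⟩ := incr_bounds h0 h1 hc hs0 (hT0c s hsT)
    obtain ⟨a1, a2⟩ := haenv s hsT
    have e1 : |a s - (s ^ 2) ^ lam| ≤ 2 * c * s ^ (2 * lam - 2) := by
      rw [abs_le]; constructor <;> linarith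
    have e2 := hT₃ s (hT03.trans hsT) hs0
    have e3 : Real.sinc (δ * s) ^ 2 ≤ 4 / (η ^ 2 * (n:ℝ) ^ lam) := by
      refine (sinc_sq_le (by positivity)).trans ?_
      rw [mul_pow, hδ2, div_le_div_iff₀ (by positivity) (by positivity)]
      have e4 : (η / 2 * n) ^ 2 ≤ s ^ 2 := pow_le_pow_left₀ (by positivity) hs 2
      have e5 : (n:ℝ) ^ lam / (n:ℝ) ^ 2 * (η / 2 * n) ^ 2 * 4 = η ^ 2 * (n:ℝ) ^ lam := by
        field_simp
        ring
      rw [one_mul, ← e5]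
      have : 0 < (n:ℝ) ^ lam / (n:ℝ) ^ 2 := by positivity
      nlinarith
    have e6 : Real.sinc (δ * s) ^ 2 * (2 * c) ≤ θ' := by
      rw [div_le_iff₀ hθ'0] at hn2
      calc Real.sinc (δ * s) ^ 2 * (2 * c) ≤ 4 / (η ^ 2 * (n:ℝ) ^ lam) * (2 * c) :=
            mul_le_mul_of_nonneg_right e3 (by positivity)
        _ = (2 * c * (4 / η ^ 2)) / (n:ℝ) ^ lam := by field_simp
        _ ≤ θ' := by
            rw [div_le_iff₀ hnlp]
            linarith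
    have e7 : s ^ (2 * lam - 2) ≤ (η / 2) ^ (2 * lam - 2) * (n:ℝ) ^ (2 * lam - 2) := by
      rw [← Real.mul_rpow (by positivity) hn0.le]
      exact Real.rpow_le_rpow_of_nonpos (by positivity) hs (by linarith)
    have e8 : 0 < s ^ (2 * lam - 2) := Real.rpow_pos_of_pos hs0 _
    have e9 : r s - (s ^ 2) ^ lam = Real.sinc (δ * s) ^ 2 * (a s - (s ^ 2) ^ lam) +
        (1 - Real.sinc (δ * s) ^ 2) * (g s - (s ^ 2) ^ lam) := by
      rw [hr]; ring
    rw [abs_sub_comm, e9]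
    calc |Real.sinc (δ * s) ^ 2 * (a s - (s ^ 2) ^ lam) +
          (1 - Real.sinc (δ * s) ^ 2) * (g s - (s ^ 2) ^ lam)|
        ≤ |Real.sinc (δ * s) ^ 2 * (a s - (s ^ 2) ^ lam)| +
          |(1 - Real.sinc (δ * s) ^ 2) * (g s - (s ^ 2) ^ lam)| := abs_add_le _ _
      _ ≤ Real.sinc (δ * s) ^ 2 * (2 * c * s ^ (2 * lam - 2)) +
          1 * (θ' * s ^ (2 * lam - 2)) := by
          rw [abs_mul, abs_mul, abs_of_nonneg (hk s).1,
            abs_of_nonneg (by linarith [(hk s).2] : 0 ≤ 1 - Real.sinc (δ * s) ^ 2)]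
          apply add_le_add
          · exact mul_le_mul_of_nonneg_left e1 (hk s).1
          · exact mul_le_mul (by linarith [(hk s).1]) e2 (abs_nonneg _) zero_le_one
      _ = (Real.sinc (δ * s) ^ 2 * (2 * c) + θ') * s ^ (2 * lam - 2) := by ring
      _ ≤ (θ' + θ') * s ^ (2 * lam - 2) := by
          apply mul_le_mul_of_nonneg_right _ e8.le
          linarith
      _ ≤ (θ' + θ') * ((η / 2) ^ (2 * lam - 2) * (n:ℝ) ^ (2 * lam - 2)) :=
          mul_le_mul_of_nonneg_left e7 (by positivity)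
      _ = c₁ * (n:ℝ) ^ (2 * lam - 2) := by
          have : (η / 2) ^ (2 - 2 * lam) * (η / 2) ^ (2 * lam - 2) = 1 := by
            rw [← Real.rpow_add (by positivity)]; simp
          calc (θ' + θ') * ((η / 2) ^ (2 * lam - 2) * (n:ℝ) ^ (2 * lam - 2))
              = c₁ * ((η / 2) ^ (2 - 2 * lam) * (η / 2) ^ (2 * lam - 2)) *
                (n:ℝ) ^ (2 * lam - 2) := by rw [hθ']; ring
            _ = _ := by rw [this]; ring
  have hT01' : T₀ ≤ T₁ := by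
    rw [hT₁]
    apply Real.le_sqrt_of_sq_le
    linarith
  -- size conditions
  have hsz : ∀ x y : ℝ, 0 ≤ y → y ≤ max T₁ (η / 2 * n) → |x ^ 2 - y ^ 2| ≤ c → 0 ≤ x →
      x ≤ η * n ∧ y ≤ η * n := by
    intro x y hy0 hy hxy hx0
    have e1 : max T₁ (η / 2 * n) = η / 2 * n := max_eq_right (by linarith)
    rw [e1] at hy
    rw [abs_le] at hxy
    have e2 : y ^ 2 ≤ (η / 2 * n) ^ 2 := pow_le_pow_left₀ hy0 hy 2
    have e3 : x ^ 2 ≤ (η * n) ^ 2 := by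
      have e4 : c ≤ (η / 2 * n) ^ 2 := by
        have : 1 ≤ η / 2 * n := by linarith
        nlinarith
      nlinarith
    have e5 : 0 ≤ η * n := by positivity
    exact ⟨by nlinarith [abs_le_of_sq_le_sq' e3 e5], by linarith⟩
  have hηn : η * n ≤ n := by nlinarith
  constructor
  · intro s hs0 hsn
    by_cases hs1 : s ≤ T₁
    · obtain ⟨t, ht1, ht2⟩ := A1 s
      have ht1' : |s ^ 2 - |t| ^ 2| ≤ c := by rwa [sq_abs]
      obtain ⟨b1, b2⟩ := hsz |t| s hs0 (hs1.trans (le_max_left _ _))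
        (by rw [abs_sub_comm]; exact ht1') (abs_nonneg _)
      refine ⟨|t|, abs_nonneg _, b1.trans hηn, Or.inr ⟨ht1', b2, b1⟩, ?_⟩
      rw [sq_abs, ← ht2]
      exact R1 s hs0 hs1
    · push Not at hs1
      by_cases hs2 : η / 2 * n ≤ s
      · exact ⟨s, hs0, hsn, Or.inl rfl, R3 s hs2⟩
      · push Not at hs2
        have hsT : T₀ ≤ s := by linarith
        obtain ⟨e1, e2⟩ := henv s hsT _ (hk s).1 (hk s).2
        rw [← hr] at e1 e2
        have e3 := hT0c s hsT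
        obtain ⟨X, hX, hX2⟩ := intermediate_value_Icc (a := s ^ 2 - c) (b := s ^ 2 + c)
          (f := fun x : ℝ => x ^ lam) (by linarith)
          ((continuous_id.rpow_const (fun _ => Or.inr h0.le)).continuousOn)
          (show r s ∈ Icc ((s ^ 2 - c) ^ lam) ((s ^ 2 + c) ^ lam) from ⟨e1, e2⟩)
        have hX0 : 0 ≤ X := by linarith [hX.1]
        have hXs : Real.sqrt X ^ 2 = X := Real.sq_sqrt hX0
        have ht1' : |s ^ 2 - Real.sqrt X ^ 2| ≤ c := by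
          rw [hXs, abs_le]; constructor <;> linarith [hX.1, hX.2]
        obtain ⟨b1, b2⟩ := hsz (Real.sqrt X) s hs0 (hs2.le.trans (le_max_right _ _))
          (by rw [abs_sub_comm]; exact ht1') (Real.sqrt_nonneg _)
        refine ⟨Real.sqrt X, Real.sqrt_nonneg _, b1.trans hηn, Or.inr ⟨ht1', b2, b1⟩, ?_⟩
        rw [hXs]
        simp only at hX2
        rw [hX2, sub_self, abs_zero]
        exact hcn
  · intro t ht0 htn
    by_cases ht1 : t ^ 2 ≤ T₀ ^ 2 + c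
    · obtain ⟨s, hs1, hs2⟩ := A2 t
      have hs1' : |(|s|) ^ 2 - t ^ 2| ≤ c := by rwa [sq_abs]
      have htT : t ≤ T₁ := by
        rw [hT₁]
        apply Real.le_sqrt_of_sq_le
        linarith
      obtain ⟨b1, b2⟩ := hsz |s| t ht0 (htT.trans (le_max_left _ _)) hs1' (abs_nonneg _)
      refine ⟨|s|, abs_nonneg _, b1.trans hηn, Or.inr ⟨hs1', b1, b2⟩, ?_⟩
      have hae' : a |s| = a s := by
        rcases le_total 0 s with h | h
        · rw [abs_of_nonneg h]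
        · rw [abs_of_nonpos h, hae]
      rw [← hs2, ← hae']
      apply R1 _ (abs_nonneg _)
      rw [hT₁]
      apply Real.le_sqrt_of_sq_le
      rw [abs_le] at hs1'
      linarith
    · push Not at ht1
      by_cases ht2 : η / 2 * n ≤ t
      · exact ⟨t, ht0, htn, Or.inl rfl, R3 t ht2⟩
      · push Not at ht2
        have hT₀sq : 0 ≤ T₀ ^ 2 := by positivity
        have hs1 : Real.sqrt (t ^ 2 - c) ^ 2 = t ^ 2 - c := Real.sq_sqrt (by linarith)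
        have hs2 : Real.sqrt (t ^ 2 + c) ^ 2 = t ^ 2 + c := Real.sq_sqrt (by positivity)
        have hT1' : T₀ ≤ Real.sqrt (t ^ 2 - c) := by
          apply Real.le_sqrt_of_sq_le
          linarith
        have hle : Real.sqrt (t ^ 2 - c) ≤ Real.sqrt (t ^ 2 + c) := Real.sqrt_le_sqrt (by linarith)
        obtain ⟨-, e2⟩ := henv _ hT1' _ (hk _).1 (hk _).2
        obtain ⟨e3, -⟩ := henv _ (hT1'.trans hle) _ (hk _).1 (hk _).2
        rw [← hr, hs1, sub_add_cancel] at e2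
        rw [← hr, hs2, add_sub_cancel_right] at e3
        obtain ⟨s, hs, hs3⟩ := intermediate_value_Icc hle hrc.continuousOn
          (show (t ^ 2) ^ lam ∈ Icc _ _ from ⟨e2, e3⟩)
        have hs0 : 0 ≤ s := le_trans (Real.sqrt_nonneg _) hs.1
        have hsq1 : t ^ 2 - c ≤ s ^ 2 := by
          rw [← hs1]
          exact pow_le_pow_left₀ (Real.sqrt_nonneg _) hs.1 2
        have hsq2 : s ^ 2 ≤ t ^ 2 + c := by
          rw [← hs2]
          exact pow_le_pow_left₀ hs0 hs.2 2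
        have hst : |s ^ 2 - t ^ 2| ≤ c := by
          rw [abs_le]; constructor <;> linarith
        obtain ⟨b1, b2⟩ := hsz s t ht0 (ht2.le.trans (le_max_right _ _)) hst hs0
        refine ⟨s, hs0, b1.trans hηn, Or.inr ⟨hst, b1, b2⟩, ?_⟩
        rw [hs3, sub_self, abs_zero]
        exact hcn

end Pool.Agent.H293.HA
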