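import Pool.Agent.H293.HA.RVA
import Pool.Agent.H293.HA.Approx

/-!
# Upper bound: from entire functions to polynomials (`|x|^λ` and `|x|^λ sgn x`)
-/

set_option autoImplicit false

open Filter Asymptotics Topology Set MeasureTheory

namespace Pool.Agent.H293.HA

variable {μ ϵ : ℝ} {F : ℝ → ℝ}

lemma kap_neg (z : ℂ) : kap (-z) = kap z := by
  unfold kap
  rw [neg_div, sinC_neg]

lemma PT.conv_neg (h : PT μ ϵ F) (z : ℂ) : conv F (-z) = ϵ * conv F z := by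
  unfold conv
  have h1 := integral_neg_eq_self (fun u : ℝ => (F u : ℂ) * kap (-z - u)) volume
  rw [← h1]
  have h2 : (fun u : ℝ => ((F (-u) : ℝ) : ℂ) * kap (-z - ((-u : ℝ) : ℂ))) =
      fun u : ℝ => (ϵ : ℂ) * ((F u : ℂ) * kap (z - u)) := by
    funext u
    rw [h.2.2.1, show -z - ((-u : ℝ) : ℂ) = -(z - u) by push_cast; ring, kap_neg]
    push_cast
    ring
  rw [h2, integral_const_mul]
  ring

theorem PT.exists_Q1 (h : PT μ ϵ F) (h0 : 0 < μ) (h2 : μ < 2) :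
    ∃ (Q₁ : ℂ → ℂ) (K : ℝ), 0 < K ∧ Differentiable ℂ Q₁ ∧
      (∀ z : ℂ, ‖Q₁ z‖ ≤ K * (1 + ‖z‖) ^ 2 * Real.exp |z.im|) ∧
      (∀ z : ℂ, Q₁ (-z) = ϵ * Q₁ z) ∧ (∀ x : ℝ, (Q₁ x).im = 0) ∧
      (∀ t : ℝ, |(Q₁ t).re - F t| ≤ K) ∧
      (∀ t : ℝ, 0 < |t| → |(Q₁ t).re - F t| ≤ K * |t| ^ (μ - 2)) ∧
      Tendsto (fun t : ℝ => t ^ (2 - μ) * ((Q₁ t).re - F t)) atTop (𝓝 0) := by
  obtain ⟨hd, ⟨K₀, hK₀⟩, hR⟩ := conv_props (h.grow h0 h2)
  obtain ⟨K₁, hK₁, he⟩ := h.q_err h0 h2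
  obtain ⟨L, hL⟩ := h.q_lim h0 h2
  have hRq : ∀ x : ℝ, conv F x = ((q F x : ℝ) : ℂ) := hR
  have hK₀0 : 0 ≤ K₀ := by
    have := hK₀ 0
    simp at this
    exact le_trans (norm_nonneg _) this
  set A : ℝ := 1 / 3 * 2 ^ μ with hA
  have hA0 : 0 < A := by rw [hA]; positivity
  have h2μ : (2:ℝ) ^ μ ≤ 4 := by
    calc (2:ℝ) ^ μ ≤ 2 ^ (2:ℝ) := Real.rpow_le_rpow_of_exponent_le one_le_two h2.le
      _ = 4 := by norm_num
  have hA4 : A ≤ 2 := by rw [hA]; linarith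
  set Q₁ : ℂ → ℂ := fun z => (4 / 3 : ℂ) * conv F z - (A : ℂ) * conv F (z / 2) with hQ₁
  have hreal : ∀ x : ℝ, Q₁ x = ((4 / 3 * q F x - A * q F (x / 2) : ℝ) : ℂ) := by
    intro x
    rw [hQ₁]
    simp only
    rw [show (x:ℂ) / 2 = ((x / 2 : ℝ) : ℂ) by push_cast; rfl, hRq, hRq]
    push_cast
    rfl
  have hre : ∀ x : ℝ, (Q₁ x).re = 4 / 3 * q F x - A * q F (x / 2) := by
    intro x
    rw [hreal, Complex.ofReal_re]
  have hneg : ∀ z : ℂ, Q₁ (-z) = ϵ * Q₁ z := by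
    intro z
    rw [hQ₁]
    simp only
    rw [neg_div, h.conv_neg, h.conv_neg]
    ring
  have hgrow : ∀ z : ℂ, ‖Q₁ z‖ ≤ (4 * K₀) * (1 + ‖z‖) ^ 2 * Real.exp |z.im| := by
    intro z
    rw [hQ₁]
    simp only
    have e1 := hK₀ z
    have e2 := hK₀ (z / 2)
    have e3 : ‖z / 2‖ ≤ ‖z‖ := by
      rw [norm_div]
      simp
    have e4 : |(z / 2).im| ≤ |z.im| := by
      have : (z / 2).im = z.im / 2 := by
        rw [show z / 2 = z / ((2:ℝ):ℂ) by norm_num, Complex.div_ofReal_im]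
      rw [this, abs_div, abs_two]
      linarith [abs_nonneg z.im]
    have e5 : ‖conv F (z / 2)‖ ≤ K₀ * (1 + ‖z‖) ^ 2 * Real.exp |z.im| := by
      refine e2.trans ?_
      have := Real.exp_le_exp.mpr e4
      gcongr
    have e6 : ‖(A : ℂ)‖ = A := by
      rw [Complex.norm_real, Real.norm_eq_abs, abs_of_pos hA0]
    have e7 : ‖(4 / 3 : ℂ)‖ = 4 / 3 := by norm_num
    have e8 : 0 ≤ K₀ * (1 + ‖z‖) ^ 2 * Real.exp |z.im| := by positivity
    calc ‖(4 / 3 : ℂ) * conv F z - (A : ℂ) * conv F (z / 2)‖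
        ≤ ‖(4 / 3 : ℂ) * conv F z‖ + ‖(A : ℂ) * conv F (z / 2)‖ := norm_sub_le _ _
      _ ≤ 4 / 3 * (K₀ * (1 + ‖z‖) ^ 2 * Real.exp |z.im|) +
          A * (K₀ * (1 + ‖z‖) ^ 2 * Real.exp |z.im|) := by
          rw [norm_mul, norm_mul, e6, e7]
          gcongr
      _ ≤ _ := by nlinarith
  have hdec : ∀ t : ℝ, (Q₁ t).re - F t = 4 / 3 * (q F t - F t) - A * (q F (t / 2) - F (t / 2)) := by
    intro t
    rw [hre]
    have e1 : F t = 2 ^ μ * F (t / 2) := by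
      rw [← h.hom two_pos]
      congr 1
      ring
    rw [hA, e1]
    ring
  have herr : ∀ t : ℝ, 0 < t → |(Q₁ t).re - F t| ≤ (10 * K₁) * t ^ (μ - 2) := by
    intro t ht
    rw [hdec]
    have e1 := he t ht
    have e2 := he (t / 2) (by linarith)
    have e3 : (t / 2) ^ (μ - 2) ≤ 4 * t ^ (μ - 2) := by
      rw [Real.div_rpow ht.le two_pos.le, div_le_iff₀ (by positivity)]
      have e4 : (2:ℝ) ^ (-2:ℝ) ≤ 2 ^ (μ - 2) :=
        Real.rpow_le_rpow_of_exponent_le one_le_two (by linarith)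
      have e5 : (2:ℝ) ^ (-2:ℝ) = 1 / 4 := by
        rw [Real.rpow_neg two_pos.le]; norm_num
      rw [e5] at e4
      have e6 : 0 < t ^ (μ - 2) := Real.rpow_pos_of_pos ht _
      nlinarith
    have e6 : 0 < t ^ (μ - 2) := Real.rpow_pos_of_pos ht _
    calc |4 / 3 * (q F t - F t) - A * (q F (t / 2) - F (t / 2))|
        ≤ |4 / 3 * (q F t - F t)| + |A * (q F (t / 2) - F (t / 2))| := abs_sub _ _
      _ ≤ 4 / 3 * (K₁ * t ^ (μ - 2)) + A * (K₁ * (4 * t ^ (μ - 2))) := by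
          rw [abs_mul, abs_mul, abs_of_pos hA0, abs_of_pos (by norm_num : (0:ℝ) < 4 / 3)]
          gcongr
          exact e2.trans (mul_le_mul_of_nonneg_left e3 hK₁.le)
      _ ≤ _ := by nlinarith [mul_pos hK₁ e6]
  have hsym : ∀ t : ℝ, |(Q₁ t).re - F t| = |(Q₁ ((|t| : ℝ) : ℂ)).re - F (|t|)| := by
    intro t
    rcases le_total 0 t with ht | ht
    · rw [abs_of_nonneg ht]
    · rw [abs_of_nonpos ht]
      have e1 := hneg t
      rw [show -(t:ℂ) = ((-t : ℝ) : ℂ) by push_cast; rfl] at e1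
      rw [e1, h.2.2.1, Complex.re_ofReal_mul, ← mul_sub, abs_mul]
      have : |ϵ| = 1 := by
        rcases h.2.2.2 with h5 | h5 <;> rw [h5] <;> simp
      rw [this, one_mul]
  refine ⟨Q₁, 4 * K₀ * 4 * Real.exp 0 + 1 + 10 * K₁ + 4 * K₀, by positivity, ?_, ?_, hneg, ?_, ?_, ?_, ?_⟩
  · exact (hd.const_mul _).sub ((hd.comp (differentiable_id.div_const _)).const_mul _)
  · intro z
    refine (hgrow z).trans ?_
    have : 0 ≤ (1 + ‖z‖) ^ 2 * Real.exp |z.im| := by positivity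
    have e1 : 0 ≤ 4 * K₀ * 4 * Real.exp 0 + 1 + 10 * K₁ := by positivity
    nlinarith [mul_nonneg e1 this]
  · intro x
    rw [hreal]
    exact Complex.ofReal_im _
  · intro t
    rw [hsym]
    rcases le_total |t| 1 with ht | ht
    · have e1 := hgrow ((|t| : ℝ) : ℂ)
      have e2 : |(Q₁ ((|t| : ℝ) : ℂ)).re| ≤ ‖Q₁ ((|t| : ℝ) : ℂ)‖ := Complex.abs_re_le_norm _
      rw [Complex.norm_real, Real.norm_eq_abs, abs_abs, Complex.ofReal_im, abs_zero] at e1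
      have e3 : (1 + |t|) ^ 2 ≤ 4 := by
        nlinarith [abs_nonneg t]
      have e4 : |F (|t|)| ≤ 1 := by
        rw [h.abs_eq, abs_abs]
        exact Real.rpow_le_one (abs_nonneg _) ht h0.le
      have e5 : 4 * K₀ * (1 + |t|) ^ 2 * Real.exp 0 ≤ 4 * K₀ * 4 * Real.exp 0 := by gcongr
      have e6 := abs_sub (Q₁ ((|t| : ℝ) : ℂ)).re (F (|t|))
      linarith
    · have e1 := herr |t| (by linarith)
      have e2 : |t| ^ (μ - 2) ≤ 1 := Real.rpow_le_one_of_one_le_of_nonpos ht (by linarith)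
      have e3 : 0 ≤ 4 * K₀ * 4 * Real.exp 0 + 1 + 4 * K₀ := by positivity
      nlinarith
  · intro t ht
    rw [hsym]
    refine (herr |t| ht).trans ?_
    have e2 : 0 < |t| ^ (μ - 2) := Real.rpow_pos_of_pos ht _
    have e3 : 0 ≤ 4 * K₀ * 4 * Real.exp 0 + 1 + 4 * K₀ := by positivity
    nlinarith [mul_nonneg e3 e2.le]
  · have e1 : Tendsto (fun t : ℝ => t / 2) atTop atTop := tendsto_id.atTop_div_const two_pos
    have e2 := (hL.const_mul (4 / 3)).sub ((hL.comp e1).const_mul (A * 2 ^ (2 - μ)))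
    have e3 : 4 / 3 * L - A * 2 ^ (2 - μ) * L = 0 := by
      have : (2:ℝ) ^ μ * 2 ^ (2 - μ) = 4 := by
        rw [← Real.rpow_add two_pos]; norm_num
      rw [hA, mul_assoc (1 / 3), this]
      ring
    rw [e3] at e2
    refine e2.congr' ?_
    filter_upwards [eventually_gt_atTop 0] with t ht
    simp only [Function.comp]
    rw [hdec, Real.div_rpow ht.le two_pos.le]
    have : (2:ℝ) ^ (2 - μ) ≠ 0 := by positivity
    field_simp

end Pool.Agent.H293.HA
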