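import Pool.Agent.H293.HA.UpA

/-!
# Upper bound: from entire functions to polynomials (`|x|^λ` and `|x|^λ sgn x`), conclusion
-/

set_option autoImplicit false

open Filter Asymptotics Topology Set MeasureTheory

namespace Pool.Agent.H293.HA

/-- mixture of two entire functions -/
noncomputable def mixf (δ : ℝ) (Q Q' : ℂ → ℂ) (z : ℂ) : ℂ :=
  sinC (δ * z) ^ 2 * Q z + (1 - sinC (δ * z) ^ 2) * Q' z

lemma mixf_real (δ : ℝ) {Q Q' : ℂ → ℂ} {x : ℝ} (h : (Q x).im = 0) (h' : (Q' x).im = 0) :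
    (mixf δ Q Q' x).re = Real.sinc (δ * x) ^ 2 * (Q x).re + (1 - Real.sinc (δ * x) ^ 2) * (Q' x).re := by
  have e1 : Q x = (((Q x).re : ℝ) : ℂ) := Complex.ext rfl (by rw [h]; simp)
  have e2 : Q' x = (((Q' x).re : ℝ) : ℂ) := Complex.ext rfl (by rw [h']; simp)
  unfold mixf
  rw [show (δ:ℂ) * x = ((δ * x : ℝ) : ℂ) by push_cast; rfl, sinC_ofReal]
  conv_lhs => rw [e1, e2]
  rw [← Complex.ofReal_pow, ← Complex.ofReal_one, ← Complex.ofReal_sub, ← Complex.ofReal_mul,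
    ← Complex.ofReal_mul, ← Complex.ofReal_add, Complex.ofReal_re]

lemma differentiable_mixf (δ : ℝ) {Q Q' : ℂ → ℂ} (h : Differentiable ℂ Q) (h' : Differentiable ℂ Q') :
    Differentiable ℂ (mixf δ Q Q') := by
  have h1 : Differentiable ℂ (fun z : ℂ => sinC (δ * z) ^ 2) :=
    (differentiable_sinC.comp (differentiable_id.const_mul _)).pow 2
  exact (h1.mul h).add (((differentiable_const _).sub h1).mul h')

lemma mixf_neg (δ : ℝ) {Q Q' : ℂ → ℂ} (h : ∀ z, Q (-z) = Q z) (h' : ∀ z, Q' (-z) = Q' z) (z : ℂ) :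
    mixf δ Q Q' (-z) = mixf δ Q Q' z := by
  unfold mixf
  rw [mul_neg, sinC_neg, h, h']

lemma mixf_bound (K σ σ' : ℝ) : ∃ K' : ℝ, ∀ δ : ℝ, 0 < δ → σ + 2 * δ ≤ σ' → ∀ Q Q' : ℂ → ℂ,
    (∀ z : ℂ, ‖Q z‖ ≤ K * (1 + ‖z‖) ^ 2 * Real.exp (σ * |z.im|)) →
    (∀ z : ℂ, ‖Q' z‖ ≤ K * (1 + ‖z‖) ^ 2 * Real.exp (σ * |z.im|)) →
    ∀ z : ℂ, ‖mixf δ Q Q' z‖ ≤ K' * (1 + ‖z‖) ^ 2 * Real.exp (σ' * |z.im|) := by
  obtain ⟨C, hC, hb⟩ := exists_sinC_bound
  refine ⟨(1 + 2 * C ^ 2) * K, fun δ hδ hσ Q Q' hQ hQ' z => ?_⟩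
  have hK : 0 ≤ K := by
    have := hQ 0
    simp at this
    exact le_trans (norm_nonneg _) this
  have h1 : ‖sinC (δ * z) ^ 2‖ ≤ C ^ 2 * Real.exp (2 * δ * |z.im|) := by
    rw [norm_pow]
    have h2 := hb (δ * z)
    have h3 : |((δ:ℂ) * z).im| = δ * |z.im| := by
      rw [Complex.im_ofReal_mul, abs_mul, abs_of_pos hδ]
    rw [h3] at h2
    have h4 : ‖sinC (δ * z)‖ ≤ C * Real.exp (δ * |z.im|) := by
      refine h2.trans ?_
      apply div_le_self (by positivity)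
      linarith [norm_nonneg ((δ:ℂ) * z)]
    calc ‖sinC (δ * z)‖ ^ 2 ≤ (C * Real.exp (δ * |z.im|)) ^ 2 :=
          pow_le_pow_left₀ (norm_nonneg _) h4 2
      _ = C ^ 2 * (Real.exp (δ * |z.im|)) ^ 2 := by ring
      _ = _ := by
          rw [← Real.exp_nat_mul]
          congr 2
          push_cast
          ring
  have he : 1 ≤ Real.exp (2 * δ * |z.im|) := by
    rw [← Real.exp_zero]
    exact Real.exp_le_exp.mpr (by positivity)
  have h5 : ‖1 - sinC (δ * z) ^ 2‖ ≤ (1 + C ^ 2) * Real.exp (2 * δ * |z.im|) := by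
    refine (norm_sub_le _ _).trans ?_
    rw [norm_one]
    nlinarith
  have h6 : Real.exp (2 * δ * |z.im|) * Real.exp (σ * |z.im|) ≤ Real.exp (σ' * |z.im|) := by
    rw [← Real.exp_add]
    apply Real.exp_le_exp.mpr
    have := abs_nonneg z.im
    nlinarith
  unfold mixf
  calc ‖sinC (δ * z) ^ 2 * Q z + (1 - sinC (δ * z) ^ 2) * Q' z‖
      ≤ ‖sinC (δ * z) ^ 2 * Q z‖ + ‖(1 - sinC (δ * z) ^ 2) * Q' z‖ := norm_add_le _ _
    _ ≤ (C ^ 2 * Real.exp (2 * δ * |z.im|)) * (K * (1 + ‖z‖) ^ 2 * Real.exp (σ * |z.im|)) +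
        ((1 + C ^ 2) * Real.exp (2 * δ * |z.im|)) * (K * (1 + ‖z‖) ^ 2 * Real.exp (σ * |z.im|)) := by
        rw [norm_mul, norm_mul]
        exact add_le_add
          (mul_le_mul h1 (hQ z) (norm_nonneg _) (by positivity))
          (mul_le_mul h5 (hQ' z) (norm_nonneg _) (by positivity))
    _ = (1 + 2 * C ^ 2) * K * (1 + ‖z‖) ^ 2 *
        (Real.exp (2 * δ * |z.im|) * Real.exp (σ * |z.im|)) := by ring
    _ ≤ _ := mul_le_mul_of_nonneg_left h6 (by positivity)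

/-- rescaling `σ^{-μ} Q(σ z)` -/
noncomputable def scaleQ (σ μ : ℝ) (Q : ℂ → ℂ) (z : ℂ) : ℂ := ((σ ^ (-μ) : ℝ) : ℂ) * Q (σ * z)

lemma scaleQ_re (σ μ : ℝ) (Q : ℂ → ℂ) (x : ℝ) :
    (scaleQ σ μ Q x).re = σ ^ (-μ) * (Q ((σ * x : ℝ) : ℂ)).re := by
  unfold scaleQ
  rw [Complex.re_ofReal_mul]
  push_cast
  rfl

lemma scaleQ_im {σ μ : ℝ} {Q : ℂ → ℂ} (h : ∀ x : ℝ, (Q x).im = 0) (x : ℝ) :
    (scaleQ σ μ Q x).im = 0 := by
  unfold scaleQ
  rw [Complex.im_ofReal_mul, ← Complex.ofReal_mul, h, mul_zero]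

lemma differentiable_scaleQ {σ μ : ℝ} {Q : ℂ → ℂ} (h : Differentiable ℂ Q) :
    Differentiable ℂ (scaleQ σ μ Q) :=
  (h.comp (differentiable_id.const_mul _)).const_mul _

lemma scaleQ_bound {σ μ K : ℝ} (hσ : 0 < σ) (hσ1 : σ ≤ 1) {Q : ℂ → ℂ}
    (hQ : ∀ z : ℂ, ‖Q z‖ ≤ K * (1 + ‖z‖) ^ 2 * Real.exp |z.im|) (z : ℂ) :
    ‖scaleQ σ μ Q z‖ ≤ (σ ^ (-μ) * K) * (1 + ‖z‖) ^ 2 * Real.exp (σ * |z.im|) := by
  have hK : 0 ≤ K := by
    have := hQ 0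
    simp at this
    exact le_trans (norm_nonneg _) this
  unfold scaleQ
  have h1 := hQ (σ * z)
  have h3 : |((σ:ℂ) * z).im| = σ * |z.im| := by
    rw [Complex.im_ofReal_mul, abs_mul, abs_of_pos hσ]
  have h4 : ‖(σ:ℂ) * z‖ ≤ ‖z‖ := by
    rw [norm_mul, Complex.norm_real, Real.norm_eq_abs, abs_of_pos hσ]
    nlinarith [norm_nonneg z]
  rw [h3] at h1
  rw [norm_mul, Complex.norm_real, Real.norm_eq_abs, abs_of_pos (Real.rpow_pos_of_pos hσ _)]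
  calc σ ^ (-μ) * ‖Q (σ * z)‖ ≤ σ ^ (-μ) * (K * (1 + ‖z‖) ^ 2 * Real.exp (σ * |z.im|)) := by
        apply mul_le_mul_of_nonneg_left _ (by positivity)
        refine h1.trans ?_
        gcongr
    _ = _ := by ring

lemma bound_mono {K K' σ : ℝ} (hK : K ≤ K') {Q : ℂ → ℂ}
    (hQ : ∀ z : ℂ, ‖Q z‖ ≤ K * (1 + ‖z‖) ^ 2 * Real.exp (σ * |z.im|)) (z : ℂ) :
    ‖Q z‖ ≤ K' * (1 + ‖z‖) ^ 2 * Real.exp (σ * |z.im|) := by
  refine (hQ z).trans ?_
  gcongr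

lemma exp_small {A κ c : ℝ} (hA : 0 ≤ A) (hκ : 0 < κ) (hc : 0 < c) {p : ℝ} (hp : -2 < p) :
    ∀ᶠ n : ℕ in atTop, A * Real.exp (-(κ * n)) ≤ c * (n:ℝ) ^ p := by
  have hlim : Tendsto (fun n : ℕ => c * (n:ℝ) ^ (p + 2)) atTop atTop :=
    ((tendsto_rpow_atTop (by linarith : 0 < p + 2)).comp tendsto_natCast_atTop_atTop).const_mul_atTop hc
  filter_upwards [hlim.eventually (eventually_ge_atTop (A * (2 / κ ^ 2))), eventually_ge_atTop 1]
    with n hn hn1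
  have hn0 : (0:ℝ) < n := by exact_mod_cast hn1
  have h1 := sq_le_exp hκ n
  have h2 : Real.exp (-(κ * n)) ≤ 2 / κ ^ 2 / (n:ℝ) ^ 2 := by
    rw [le_div_iff₀ (by positivity)]
    calc Real.exp (-(κ * n)) * (n:ℝ) ^ 2 ≤ Real.exp (-(κ * n)) * (2 / κ ^ 2 * Real.exp (κ * n)) :=
          mul_le_mul_of_nonneg_left h1 (Real.exp_pos _).le
      _ = 2 / κ ^ 2 * (Real.exp (-(κ * n)) * Real.exp (κ * n)) := by ring
      _ = _ := by rw [← Real.exp_add]; simp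
  calc A * Real.exp (-(κ * n)) ≤ A * (2 / κ ^ 2 / (n:ℝ) ^ 2) := mul_le_mul_of_nonneg_left h2 hA
    _ = (A * (2 / κ ^ 2)) / (n:ℝ) ^ 2 := by ring
    _ ≤ c * (n:ℝ) ^ (p + 2) / (n:ℝ) ^ 2 := div_le_div_of_nonneg_right hn (by positivity)
    _ = c * (n:ℝ) ^ p := by
        rw [Real.rpow_add hn0]
        have : (n:ℝ) ^ (2:ℝ) = (n:ℝ) ^ 2 := by norm_cast
        rw [this]
        field_simp

variable {lam ϵ : ℝ} {F : ℝ → ℝ}

theorem upperA (h : PT lam ϵ F) (h0 : 0 < lam) (h1 : lam ≤ 1) {α b c v c₁ σ : ℝ} (hα : 0 < α)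
    (hc : 0 < c) (hv : 0 ≤ v) (hc₁ : 0 < c₁) (hσ0 : 0 < σ) (hσ1 : σ < 1) (hcb : c / σ ≤ b)
    (hvb : ∀ᶠ n : ℕ in atTop, σ ^ (-lam) * v + 2 * c₁ * (n:ℝ) ^ (lam - 1) ≤
      (n:ℝ) ^ lam * (b / (n * α)))
    {Q : ℂ → ℂ} (hQ : Feas F c v Q) :
    ∀ᶠ n : ℕ in atTop, ∃ P : Polynomial ℝ, P.natDegree ≤ n ∧
      Close α (b / (n * α)) F (fun x => P.eval x) := by
  obtain ⟨hQE, hQre, hQ1, hQ2⟩ := hQ
  obtain ⟨Q₁, K₁, hK₁, hd₁, hb₁, hneg₁, hre₁, hG0, hG1, -⟩ := h.exists_Q1 h0 (by linarith)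
  have hgrowF := (h.grow h0 (by linarith : lam < 2)).2
  -- growth of Q
  have hQgrow : ∀ x : ℝ, ‖Q x‖ ≤ (1 + v + 2 * c ^ lam) * (1 + |x|) ^ 2 := by
    intro x
    obtain ⟨t, ht1, ht2⟩ := hQ1 x
    have e0 : ‖Q x‖ = |(Q x).re| := by
      have e1 : Q x = (((Q x).re : ℝ) : ℂ) := Complex.ext rfl (by rw [hQre]; simp)
      conv_lhs => rw [e1]
      rw [Complex.norm_real, Real.norm_eq_abs]
    rw [e0]
    have e1 := h.holder h0 h1 x t
    have e2 : |x - t| ^ lam ≤ c ^ lam := Real.rpow_le_rpow (abs_nonneg _) ht1 h0.le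
    have e3 : |(Q x).re| ≤ |F x| + |F t - F x| + |F t - (Q x).re| := by
      have : (Q x).re = F x + (F t - F x) - (F t - (Q x).re) := by ring
      calc |(Q x).re| = |F x + (F t - F x) - (F t - (Q x).re)| := by rw [← this]
        _ ≤ |F x + (F t - F x)| + |F t - (Q x).re| := abs_sub _ _
        _ ≤ _ := by gcongr; exact abs_add_le _ _
    have e4 := hgrowF x
    have e5 : 1 ≤ (1 + |x|) ^ 2 := one_le_pow₀ (by linarith [abs_nonneg x])
    have e6 : 0 ≤ v + 2 * c ^ lam := by positivity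
    nlinarith [mul_nonneg e6 (sub_nonneg.2 e5)]
  have hQb : ∀ z : ℂ, ‖Q z‖ ≤ (2 * (1 + v + 2 * c ^ lam)) * (1 + ‖z‖) ^ 2 * Real.exp |z.im| := by
    intro z
    have := pl_bound zero_le_one hQE hQgrow z
    rwa [one_mul] at this
  set K₂ := max (σ ^ (-lam) * (2 * (1 + v + 2 * c ^ lam))) (σ ^ (-lam) * K₁) with hK₂
  set QS := scaleQ σ lam Q with hQS
  set GS := scaleQ σ lam Q₁ with hGS
  have hQSb : ∀ z : ℂ, ‖QS z‖ ≤ K₂ * (1 + ‖z‖) ^ 2 * Real.exp (σ * |z.im|) :=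
    bound_mono (le_max_left _ _) (scaleQ_bound hσ0 hσ1.le hQb)
  have hGSb : ∀ z : ℂ, ‖GS z‖ ≤ K₂ * (1 + ‖z‖) ^ 2 * Real.exp (σ * |z.im|) :=
    bound_mono (le_max_right _ _) (scaleQ_bound hσ0 hσ1.le hb₁)
  have hQSi : ∀ x : ℝ, (QS x).im = 0 := scaleQ_im hQre
  have hGSi : ∀ x : ℝ, (GS x).im = 0 := scaleQ_im hre₁
  have hσp : 0 < σ ^ (-lam) := Real.rpow_pos_of_pos hσ0 _
  have hFs : ∀ t, F t = σ ^ (-lam) * F (σ * t) := by
    intro t
    rw [h.hom hσ0, ← mul_assoc, ← Real.rpow_add hσ0]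
    simp
  -- feasibility of QS
  have A1 : ∀ s : ℝ, ∃ t, |s - t| ≤ c / σ ∧ |F t - (QS s).re| ≤ σ ^ (-lam) * v := by
    intro s
    obtain ⟨t, ht1, ht2⟩ := hQ1 (σ * s)
    refine ⟨t / σ, ?_, ?_⟩
    · have e1 : s - t / σ = (σ * s - t) / σ := by field_simp
      rw [e1, abs_div, abs_of_pos hσ0]
      exact div_le_div_of_nonneg_right ht1 hσ0.le
    · rw [hFs (t / σ), hQS, scaleQ_re, ← mul_sub, abs_mul, abs_of_pos hσp,
        mul_div_cancel₀ _ hσ0.ne']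
      exact mul_le_mul_of_nonneg_left ht2 hσp.le
  have A2 : ∀ t : ℝ, ∃ s : ℝ, |s - t| ≤ c / σ ∧ |F t - (QS s).re| ≤ σ ^ (-lam) * v := by
    intro t
    obtain ⟨s, hs1, hs2⟩ := hQ2 (σ * t)
    refine ⟨s / σ, ?_, ?_⟩
    · have e1 : s / σ - t = (s - σ * t) / σ := by field_simp
      rw [e1, abs_div, abs_of_pos hσ0]
      exact div_le_div_of_nonneg_right hs1 hσ0.le
    · rw [hFs t, hQS, scaleQ_re, ← mul_sub, abs_mul, abs_of_pos hσp,
        mul_div_cancel₀ _ hσ0.ne']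
      exact mul_le_mul_of_nonneg_left hs2 hσp.le
  have hGd : ∀ s : ℝ, |(GS s).re - F s| = σ ^ (-lam) * |(Q₁ ((σ * s : ℝ) : ℂ)).re - F (σ * s)| := by
    intro s
    rw [hFs s, hGS, scaleQ_re, ← mul_sub, abs_mul, abs_of_pos hσp]
  set K₃ := σ ^ (-lam) * K₁ + σ ^ (-lam) * K₁ * σ ^ (lam - 2) with hK₃
  have G0 : ∀ s : ℝ, |(GS s).re - F s| ≤ K₃ := by
    intro s
    rw [hGd]
    have := mul_le_mul_of_nonneg_left (hG0 (σ * s)) hσp.le
    have h5 : 0 ≤ σ ^ (-lam) * K₁ * σ ^ (lam - 2) := by positivity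
    linarith
  have G1 : ∀ s : ℝ, 1 ≤ |s| → |(GS s).re - F s| ≤ K₃ * |s| ^ (lam - 2) := by
    intro s hs
    rw [hGd]
    have e1 : 0 < |σ * s| := by rw [abs_mul, abs_of_pos hσ0]; positivity
    have e2 := mul_le_mul_of_nonneg_left (hG1 (σ * s) e1) hσp.le
    refine e2.trans ?_
    rw [abs_mul, abs_of_pos hσ0, Real.mul_rpow hσ0.le (abs_nonneg _)]
    have e3 : 0 ≤ σ ^ (-lam) * K₁ * |s| ^ (lam - 2) := by positivity
    rw [hK₃]
    nlinarith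
  set σ' := (1 + σ) / 2 with hσ'
  obtain ⟨K₄, hK₄⟩ := mixf_bound K₂ σ σ'
  obtain ⟨C, κ, hC, hκ, happ⟩ := approx_poly (σ := σ') (by rw [hσ']; linarith) (by rw [hσ']; linarith)
  have hcσ : 0 < c / σ := by positivity
  have hrv := h.rv h0 h1 hcσ (by positivity : 0 ≤ σ ^ (-lam) * v) (by rw [hK₃]; positivity : 0 < K₃)
    hc₁ (a := fun s => (QS s).re) (g := fun s => (GS s).re)
    (Complex.continuous_re.comp ((differentiable_scaleQ hQE.1).continuous.comp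
      Complex.continuous_ofReal))
    (Complex.continuous_re.comp ((differentiable_scaleQ hd₁).continuous.comp
      Complex.continuous_ofReal)) A1 A2 G0 G1
  have hK₄0 : 0 ≤ K₄ := by
    have := hK₄ ((σ' - σ) / 2) (by rw [hσ']; linarith) (by linarith) QS GS hQSb hGSb 0
    simp at this
    exact le_trans (norm_nonneg _) this
  have hsmall := exp_small (A := K₄ * C) (by positivity) hκ hc₁ (p := lam - 1) (by linarith)
  have hsqrt : ∀ᶠ n : ℕ in atTop, 2 / (1 - σ) ≤ Real.sqrt n := by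
    have : Tendsto (fun n : ℕ => Real.sqrt n) atTop atTop :=
      Real.tendsto_sqrt_atTop.comp tendsto_natCast_atTop_atTop
    exact this.eventually (eventually_ge_atTop _)
  filter_upwards [hrv, hsmall, hsqrt, hvb, eventually_ge_atTop 1] with n hn1 hn2 hn3 hn4 hn5
  have hn0 : (0:ℝ) < n := by exact_mod_cast hn5
  have hs0 : 0 < Real.sqrt n := Real.sqrt_pos.2 hn0
  set δ := 1 / (2 * Real.sqrt n) with hδ
  have hδ0 : 0 < δ := by rw [hδ]; positivity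
  have hδ1 : σ + 2 * δ ≤ σ' := by
    rw [div_le_iff₀ (by linarith)] at hn3
    have : 2 * δ = 1 / Real.sqrt n := by rw [hδ]; field_simp
    rw [this, hσ']
    have : 1 / Real.sqrt n ≤ (1 - σ) / 2 := by
      rw [div_le_div_iff₀ hs0 two_pos]
      linarith
    linarith
  have hmb := hK₄ δ hδ0 hδ1 QS GS hQSb hGSb
  obtain ⟨⟨P₀, hP₀, hP₀e⟩, -⟩ := happ K₄ (mixf δ QS GS)
    (differentiable_mixf δ (differentiable_scaleQ hQE.1) (differentiable_scaleQ hd₁)) hmb n hn5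
  obtain ⟨I1, I2⟩ := hn1 (fun s => (mixf δ QS GS s).re) (by
    intro s
    rw [mixf_real δ (hQSi s) (hGSi s)]
    have : δ * s = s / (2 * Real.sqrt n) := by rw [hδ]; ring
    rw [this])
  have hnl : 0 < (n:ℝ) ^ (-lam) := Real.rpow_pos_of_pos hn0 _
  have hFn : ∀ x, F x = (n:ℝ) ^ (-lam) * F (n * x) := by
    intro t
    rw [h.hom hn0, ← mul_assoc, ← Real.rpow_add hn0]
    simp
  have hfinal : ∀ x y : ℝ, y ∈ Icc (-1:ℝ) 1 →
      |F (n * x) - (mixf δ QS GS ((n * y : ℝ) : ℂ)).re| ≤ σ ^ (-lam) * v + c₁ * (n:ℝ) ^ (lam - 1) →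
      |F x - (Polynomial.C ((n:ℝ) ^ (-lam)) * P₀).eval y| ≤ b / (n * α) := by
    intro x y hy hxy
    rw [Polynomial.eval_mul, Polynomial.eval_C, hFn x, ← mul_sub, abs_mul, abs_of_pos hnl]
    have e1 := hP₀e y hy
    have e2 : |F (n * x) - P₀.eval y| ≤ (n:ℝ) ^ lam * (b / (n * α)) := by
      calc |F (n * x) - P₀.eval y| = |(F (n * x) - (mixf δ QS GS ((n * y : ℝ) : ℂ)).re) -
            (P₀.eval y - (mixf δ QS GS ((n * y : ℝ) : ℂ)).re)| := by congr 1; ring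
        _ ≤ |F (n * x) - (mixf δ QS GS ((n * y : ℝ) : ℂ)).re| +
            |P₀.eval y - (mixf δ QS GS ((n * y : ℝ) : ℂ)).re| := abs_sub _ _
        _ ≤ _ := by linarith
    calc (n:ℝ) ^ (-lam) * |F (n * x) - P₀.eval y| ≤ (n:ℝ) ^ (-lam) * ((n:ℝ) ^ lam * (b / (n * α))) :=
          mul_le_mul_of_nonneg_left e2 hnl.le
      _ = _ := by
          rw [← mul_assoc, ← Real.rpow_add hn0]
          simp
  have hαδ : α * (b / (n * α)) = b / n := by field_simp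
  refine ⟨Polynomial.C ((n:ℝ) ^ (-lam)) * P₀, (Polynomial.natDegree_C_mul_le _ _).trans hP₀, ?_, ?_⟩
  · intro x hx
    obtain ⟨s, hs1, hs2, hs3⟩ := I2 (n * x) (by
      rw [abs_mul, abs_of_pos hn0]
      have := abs_le.2 hx
      nlinarith)
    have hs4 : |s / n| ≤ 1 := by
      rw [abs_div, abs_of_pos hn0, div_le_one hn0]
      exact hs1
    have hs5 : (n:ℝ) * (s / n) = s := by field_simp
    refine ⟨s / n, abs_le.1 hs4, ?_, ?_⟩
    · have e1 : x - s / n = -(s - n * x) / n := by field_simp; ring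
      rw [hαδ, e1, abs_div, abs_neg, abs_of_pos hn0]
      exact div_le_div_of_nonneg_right (hs2.trans hcb) hn0.le
    · apply hfinal x (s / n) (abs_le.1 hs4)
      rw [hs5]
      exact hs3
  · intro x hx
    obtain ⟨t, ht1, ht2, ht3⟩ := I1 (n * x) (by
      rw [abs_mul, abs_of_pos hn0]
      have := abs_le.2 hx
      nlinarith)
    have ht4 : |t / n| ≤ 1 := by
      rw [abs_div, abs_of_pos hn0, div_le_one hn0]
      exact ht1
    have ht5 : (n:ℝ) * (t / n) = t := by field_simp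
    refine ⟨t / n, abs_le.1 ht4, ?_, ?_⟩
    · have e1 : x - t / n = (n * x - t) / n := by field_simp
      rw [hαδ, e1, abs_div, abs_of_pos hn0]
      exact div_le_div_of_nonneg_right (ht2.trans hcb) hn0.le
    · apply hfinal (t / n) x hx
      rw [ht5]
      exact ht3

end Pool.Agent.H293.HA
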