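import Pool.Agent.H293.HA.RVT
import Pool.Agent.H293.HA.LowT

/-!
# Upper bound for `(1-x^2)^λ`: from entire functions to polynomials
-/

set_option autoImplicit false

open Filter Asymptotics Topology Set MeasureTheory

namespace Pool.Agent.H293.HA

lemma geo {n c η : ℝ} (hn : 0 < n) (hc : 0 ≤ c) (hη0 : 0 ≤ η) (hη1 : η < 1) {x s : ℝ}
    (hx : x ∈ Icc (-1:ℝ) 1) (hs0 : 0 ≤ s) (hsn : s ≤ n)
    (h : s = n * Real.sqrt (1 - x ^ 2) ∨ (|s ^ 2 - (n * Real.sqrt (1 - x ^ 2)) ^ 2| ≤ c ∧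
      s ≤ η * n ∧ n * Real.sqrt (1 - x ^ 2) ≤ η * n)) :
    ∃ y ∈ Icc (-1:ℝ) 1, |x - y| ≤ c / (2 * n ^ 2 * Real.sqrt (1 - η ^ 2)) ∧
      n * Real.sqrt (1 - y ^ 2) = s := by
  have hη2 : 0 < 1 - η ^ 2 := by nlinarith
  have hsη : 0 < Real.sqrt (1 - η ^ 2) := Real.sqrt_pos.2 hη2
  rcases h with h | ⟨h1, h2, h3⟩
  · exact ⟨x, hx, by simpa using by positivity, h.symm⟩
  have hx2 : 0 ≤ 1 - x ^ 2 := by
    have := abs_le.2 hx
    have := sq_le_one_iff_abs_le_one x |>.2 this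
    linarith
  set z := Real.sqrt (1 - (s / n) ^ 2) with hz
  have hsn1 : s / n ≤ 1 := (div_le_one hn).2 hsn
  have hsn0 : 0 ≤ s / n := by positivity
  have hz0 : 0 ≤ z := Real.sqrt_nonneg _
  have hzsq : z ^ 2 = 1 - (s / n) ^ 2 := Real.sq_sqrt (by nlinarith)
  have hz1 : z ≤ 1 := by
    rw [hz]
    exact Real.sqrt_le_one.2 (by nlinarith)
  have hzn : n * Real.sqrt (1 - z ^ 2) = s := by
    rw [hzsq, show 1 - (1 - (s / n) ^ 2) = (s / n) ^ 2 by ring, Real.sqrt_sq hsn0]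
    field_simp
  have hsη1 : s / n ≤ η := by rw [div_le_iff₀ hn]; exact h2
  have hzη : Real.sqrt (1 - η ^ 2) ≤ z := by
    rw [hz]
    apply Real.sqrt_le_sqrt
    nlinarith
  have hxη : Real.sqrt (1 - η ^ 2) ≤ |x| := by
    rw [← Real.sqrt_sq_eq_abs]
    apply Real.sqrt_le_sqrt
    have e1 : Real.sqrt (1 - x ^ 2) ≤ η := by nlinarith
    have e2 := Real.sq_sqrt hx2
    have e3 := Real.sqrt_nonneg (1 - x ^ 2)
    nlinarith
  have key : |(|x|) - z| ≤ c / (2 * n ^ 2 * Real.sqrt (1 - η ^ 2)) := by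
    have e1 : |(|x|) - z| * (|x| + z) = |x ^ 2 - z ^ 2| := by
      have e0 : 0 ≤ |x| + z := by positivity
      have e00 : x ^ 2 - z ^ 2 = (|x| - z) * (|x| + z) := by
        rw [← sq_abs x]
        ring
      rw [e00, abs_mul, abs_of_nonneg e0]
    have e2 : x ^ 2 - z ^ 2 = (s ^ 2 - (n * Real.sqrt (1 - x ^ 2)) ^ 2) / n ^ 2 := by
      rw [hzsq, mul_pow, Real.sq_sqrt hx2]
      field_simp
      ring
    have e3 : |x ^ 2 - z ^ 2| ≤ c / n ^ 2 := by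
      rw [e2, abs_div, abs_of_pos (by positivity : 0 < n ^ 2)]
      exact div_le_div_of_nonneg_right h1 (by positivity)
    have e4 : |(|x|) - z| * (2 * Real.sqrt (1 - η ^ 2)) ≤ c / n ^ 2 := by
      refine le_trans ?_ (e1.le.trans e3)
      apply mul_le_mul_of_nonneg_left _ (abs_nonneg _)
      linarith
    rw [← le_div_iff₀ (by positivity)] at e4
    refine e4.trans (le_of_eq ?_)
    field_simp
  rcases le_total 0 x with hx0 | hx0
  · refine ⟨z, ⟨by linarith, hz1⟩, ?_, hzn⟩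
    rw [abs_of_nonneg hx0] at key
    exact key
  · refine ⟨-z, ⟨by linarith, by linarith⟩, ?_, by rw [neg_sq]; exact hzn⟩
    rw [abs_of_nonpos hx0] at key
    rw [← abs_neg]
    convert key using 2
    ring

variable {lam : ℝ}

lemma PT_abs (hl : 0 < lam) : PT (2 * lam) 1 (fun t => |t| ^ (2 * lam)) := by
  refine ⟨continuous_abs.rpow_const (fun _ => Or.inr (by linarith)), ?_, ?_, Or.inl rfl⟩
  · intro t ht
    simp only
    rw [abs_of_nonneg ht]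
  · intro t
    simp only
    rw [abs_neg, one_mul]

lemma sq_rpow (t lam : ℝ) : (t ^ 2) ^ lam = |t| ^ (2 * lam) := by
  rw [← sq_abs, ← Real.rpow_natCast |t| 2, ← Real.rpow_mul (abs_nonneg _)]
  norm_num

theorem upperT (h0 : 0 < lam) (h1 : lam < 1) {α b c σ η : ℝ} (hα : 0 < α) (hb : 0 < b)
    (hc : 0 < c) (hσ0 : 0 < σ) (hσ1 : σ < 1) (hη : 0 < η) (hη1 : η < 1)
    (hcb : c / σ ^ 2 ≤ b * Real.sqrt (1 - η ^ 2)) {Q : ℂ → ℂ} (hQ : FeasT lam c Q) :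
    ∀ᶠ n : ℕ in atTop, ∃ P : Polynomial ℝ, P.natDegree ≤ n ∧
      Close α (b / (2 * n ^ 2 * α)) (fun x => (1 - x ^ 2) ^ lam) (fun x => P.eval x) := by
  obtain ⟨hQE, hQev, hQre, hQ1, hQ2⟩ := hQ
  have hPT := PT_abs h0
  obtain ⟨Q₁, K₁, hK₁, hd₁, hb₁, hneg₁, hre₁, -, -, hG1⟩ := hPT.exists_Q1 (by linarith) (by linarith)
  have hneg₁' : ∀ z, Q₁ (-z) = Q₁ z := by
    intro z
    rw [hneg₁]
    simp
  -- growth of Q
  have hQgrow : ∀ x : ℝ, ‖Q x‖ ≤ (2 + c) * (1 + |x|) ^ 2 := by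
    intro x
    obtain ⟨t, ht1, ht2⟩ := hQ1 x
    have e0 : ‖Q x‖ = |(Q x).re| := by
      have e1 : Q x = (((Q x).re : ℝ) : ℂ) := Complex.ext rfl (by rw [hQre]; simp)
      conv_lhs => rw [e1]
      rw [Complex.norm_real, Real.norm_eq_abs]
    rw [e0, ht2, abs_of_nonneg (by positivity)]
    rw [abs_le] at ht1
    have e1 : (t ^ 2) ^ lam ≤ (1 + x ^ 2 + c) ^ lam :=
      Real.rpow_le_rpow (by positivity) (by linarith) h0.le
    have e2 : (1 + x ^ 2 + c) ^ lam ≤ (1 + x ^ 2 + c) ^ (1:ℝ) :=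
      Real.rpow_le_rpow_of_exponent_le (by nlinarith [sq_nonneg x]) h1.le
    rw [Real.rpow_one] at e2
    have e3 : 1 ≤ (1 + |x|) ^ 2 := one_le_pow₀ (by linarith [abs_nonneg x])
    have e4 : x ^ 2 ≤ (1 + |x|) ^ 2 := by
      rw [← sq_abs]
      exact pow_le_pow_left₀ (abs_nonneg _) (by linarith) 2
    nlinarith
  have hQb : ∀ z : ℂ, ‖Q z‖ ≤ (2 * (2 + c)) * (1 + ‖z‖) ^ 2 * Real.exp |z.im| := by
    intro z
    have := pl_bound zero_le_one hQE hQgrow z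
    rwa [one_mul] at this
  set K₂ := max (σ ^ (-(2 * lam)) * (2 * (2 + c))) (σ ^ (-(2 * lam)) * K₁) with hK₂
  set QS := scaleQ σ (2 * lam) Q with hQS
  set GS := scaleQ σ (2 * lam) Q₁ with hGS
  have hQSb : ∀ z : ℂ, ‖QS z‖ ≤ K₂ * (1 + ‖z‖) ^ 2 * Real.exp (σ * |z.im|) :=
    bound_mono (le_max_left _ _) (scaleQ_bound hσ0 hσ1.le hQb)
  have hGSb : ∀ z : ℂ, ‖GS z‖ ≤ K₂ * (1 + ‖z‖) ^ 2 * Real.exp (σ * |z.im|) :=
    bound_mono (le_max_right _ _) (scaleQ_bound hσ0 hσ1.le hb₁)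
  have hQSi : ∀ x : ℝ, (QS x).im = 0 := scaleQ_im hQre
  have hGSi : ∀ x : ℝ, (GS x).im = 0 := scaleQ_im hre₁
  have hσp : 0 < σ ^ (-(2 * lam)) := Real.rpow_pos_of_pos hσ0 _
  have hscale : ∀ t : ℝ, σ ^ (-(2 * lam)) * (t ^ 2) ^ lam = ((t / σ) ^ 2) ^ lam := by
    intro t
    rw [div_pow, Real.div_rpow (by positivity) (by positivity), sq_rpow σ, abs_of_pos hσ0,
      Real.rpow_neg hσ0.le]
    field_simp
  have hscale2 : ∀ t : ℝ, (t ^ 2) ^ lam = σ ^ (-(2 * lam)) * ((σ * t) ^ 2) ^ lam := by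
    intro t
    rw [hscale]
    congr 2
    field_simp
  have hQSe : ∀ z, QS (-z) = QS z := by
    intro z
    rw [hQS]
    unfold scaleQ
    rw [mul_neg, hQev]
  have hGSe : ∀ z, GS (-z) = GS z := by
    intro z
    rw [hGS]
    unfold scaleQ
    rw [mul_neg, hneg₁']
  have A1 : ∀ s : ℝ, ∃ t : ℝ, |s ^ 2 - t ^ 2| ≤ c / σ ^ 2 ∧ (QS s).re = (t ^ 2) ^ lam := by
    intro s
    obtain ⟨t, ht1, ht2⟩ := hQ1 (σ * s)
    refine ⟨t / σ, ?_, ?_⟩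
    · have e1 : s ^ 2 - (t / σ) ^ 2 = ((σ * s) ^ 2 - t ^ 2) / σ ^ 2 := by field_simp
      rw [e1, abs_div, abs_of_pos (by positivity : 0 < σ ^ 2)]
      exact div_le_div_of_nonneg_right ht1 (by positivity)
    · rw [hQS, scaleQ_re, ht2, hscale]
  have A2 : ∀ t : ℝ, ∃ s : ℝ, |s ^ 2 - t ^ 2| ≤ c / σ ^ 2 ∧ (QS s).re = (t ^ 2) ^ lam := by
    intro t
    obtain ⟨s, hs1, hs2⟩ := hQ2 (σ * t)
    refine ⟨s / σ, ?_, ?_⟩
    · have e1 : (s / σ) ^ 2 - t ^ 2 = (s ^ 2 - (σ * t) ^ 2) / σ ^ 2 := by field_simp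
      rw [e1, abs_div, abs_of_pos (by positivity : 0 < σ ^ 2)]
      exact div_le_div_of_nonneg_right hs1 (by positivity)
    · rw [hQS, scaleQ_re, mul_div_cancel₀ _ hσ0.ne', hs2, ← hscale2]
  have G : Tendsto (fun t : ℝ => t ^ (2 - 2 * lam) * ((GS t).re - (t ^ 2) ^ lam)) atTop (𝓝 0) := by
    have e1 : Tendsto (fun t : ℝ => σ * t) atTop atTop := tendsto_id.const_mul_atTop hσ0
    have e2 := (hG1.comp e1).const_mul (σ ^ (-(2 * lam)) * σ ^ (-(2 - 2 * lam)))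
    rw [mul_zero] at e2
    refine e2.congr' ?_
    filter_upwards [eventually_gt_atTop 0] with t ht
    simp only [Function.comp]
    rw [hGS, scaleQ_re, hscale2 t, sq_rpow (σ * t), Real.mul_rpow hσ0.le ht.le, Real.rpow_neg hσ0.le
      (2 - 2 * lam)]
    have : σ ^ (2 - 2 * lam) ≠ 0 := (Real.rpow_pos_of_pos hσ0 _).ne'
    field_simp
  set σ' := (1 + σ) / 2 with hσ'
  obtain ⟨K₄, hK₄⟩ := mixf_bound K₂ σ σ'
  obtain ⟨C, κ, hC, hκ, happ⟩ := approx_poly (σ := σ') (by rw [hσ']; linarith) (by rw [hσ']; linarith)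
  set c₁ := b / (4 * α) with hc₁def
  have hc₁ : 0 < c₁ := by rw [hc₁def]; positivity
  have hcσ : 0 < c / σ ^ 2 := by positivity
  have hrv := rvT h0 h1 hcσ hc₁ hη hη1.le (a := fun s => (QS s).re) (g := fun s => (GS s).re)
    (Complex.continuous_re.comp ((differentiable_scaleQ hQE.1).continuous.comp
      Complex.continuous_ofReal))
    (Complex.continuous_re.comp ((differentiable_scaleQ hd₁).continuous.comp
      Complex.continuous_ofReal)) (fun s => by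
        have := hQSe s
        push_cast
        rw [this]) A1 A2 G
  have hK₄0 : 0 ≤ K₄ := by
    have := hK₄ ((σ' - σ) / 2) (by rw [hσ']; linarith) (by linarith) QS GS hQSb hGSb 0
    simp at this
    exact le_trans (norm_nonneg _) this
  have hsmall := exp_small (A := K₄ * C) (by positivity) hκ hc₁ (p := 2 * lam - 2) (by linarith)
  have hδlim : ∀ᶠ n : ℕ in atTop, (n:ℝ) ^ (lam / 2 - 1) < (1 - σ) / 4 := by
    have e1 : Tendsto (fun x : ℝ => x ^ (-(1 - lam / 2))) atTop (𝓝 0) :=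
      tendsto_rpow_neg_atTop (by linarith)
    have e2 := (e1.comp tendsto_natCast_atTop_atTop).eventually
      (gt_mem_nhds (by linarith : 0 < (1 - σ) / 4))
    filter_upwards [e2] with n hn
    simp only [Function.comp] at hn
    rwa [neg_sub] at hn
  filter_upwards [hrv, hsmall, hδlim, eventually_ge_atTop 1] with n hn1 hn2 hn3 hn5
  have hn0 : (0:ℝ) < n := by exact_mod_cast hn5
  set δ := (n:ℝ) ^ (lam / 2 - 1) with hδ
  have hδ0 : 0 < δ := Real.rpow_pos_of_pos hn0 _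
  have hδ1 : σ + 2 * δ ≤ σ' := by rw [hσ']; linarith
  have hmb := hK₄ δ hδ0 hδ1 QS GS hQSb hGSb
  obtain ⟨-, hsecond⟩ := happ K₄ (mixf δ QS GS)
    (differentiable_mixf δ (differentiable_scaleQ hQE.1) (differentiable_scaleQ hd₁)) hmb n hn5
  obtain ⟨P₀, hP₀, hP₀e⟩ := hsecond (mixf_neg δ hQSe hGSe)
  obtain ⟨I1, I2⟩ := hn1 (fun s => (mixf δ QS GS s).re) (fun s => mixf_real δ (hQSi s) (hGSi s))
  have hnl : 0 < (n:ℝ) ^ (-(2 * lam)) := Real.rpow_pos_of_pos hn0 _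
  have hfn : ∀ x ∈ Icc (-1:ℝ) 1, (1 - x ^ 2) ^ lam =
      (n:ℝ) ^ (-(2 * lam)) * ((n * Real.sqrt (1 - x ^ 2)) ^ 2) ^ lam := by
    intro x hx
    have hx2 : 0 ≤ 1 - x ^ 2 := by
      have := sq_le_one_iff_abs_le_one x |>.2 (abs_le.2 hx)
      linarith
    rw [mul_pow, Real.sq_sqrt hx2, Real.mul_rpow (by positivity) hx2, sq_rpow (n:ℝ) lam,
      abs_of_pos hn0, ← mul_assoc, ← Real.rpow_add hn0]
    simp
  have hδ2 : (n:ℝ) ^ (2 * lam) * (b / (2 * n ^ 2 * α)) = 2 * c₁ * (n:ℝ) ^ (2 * lam - 2) := by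
    rw [Real.rpow_sub hn0, hc₁def]
    have : (n:ℝ) ^ (2:ℝ) = (n:ℝ) ^ 2 := by norm_cast
    rw [this]
    field_simp
    ring
  have hfinal : ∀ x y : ℝ, x ∈ Icc (-1:ℝ) 1 → y ∈ Icc (-1:ℝ) 1 →
      |((n * Real.sqrt (1 - x ^ 2)) ^ 2) ^ lam -
        (mixf δ QS GS ((n * Real.sqrt (1 - y ^ 2) : ℝ) : ℂ)).re| ≤ c₁ * (n:ℝ) ^ (2 * lam - 2) →
      |(1 - x ^ 2) ^ lam - (Polynomial.C ((n:ℝ) ^ (-(2 * lam))) * P₀).eval y| ≤
        b / (2 * n ^ 2 * α) := by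
    intro x y hx hy hxy
    rw [Polynomial.eval_mul, Polynomial.eval_C, hfn x hx, ← mul_sub, abs_mul, abs_of_pos hnl]
    have e1 := hP₀e y hy
    have e2 : |((n * Real.sqrt (1 - x ^ 2)) ^ 2) ^ lam - P₀.eval y| ≤
        (n:ℝ) ^ (2 * lam) * (b / (2 * n ^ 2 * α)) := by
      rw [hδ2]
      calc |((n * Real.sqrt (1 - x ^ 2)) ^ 2) ^ lam - P₀.eval y|
          = |(((n * Real.sqrt (1 - x ^ 2)) ^ 2) ^ lam -
            (mixf δ QS GS ((n * Real.sqrt (1 - y ^ 2) : ℝ) : ℂ)).re) -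
            (P₀.eval y - (mixf δ QS GS ((n * Real.sqrt (1 - y ^ 2) : ℝ) : ℂ)).re)| := by
              congr 1; ring
        _ ≤ |((n * Real.sqrt (1 - x ^ 2)) ^ 2) ^ lam -
            (mixf δ QS GS ((n * Real.sqrt (1 - y ^ 2) : ℝ) : ℂ)).re| +
            |P₀.eval y - (mixf δ QS GS ((n * Real.sqrt (1 - y ^ 2) : ℝ) : ℂ)).re| := abs_sub _ _
        _ ≤ _ := by linarith
    calc (n:ℝ) ^ (-(2 * lam)) * |((n * Real.sqrt (1 - x ^ 2)) ^ 2) ^ lam - P₀.eval y|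
        ≤ (n:ℝ) ^ (-(2 * lam)) * ((n:ℝ) ^ (2 * lam) * (b / (2 * n ^ 2 * α))) :=
          mul_le_mul_of_nonneg_left e2 hnl.le
      _ = _ := by
          rw [← mul_assoc, ← Real.rpow_add hn0]
          simp
  have hαδ : α * (b / (2 * n ^ 2 * α)) = b / (2 * n ^ 2) := by field_simp
  have hhor : c / σ ^ 2 / (2 * n ^ 2 * Real.sqrt (1 - η ^ 2)) ≤ α * (b / (2 * n ^ 2 * α)) := by
    have hsη : 0 < Real.sqrt (1 - η ^ 2) := Real.sqrt_pos.2 (by nlinarith)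
    rw [hαδ, div_le_div_iff₀ (by positivity) (by positivity)]
    have : 0 < (2 * (n:ℝ) ^ 2) := by positivity
    nlinarith
  have hrange : ∀ x ∈ Icc (-1:ℝ) 1, 0 ≤ (n:ℝ) * Real.sqrt (1 - x ^ 2) ∧
      (n:ℝ) * Real.sqrt (1 - x ^ 2) ≤ n := by
    intro x hx
    have e1 : Real.sqrt (1 - x ^ 2) ≤ 1 := Real.sqrt_le_one.2 (by nlinarith [sq_nonneg x])
    have e2 := Real.sqrt_nonneg (1 - x ^ 2)
    constructor
    · positivity
    · nlinarith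
  refine ⟨Polynomial.C ((n:ℝ) ^ (-(2 * lam))) * P₀,
    (Polynomial.natDegree_C_mul_le _ _).trans hP₀, ?_, ?_⟩
  · intro x hx
    obtain ⟨r1, r2⟩ := hrange x hx
    obtain ⟨s, hs1, hs2, hs3, hs4⟩ := I2 (n * Real.sqrt (1 - x ^ 2)) r1 r2
    obtain ⟨y, hy, hy1, hy2⟩ := geo hn0 hcσ.le hη.le hη1 hx hs1 hs2 hs3
    refine ⟨y, hy, hy1.trans hhor, ?_⟩
    apply hfinal x y hx hy
    rw [hy2]
    exact hs4
  · intro x hx
    obtain ⟨r1, r2⟩ := hrange x hx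
    obtain ⟨t, ht1, ht2, ht3, ht4⟩ := I1 (n * Real.sqrt (1 - x ^ 2)) r1 r2
    have ht3' : t = n * Real.sqrt (1 - x ^ 2) ∨ (|t ^ 2 - (n * Real.sqrt (1 - x ^ 2)) ^ 2| ≤
        c / σ ^ 2 ∧ t ≤ η * n ∧ n * Real.sqrt (1 - x ^ 2) ≤ η * n) := by
      rcases ht3 with h | ⟨e1, e2, e3⟩
      · exact Or.inl h.symm
      · exact Or.inr ⟨by rwa [abs_sub_comm], e3, e2⟩
    obtain ⟨y, hy, hy1, hy2⟩ := geo hn0 hcσ.le hη.le hη1 hx ht1 ht2 ht3'
    refine ⟨y, hy, hy1.trans hhor, ?_⟩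
    apply hfinal y x hy hx
    rw [hy2]
    exact ht4

end Pool.Agent.H293.HA
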